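import Mathlib

/-!
Finite simplicial complexes, given by lists of simplices, and their realisations.
-/

set_option autoImplicit false

namespace Pool.Agent.W995.CC

/-- `L` lists the simplices of a finite simplicial complex of dimension at most `d`, with vertices
in `ℕ`: every member of `L` is a nonempty list of at most `d + 1` distinct vertices, and every
nonempty sublist of a member of `L` (a face) is a member of `L`. -/
def IsComplex (d : ℕ) (L : List (List ℕ)) : Prop :=
  ∀ s ∈ L, s ≠ [] ∧ s.Nodup ∧ s.length ≤ d + 1 ∧ ∀ t, t ≠ [] → t.Sublist s → t ∈ L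

/-- The geometric realisation: the functions `x : ℕ → ℝ` (barycentric coordinates) with
nonnegative values which vanish outside of some simplex `s` of `L` and have sum `1` over `s`. -/
def Realization (L : List (List ℕ)) : Set (ℕ → ℝ) :=
  {x | (∀ v, 0 ≤ x v) ∧ ∃ s ∈ L, (∀ v, v ∉ s → x v = 0) ∧ ∑ v ∈ s.toFinset, x v = 1}

end Pool.Agent.W995.CC
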