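import Pool.Agent.W995.CC.Dim
import Pool.Agent.W995.CC.Defs
import Pool.Agent.Helper270.WPB

/-!
Contractibility of finite simplicial complexes of dimension at most three is undecidable.
-/

set_option autoImplicit false

noncomputable section

namespace Pool.Agent.W995.CC

theorem Realization_eq (L : List (List ℕ)) : Realization L = Re L := by
  ext x
  constructor
  · rintro ⟨h1, s, hs, h2, h3⟩
    exact ⟨s, hs, h1, h2, h3⟩
  · rintro ⟨s, hs, h1, h2, h3⟩
    exact ⟨h1, s, hs, h2, h3⟩

theorem isComplex_faces {d : ℕ} {L : List (List ℕ)} (h : nd (d + 1) L) : IsComplex d (faces L) := by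
  intro t ht
  obtain ⟨h1, s, hs, hts⟩ := mem_faces.1 ht
  obtain ⟨h2, h3⟩ := h s hs
  exact ⟨h1, h2.sublist hts, hts.length_le.trans h3,
    fun r hr hrt => mem_faces.2 ⟨hr, s, hs, hrt.trans hts⟩⟩

theorem undecidable : ¬ ∃ f : List (List ℕ) → Bool, Computable f ∧
    ∀ L : List (List ℕ), IsComplex 3 L →
      (f L = true ↔ ContractibleSpace (Realization L)) := by
  rintro ⟨f, hf, h⟩
  obtain ⟨m, R, W, hW, hund⟩ := Pool.Agent.Helper270.WP.word_problem
  refine hund ?_
  rw [ComputablePred.computable_iff]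
  let rs : List (List (ℕ × Bool)) := R.toList.map fun r => tw r.toWord
  have hrs : ∀ r ∈ rs, ∀ l ∈ r, l.1 < m := by
    intro r hr
    obtain ⟨r', -, rfl⟩ := List.mem_map.1 hr
    exact tw_idx _
  refine ⟨fun n => f (faces (Ycx m rs (tw (W n)))), ?_, ?_⟩
  · have h1 : Primrec fun c : List (Fin m × Bool) => faces (Ycx m rs (tw c)) :=
      pr_faces.comp (pr_Ycx m rs (pr_tw m))
    exact hf.comp (h1.to_comp.comp hW)
  · funext n
    rw [h _ (isComplex_faces (nd_Ycx (tw_idx _) hrs)), Realization_eq, Re_faces]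
    exact propext (Ycx_free R (W n)).symm

end Pool.Agent.W995.CC
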