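import Pool.Agent.W995.CC.NH

/-!
Attaching cylinders and discs, abstractly; extension of null-homotopies.
-/

set_option autoImplicit false

noncomputable section

namespace Pool.Agent.W995.CC

open unitInterval

variable {B X Y X' T : Type} [TopologicalSpace B] [TopologicalSpace X] [TopologicalSpace Y]
  [TopologicalSpace X'] [TopologicalSpace T]

/-- strong deformation retract -/
structure SDR (i : C(X, X')) where
  G : C(X' × I, X')
  R : C(X', X)
  G0 : ∀ y, G (y, 0) = y
  G1 : ∀ y, G (y, 1) = i (R y)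
  Gi : ∀ x t, G (i x, t) = i x
  Ri : ∀ x, R (i x) = x

/-- the null-homotopy on a space that deformation retracts to `X` -/
def SDR.nh {i : C(X, X')} (S : SDR i) {f : X' → T} (hf : Continuous f) {x0 : X} {t0 : T}
    (ht : t0 = f (i x0)) (n : NH (fun x => f (i x)) x0 t0) : NH f (i x0) t0 where
  N y := Path.trans (x := f y) (y := f (i (S.R y)))
    ⟨⟨fun t => f (S.G (y, t)), by fun_prop⟩, by simp [S.G0], by simp [S.G1]⟩ (n.N (S.R y))
  cont := by
    refine Path.trans_continuous_family (fun y : X' => (⟨⟨fun t => f (S.G (y, t)), by fun_prop⟩,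
      by simp [S.G0], by simp [S.G1]⟩ : Path (f y) (f (i (S.R y))))) ?_
      (fun y => n.N (S.R y)) ?_
    · exact hf.comp S.G.continuous
    · exact n.cont.comp ((S.R.continuous.comp continuous_fst).prodMk continuous_snd)
  base t := by
    rw [Path.trans_apply]
    split_ifs
    · show f (S.G (i x0, _)) = _
      rw [S.Gi, ht]
    · show n.N (S.R (i x0)) _ = _
      rw [S.Ri]
      exact n.base _

theorem SDR.push_nh {i : C(X, X')} (S : SDR i) {f : X' → T} (hf : Continuous f) {x0 : X} {t0 : T}
    (ht : t0 = f (i x0)) (n : NH (fun x => f (i x)) x0 t0) (ψ : Path x0 x0) (P : Path t0 t0)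
    (hP : ∀ u, P u = f (i (ψ u))) (hP' : ∀ u, P u = f ((ψ.map i.continuous) u)) :
    ((S.nh hf ht n).push (ψ.map i.continuous) P hP').Homotopic (n.push ψ P hP) := by
  have h : (S.nh hf ht n).push (ψ.map i.continuous) P hP' =
      (Path.refl P).trans (n.push ψ P hP) := by
    refine Path.ext (funext fun t => Path.ext (funext fun u => ?_))
    show ((S.nh hf ht n).N (i (ψ u))) t = _
    show (Path.trans _ _) t = _
    rw [Path.trans_apply, Path.trans_apply]
    split_ifs
    · show f (S.G (i (ψ u), _)) = P u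
      rw [S.Gi, hP]
    · show n.N (S.R (i (ψ u))) _ = n.N (ψ u) _
      rw [S.Ri]
  rw [h]
  exact Path.Homotopic.refl_trans _

/-- attaching a 2-cell along the loop `φ`. The cell has polar coordinates `(u, r)`, and `k` is a
homotopy rel the boundary that pushes the radius `u = 0` to the base point. -/
structure Tri {x0 : X} (i : C(X, X')) (φ : Path x0 x0) where
  k : C(I × I × I, X')
  k0 : ∀ t u, k (t, u, 0) = i (φ u)
  kp : ∀ t r, k (t, 0, r) = k (t, 1, r)
  k1 : ∀ t u, k (t, u, 1) = k (t, 0, 1)
  kb : ∀ r, k (1, 0, r) = i x0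
  surj : ∀ y, (∃ x, i x = y) ∨ ∃ u r, k (0, u, r) = y
  ext : ∀ {Z : Type} [TopologicalSpace Z] (g : C(X, Z)) (h : C(I × I, Z)),
    (∀ u, h (u, 0) = g (φ u)) → (∀ r, h (0, r) = h (1, r)) → (∀ u, h (u, 1) = h (0, 1)) →
    ∃ g' : C(X', Z), (∀ x, g' (i x) = g x) ∧ ∀ u r, g' (k (0, u, r)) = h (u, r)

/-- the contraction of the boundary of the cell -/
def Tri.D {x0 : X} {i : C(X, X')} {φ : Path x0 x0} (S : Tri i φ) :
    Path (φ.map i.continuous) (Path.refl (i x0)) where
  toFun r := ⟨⟨fun u => S.k (1, u, r), by fun_prop⟩, S.kb r, by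
    show S.k (1, 1, r) = _
    rw [← S.kp, S.kb]⟩
  continuous_toFun := by
    rw [← Path.continuous_uncurry_iff]
    show Continuous fun p : I × I => S.k (1, p.2, p.1)
    fun_prop
  source' := by
    ext u
    show S.k (1, u, 0) = _
    rw [S.k0]; rfl
  target' := by
    ext u
    show S.k (1, u, 1) = _
    rw [S.k1, S.kb]; rfl

theorem Tri.D_apply {x0 : X} {i : C(X, X')} {φ : Path x0 x0} (S : Tri i φ) (r u : I) :
    S.D r u = S.k (1, u, r) := rfl

/-- extension of null-homotopies over a 2-cell -/
theorem Tri.extend {x0 : X} {i : C(X, X')} {φ : Path x0 x0} (S : Tri i φ) {f : X' → T}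
    (hf : Continuous f) {t0 : T} (ht : t0 = f (i x0)) (n : NH (fun x => f (i x)) x0 t0)
    (P : Path t0 t0) (hP : ∀ u, P u = f (i (φ u)))
    (h : (n.push φ P hP).Homotopic (mapPP hf S.D hP (fun u => by simp [ht]) ht ht)) :
    ∃ n' : NH f (i x0) t0, ∀ (ψ : Path x0 x0) (Q : Path t0 t0) (hQ : ∀ u, Q u = f (i (ψ u))),
      (n'.push (ψ.map i.continuous) Q hQ).Homotopic (n.push ψ Q hQ) := by
  obtain ⟨H⟩ := h.symm
  have hfi : Continuous fun x => f (i x) := hf.comp i.continuous
  -- first homotopy
  obtain ⟨gA, hA1, hA2⟩ := S.ext (Z := C(I, T))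
    (ContinuousMap.curry ⟨fun p : X × I => f (i p.1), by fun_prop⟩)
    (ContinuousMap.curry ⟨fun p : (I × I) × I => f (S.k (p.2, p.1.1, p.1.2)), by fun_prop⟩)
    (fun u => by ext t; simp [S.k0]) (fun r => by ext t; simp [S.kp])
    (fun u => by ext t; simp only [ContinuousMap.curry_apply, ContinuousMap.coe_mk]; rw [S.k1])
  have hcH : Continuous fun p : (I × I) × I => H (p.2, p.1.2) p.1.1 := by
    have h : Continuous fun p : Path t0 t0 × I => p.1 p.2 := by fun_prop
    exact h.comp ((H.continuous.comp (by fun_prop)).prodMk (by fun_prop))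
  obtain ⟨gB, hB1, hB2⟩ := S.ext (Z := C(I, T))
    (ContinuousMap.curry ⟨fun p : X × I => f (i p.1), by fun_prop⟩)
    (ContinuousMap.curry ⟨fun p : (I × I) × I => H (p.2, p.1.2) p.1.1, hcH⟩)
    (fun u => by
      ext t
      simp only [ContinuousMap.curry_apply, ContinuousMap.coe_mk]
      rw [H.source]; exact hP u)
    (fun r => by ext t; simp)
    (fun u => by
      ext t
      simp only [ContinuousMap.curry_apply, ContinuousMap.coe_mk]
      rw [H.target]; simp)
  have hN : Continuous fun p : X × I => n.N p.1 p.2 := n.cont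
  let mx : (I × I) × I → I := fun p => σ (σ p.2 * σ p.1.2)
  have hmx : Continuous mx := by
    simp only [mx]
    fun_prop
  obtain ⟨gC, hC1, hC2⟩ := S.ext (Z := C(I, T))
    (ContinuousMap.curry ⟨fun p : X × I => n.N p.1 p.2, hN⟩)
    (ContinuousMap.curry ⟨fun p : (I × I) × I => n.N (φ p.1.1) (mx p),
      hN.comp ((φ.continuous.comp (by fun_prop)).prodMk hmx)⟩)
    (fun u => by
      ext t
      simp [mx])
    (fun r => by
      have e0 : ∀ s, n.N (φ 0) s = t0 := by intro s; rw [φ.source]; exact n.base s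
      have e1 : ∀ s, n.N (φ 1) s = t0 := by intro s; rw [φ.target]; exact n.base s
      ext t
      exact (e0 _).trans (e1 _).symm)
    (fun u => by
      ext t
      simp [mx])
  -- endpoints
  have eA0 : ∀ y, gA y 0 = f y := by
    intro y
    rcases S.surj y with ⟨x, rfl⟩ | ⟨u, r, rfl⟩
    · rw [hA1]; rfl
    · rw [hA2]; rfl
  have eAB : ∀ y, gA y 1 = gB y 0 := by
    intro y
    rcases S.surj y with ⟨x, rfl⟩ | ⟨u, r, rfl⟩
    · rw [hA1, hB1]; rfl
    · rw [hA2, hB2]
      show f (S.k (1, u, r)) = H (0, r) u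
      rw [H.apply_zero]; rfl
  have eBC : ∀ y, gB y 1 = gC y 0 := by
    intro y
    rcases S.surj y with ⟨x, rfl⟩ | ⟨u, r, rfl⟩
    · rw [hB1, hC1]
      exact ((n.N x).source).symm
    · rw [hB2, hC2]
      show H (1, r) u = n.N (φ u) (mx ((u, r), 0))
      rw [H.apply_one]
      have : mx ((u, r), 0) = r := by simp [mx]
      rw [this]; rfl
  have eC1 : ∀ y, gC y 1 = t0 := by
    intro y
    rcases S.surj y with ⟨x, rfl⟩ | ⟨u, r, rfl⟩
    · rw [hC1]
      exact (n.N x).target
    · rw [hC2]
      show n.N (φ u) (mx ((u, r), 1)) = t0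
      have : mx ((u, r), 1) = 1 := by simp [mx]
      rw [this]; exact (n.N (φ u)).target
  have hev : Continuous fun p : C(I, T) × I => p.1 p.2 := by fun_prop
  have cA : Continuous fun p : X' × I => gA p.1 p.2 :=
    hev.comp ((gA.continuous.comp continuous_fst).prodMk continuous_snd)
  have cB : Continuous fun p : X' × I => gB p.1 p.2 :=
    hev.comp ((gB.continuous.comp continuous_fst).prodMk continuous_snd)
  have cC : Continuous fun p : X' × I => gC p.1 p.2 :=
    hev.comp ((gC.continuous.comp continuous_fst).prodMk continuous_snd)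
  let pA : ∀ y, Path (f y) (gB y 0) := fun y => ⟨gA y, eA0 y, eAB y⟩
  let pB : ∀ y, Path (gB y 0) (gC y 0) := fun y => ⟨gB y, rfl, eBC y⟩
  let pC : ∀ y, Path (gC y 0) t0 := fun y => ⟨gC y, rfl, eC1 y⟩
  let n' : NH f (i x0) t0 :=
    { N := fun y => (pA y).trans ((pB y).trans (pC y))
      cont := by
        refine Path.trans_continuous_family (fun y => pA y) cA
          (fun y => (pB y).trans (pC y)) ?_
        exact Path.trans_continuous_family (fun y => pB y) cB (fun y => pC y) cC
      base := by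
        intro t
        rw [Path.trans_apply]
        split_ifs
        · show gA (i x0) _ = t0
          rw [hA1, ht]; rfl
        · rw [Path.trans_apply]
          split_ifs
          · show gB (i x0) _ = t0
            rw [hB1, ht]; rfl
          · show gC (i x0) _ = t0
            rw [hC1]
            exact n.base _ }
  refine ⟨n', fun ψ Q hQ => ?_⟩
  have h2 : n'.push (ψ.map i.continuous) Q hQ =
      (Path.refl Q).trans ((Path.refl Q).trans (n.push ψ Q hQ)) := by
    refine Path.ext (funext fun t => Path.ext (funext fun u => ?_))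
    show ((pA (i (ψ u))).trans ((pB (i (ψ u))).trans (pC (i (ψ u))))) t = _
    rw [Path.trans_apply, Path.trans_apply]
    split_ifs with h1
    · show gA (i (ψ u)) _ = Q u
      rw [hA1, hQ]; rfl
    · rw [Path.trans_apply, Path.trans_apply]
      split_ifs
      · show gB (i (ψ u)) _ = Q u
        rw [hB1, hQ]; rfl
      · show gC (i (ψ u)) _ = n.N (ψ u) _
        rw [hC1]; rfl
  rw [h2]
  exact (Path.Homotopic.refl_trans _).trans (Path.Homotopic.refl_trans _)

end Pool.Agent.W995.CC
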