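import Pool.Agent.W995.CC.Bld

/-!
The complex of a presentation with marked generators, and its contractibility.
-/

set_option autoImplicit false

noncomputable section

namespace Pool.Agent.W995.CC

open unitInterval

theorem sq_cancel {L : List (List ℕ)} {a b : ℕ} (h : adj L a b) :
    (sq L a b h).trans (sq L b a h.symm) = .refl _ := by
  have t : adj3 L a b a := by
    obtain ⟨s, hs, h1, h2⟩ := h
    exact ⟨s, hs, h1, h2, h1⟩
  exact (sq_tri t).trans (sq_self t.ac)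

/-- the path of a letter -/
def ltr (N : ℕ) (l : ℕ × Bool) : List ℕ :=
  if l.2 then [3 ^ l.1 * N, 3 ^ l.1 * N + 3 ^ l.1 * N, 0]
    else [3 ^ l.1 * N + 3 ^ l.1 * N, 3 ^ l.1 * N, 0]

/-- the path of a word -/
def vl (N : ℕ) (c : List (ℕ × Bool)) : List ℕ := c.flatMap (ltr N)

theorem vl_cons (N : ℕ) (l : ℕ × Bool) (c : List (ℕ × Bool)) :
    vl N (l :: c) = ltr N l ++ vl N c := rfl

theorem ep_rev3 {L : List (List ℕ)} {a b : ℕ} (h : chain L 0 [a, b, 0] 0)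
    (h' : chain L 0 [b, a, 0] 0) :
    (ep L 0 [a, b, 0] 0 h).symm = ep L 0 [b, a, 0] 0 h' := by
  have e1 : ep L 0 [a, b, 0] 0 h = (sq L 0 a h.1).trans ((sq L a b h.2.1).trans (sq L b 0 h.2.2.1)) :=
    congrArg (fun z => (sq L 0 a h.1).trans ((sq L a b h.2.1).trans z))
      (Path.Homotopic.Quotient.trans_refl (sq L b 0 h.2.2.1))
  have e2 : ep L 0 [b, a, 0] 0 h' =
      (sq L 0 b h'.1).trans ((sq L b a h'.2.1).trans (sq L a 0 h'.2.2.1)) :=
    congrArg (fun z => (sq L 0 b h'.1).trans ((sq L b a h'.2.1).trans z))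
      (Path.Homotopic.Quotient.trans_refl (sq L a 0 h'.2.2.1))
  have c1 := sq_cancel h.1
  have c2 := sq_cancel h.2.1
  have c3 := sq_cancel h.2.2.1
  have key : (ep L 0 [a, b, 0] 0 h).trans (ep L 0 [b, a, 0] 0 h') = .refl _ := by
    rw [e1, e2, Path.Homotopic.Quotient.trans_assoc, Path.Homotopic.Quotient.trans_assoc,
      ← Path.Homotopic.Quotient.trans_assoc (sq L b 0 h.2.2.1), c3,
      Path.Homotopic.Quotient.refl_trans,
      ← Path.Homotopic.Quotient.trans_assoc (sq L a b h.2.1), c2,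
      Path.Homotopic.Quotient.refl_trans, c1]
  have : ∀ x y : LG (pt L 0 h.start), x * y = 1 → x⁻¹ = y := fun x y h =>
    inv_eq_of_mul_eq_one_right h
  exact this _ _ key

theorem chain_rev3 {L : List (List ℕ)} {a b : ℕ} (h : chain L 0 [a, b, 0] 0) :
    chain L 0 [b, a, 0] 0 :=
  ⟨h.2.2.1.symm, h.2.1.symm, h.1.symm, rfl, h.start⟩

theorem ew_ep {L : List (List ℕ)} {N n : ℕ} {h00 : adj L 0 0}
    (tt : ℕ → Path (pt L 0 h00) (pt L 0 h00))
    (htt : ∀ s < n, ∃ h : chain L 0 (clp N s) 0,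
        Path.Homotopic.Quotient.mk (tt s) = ep L 0 (clp N s) 0 h) (c : List (ℕ × Bool))
    (hc : ∀ l ∈ c, l.1 < n) :
    ∃ h : chain L 0 (vl N c) 0, Path.Homotopic.Quotient.mk (ew tt c) = ep L 0 (vl N c) 0 h := by
  induction c with
  | nil => exact ⟨⟨rfl, h00⟩, rfl⟩
  | cons l c ih =>
    obtain ⟨h1, e1⟩ := ih fun l hl => hc l (List.mem_cons_of_mem _ hl)
    obtain ⟨h2, e2⟩ := htt l.1 (hc l List.mem_cons_self)
    have key : ∃ h : chain L 0 (ltr N l) 0,
        Path.Homotopic.Quotient.mk (if l.2 then tt l.1 else (tt l.1).symm) =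
          ep L 0 (ltr N l) 0 h := by
      obtain ⟨i, b⟩ := l
      cases b
      · have h2' : chain L 0 [3 ^ i * N, 3 ^ i * N + 3 ^ i * N, 0] 0 := h2
        have e3 := ep_rev3 h2' (chain_rev3 h2')
        refine ⟨chain_rev3 h2', ?_⟩
        refine Eq.trans ?_ e3
        have e4 : Path.Homotopic.Quotient.mk (tt i) =
          ep L 0 [3 ^ i * N, 3 ^ i * N + 3 ^ i * N, 0] 0 h2' := e2
        rw [← e4]
        rfl
      · exact ⟨h2, e2⟩
    obtain ⟨h3, e3⟩ := key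
    rw [vl_cons]
    refine ⟨h3.append h1, ?_⟩
    rw [ep_append h3 h1, ← e3, ← e1]
    rfl

theorem vl_proper {N n : ℕ} (hN : 0 < N) {c : List (ℕ × Bool)} (hc : ∀ l ∈ c, l.1 < n) :
    proper (3 ^ n * N) 0 (vl N c) := by
  induction c with
  | nil => trivial
  | cons l c ih =>
    have h1 := ih fun l hl => hc l (List.mem_cons_of_mem _ hl)
    have h2 : 3 ^ (l.1 + 1) ≤ 3 ^ n := Nat.pow_le_pow_right (by norm_num) (hc l List.mem_cons_self)
    have h3 : 0 < 3 ^ l.1 * N := by positivity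
    have h4 : 3 ^ (l.1 + 1) * N ≤ 3 ^ n * N := Nat.mul_le_mul_right N h2
    have h5 : 3 ^ (l.1 + 1) * N = 3 ^ l.1 * N + 3 ^ l.1 * N + 3 ^ l.1 * N := by ring
    rw [vl_cons]
    unfold ltr
    split_ifs
    · exact ⟨by omega, by omega, by omega, by omega, by omega, by omega, h1⟩
    · exact ⟨by omega, by omega, by omega, by omega, by omega, by omega, h1⟩

theorem vl_ne {N : ℕ} {c : List (ℕ × Bool)} (hc : c ≠ []) : vl N c ≠ [] := by
  cases c with
  | nil => exact absurd rfl hc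
  | cons l c =>
    rw [vl_cons]
    unfold ltr
    split_ifs <;> simp

/-- the one-point complex -/
def P0 : List (List ℕ) := [[0]]

theorem P0_00 : adj P0 0 0 := ⟨[0], by simp [P0], by simp, by simp⟩

theorem P0_bdd : bdd 1 P0 := by
  intro s hs v hv
  simp only [P0, List.mem_singleton] at hs
  subst hs
  simp at hv
  omega

instance : Subsingleton (Re P0) := by
  constructor
  have key : ∀ x : Re P0, (x : ℕ → ℝ) = dl 0 := by
    rintro ⟨x, s, hs, h1, h2, h3⟩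
    simp only [P0, List.mem_singleton] at hs
    subst hs
    funext v
    by_cases hv : v = 0
    · subst hv
      simpa [dl] using h3
    · show x v = _
      rw [h2 v (by simpa using hv)]
      simp [dl, hv]
  intro x y
  exact Subtype.ext ((key x).trans (key y).symm)

/-- the presentation complex -/
def Kc (n J : ℕ) (c : ℕ → List (ℕ × Bool)) : ℕ × List (List ℕ) :=
  dall (fun j => vl 1 (c j)) (3 ^ n * 1, mcyl P0 1 n) J

/-- the final complex -/
def Yc (n J : ℕ) (c : ℕ → List (ℕ × Bool)) (k : ℕ) (g : ℕ → ℕ) : ℕ × List (List ℕ) :=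
  dall (fun s => clp (Kc n J c).1 s ++ ltr 1 (g s, false))
    (3 ^ k * (Kc n J c).1, mcyl (Kc n J c).2 (Kc n J c).1 k) k

theorem Yc_contractible {n J : ℕ} {c : ℕ → List (ℕ × Bool)} {k : ℕ} {g : ℕ → ℕ}
    (hidx : ∀ j < J, ∀ l ∈ c j, l.1 < n) (hne : ∀ j < J, c j ≠ []) (hE : Solv J c)
    (hP : Perf n J c) (hg : ∀ s < k, g s < n)
    (hQ : ∀ (Q : Type) [Group Q] (q : ℕ → Q), (∀ j < J, wv q (c j) = 1) →
      (∀ s < k, ∀ i < n, q (g s) * q i = q i * q (g s)) → ∀ i < n, q i = 1) :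
    ContractibleSpace (Re (Yc n J c k g).2) := by
  obtain ⟨ℓ, h1, hℓ⟩ := cprop_mcyl (B := P0) (N := 1) one_pos P0_bdd P0_00
    (GoodBase.of_subsingleton _) n
  have hΓ00 : adj (mcyl P0 1 n) 0 0 := P0_00.mono (mcyl_mem P0 1 n)
  have hΓb : bdd (3 ^ n * 1) (mcyl P0 1 n) := mcyl_bdd P0_bdd n
  have hn0 : 0 < 3 ^ n * 1 := by positivity
  have hK := DE_dall (vss := fun j => vl 1 (c j)) hn0 hΓb hΓ00 (fun j => ew ℓ (c j)) (J := J)
    (fun j hj => ⟨vl_proper one_pos (hidx j hj), vl_ne (hne j hj),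
      ew_ep ℓ hℓ (c j) (hidx j hj)⟩)
  have hKmem : ∀ s ∈ mcyl P0 1 n, s ∈ (Kc n J c).2 :=
    dall_mem (fun j => vl 1 (c j)) (3 ^ n * 1, mcyl P0 1 n) J
  have h2 : DE (x0 := inc (Re_mono (mcyl_mem P0 1 n)) (pt P0 0 P0_00)) (inc (Re_mono hKmem)) J
    (fun j => ew ℓ (c j)) := hK.1
  have hrel : ∀ j < J, ((ew ℓ (c j)).map (inc (Re_mono hKmem)).continuous).Homotopic
    (Path.refl _) := hK.2
  have hKb : bdd (Kc n J c).1 (Kc n J c).2 :=
    dall_bdd hn0 hΓb fun j hj => vl_proper one_pos (hidx j hj)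
  have hK00 : adj (Kc n J c).2 0 0 := hΓ00.mono hKmem
  have hNK : 3 ^ n * 1 ≤ (Kc n J c).1 := dall_le (fun j => vl 1 (c j)) (3 ^ n * 1, mcyl P0 1 n) J
  have hNK0 : 0 < (Kc n J c).1 := hn0.trans_le hNK
  have hgood' : GoodBase (Re (Kc n J c).2) (pt (Kc n J c).2 0 hK00) := by
    intro T _ t0 W γ
    exact GoodBase.of_lemO h1 h2 hidx hE hP hrel t0 W γ
  obtain ⟨tt, h3, htt⟩ := cprop_mcyl (B := (Kc n J c).2) (N := (Kc n J c).1) hNK0 hKb hK00 hgood' k
  have hZ00 : adj (mcyl (Kc n J c).2 (Kc n J c).1 k) 0 0 := hK00.mono (mcyl_mem _ _ k)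
  have hZb : bdd (3 ^ k * (Kc n J c).1) (mcyl (Kc n J c).2 (Kc n J c).1 k) := mcyl_bdd hKb k
  have hk0 : 0 < 3 ^ k * (Kc n J c).1 := by positivity
  have hsub : ∀ s ∈ mcyl P0 1 n, s ∈ mcyl (Kc n J c).2 (Kc n J c).1 k :=
    fun s hs => mcyl_mem _ _ k s (hKmem s hs)
  have h4 := DE_dall (vss := fun s => clp (Kc n J c).1 s ++ ltr 1 (g s, false)) hk0 hZb hZ00
    (fun s => (tt s).trans (((ℓ (g s)).map (inc (Re_mono hKmem)).continuous).map
      (inc (Re_mono (mcyl_mem (Kc n J c).2 (Kc n J c).1 k))).continuous).symm) (J := k) ?_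
  · obtain ⟨h4, hrel'⟩ := h4
    obtain ⟨nh⟩ := topMain h1 h2 hidx hE hrel h3 hg h4 hrel' hQ
    exact nh.contractible
  · intro s hs
    refine ⟨?_, ?_, ?_⟩
    · have a1 : 3 ^ (s + 1) ≤ 3 ^ k := Nat.pow_le_pow_right (by norm_num) hs
      have a2 : 0 < 3 ^ s * (Kc n J c).1 := by positivity
      have a3 : 3 ^ (s + 1) * (Kc n J c).1 ≤ 3 ^ k * (Kc n J c).1 := Nat.mul_le_mul_right _ a1
      have a4 : 3 ^ (s + 1) * (Kc n J c).1 = 3 ^ s * (Kc n J c).1 + 3 ^ s * (Kc n J c).1 +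
        3 ^ s * (Kc n J c).1 := by ring
      have b1 : 3 ^ (g s + 1) ≤ 3 ^ n := Nat.pow_le_pow_right (by norm_num) (hg s hs)
      have b2 : 0 < 3 ^ (g s) * 1 := by positivity
      have b4 : 3 ^ (g s + 1) = 3 ^ (g s) * 1 + 3 ^ (g s) * 1 + 3 ^ (g s) * 1 := by ring
      have b5 : (Kc n J c).1 ≤ 3 ^ k * (Kc n J c).1 := Nat.le_mul_of_pos_left _ (by positivity)
      show proper (3 ^ k * (Kc n J c).1) 0 ([3 ^ s * (Kc n J c).1,
        3 ^ s * (Kc n J c).1 + 3 ^ s * (Kc n J c).1, 0] ++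
        [3 ^ (g s) * 1 + 3 ^ (g s) * 1, 3 ^ (g s) * 1, 0])
      refine ⟨by omega, by omega, by omega, by omega, by omega, by omega,
        by omega, by omega, by omega, by omega, by omega, by omega, trivial⟩
    · simp [clp]
    · obtain ⟨u1, u2⟩ := htt s hs
      obtain ⟨v1, v2⟩ := hℓ (g s) (hg s hs)
      have e1 := ep_map hsub v1
      rw [← v2] at e1
      have v3 : chain (mcyl (Kc n J c).2 (Kc n J c).1 k) 0
        [3 ^ (g s) * 1, 3 ^ (g s) * 1 + 3 ^ (g s) * 1, 0] 0 := v1.mono hsub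
      have e2 := ep_rev3 v3 (chain_rev3 v3)
      refine ⟨u1.append (chain_rev3 v3), ?_⟩
      have e3 := ep_append u1 (chain_rev3 v3)
      rw [← e2, ← u2] at e3
      refine Eq.trans ?_ e3.symm
      have e4 : ep (mcyl (Kc n J c).2 (Kc n J c).1 k) 0
        [3 ^ (g s) * 1, 3 ^ (g s) * 1 + 3 ^ (g s) * 1, 0] 0 v3 =
        (Path.Homotopic.Quotient.mk (ℓ (g s))).map (inc (Re_mono hsub)) := e1.symm
      rw [e4]
      rfl

end Pool.Agent.W995.CC
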