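import Pool.Agent.W995.CC.DiscS

/-!
Iterated cylinders and discs.
-/

set_option autoImplicit false

noncomputable section

namespace Pool.Agent.W995.CC

open unitInterval

/-- `k` cylinders over `B` -/
def mcyl (B : List (List ℕ)) (N : ℕ) : ℕ → List (List ℕ)
  | 0 => B
  | k + 1 => cyl (3 ^ k * N) B ++ mcyl B N k

theorem mcyl_step (B : List (List ℕ)) (N k : ℕ) : ∀ s ∈ mcyl B N k, s ∈ mcyl B N (k + 1) :=
  fun _ hs => List.mem_append_right _ hs

theorem mcyl_mem (B : List (List ℕ)) (N : ℕ) : ∀ k, ∀ s ∈ B, s ∈ mcyl B N k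
  | 0 => fun _ hs => hs
  | k + 1 => fun s hs => mcyl_step B N k s (mcyl_mem B N k s hs)

theorem mcyl_bdd {B : List (List ℕ)} {N : ℕ} (hB : bdd N B) : ∀ k, bdd (3 ^ k * N) (mcyl B N k)
  | 0 => by simpa [mcyl] using hB
  | k + 1 => by
    intro s hs
    have e : 3 ^ (k + 1) * N = 3 ^ k * N + 3 ^ k * N + 3 ^ k * N := by ring
    have h1 : N ≤ 3 ^ k * N := Nat.le_mul_of_pos_left _ (by positivity)
    rcases List.mem_append.1 hs with hs | hs
    · rw [e]
      exact (hB.mono h1).cyl s hs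
    · exact (mcyl_bdd hB k).mono (by rw [e]; omega) s hs

/-- the loop of the `s`-th cylinder -/
def clp (N s : ℕ) : List ℕ := [3 ^ s * N, 3 ^ s * N + 3 ^ s * N, 0]

theorem cprop_mcyl {B : List (List ℕ)} {N : ℕ} (hN : 0 < N) (hB : bdd N B) (h00 : adj B 0 0)
    (hg : GoodBase (Re B) (pt B 0 h00)) (k : ℕ) :
    ∃ tt : ℕ → Path (inc (Re_mono (mcyl_mem B N k)) (pt B 0 h00))
      (inc (Re_mono (mcyl_mem B N k)) (pt B 0 h00)),
      CProp (inc (Re_mono (mcyl_mem B N k))) (pt B 0 h00) k tt ∧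
      ∀ s < k, ∃ h : chain (mcyl B N k) 0 (clp N s) 0,
        Path.Homotopic.Quotient.mk (tt s) = ep (mcyl B N k) 0 (clp N s) 0 h := by
  induction k with
  | zero =>
    refine ⟨fun _ => Path.refl _, ?_, fun s hs => absurd hs (Nat.not_lt_zero s)⟩
    exact CProp.nil (pt B 0 h00) (fun _ => Path.refl _)
  | succ k ih =>
    obtain ⟨tt, h1, h2⟩ := ih
    have hNk : 0 < 3 ^ k * N := by positivity
    have hBk : bdd (3 ^ k * N) B := hB.mono (Nat.le_mul_of_pos_left _ (by positivity))
    let S := cylS hNk (mcyl_bdd hB k) hBk (Re_mono (mcyl_mem B N k))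
    have h3 := h1.step hg S
    refine ⟨_, h3, fun s hs => ?_⟩
    by_cases hsk : s < k
    · simp only [if_pos hsk]
      obtain ⟨h, e⟩ := h2 s hsk
      refine ⟨h.mono (mcyl_step B N k), ?_⟩
      have e2 := ep_map (mcyl_step B N k) h
      rw [← e] at e2
      exact e2
    · have hk : s = k := by omega
      subst hk
      simp only [if_neg hsk]
      exact ⟨chain_cyl hNk h00, lp_eq hNk (mcyl_bdd hB s) hBk (Re_mono (mcyl_mem B N s)) h00 _⟩

/-- attaching discs along the edge paths `vss 0, ..., vss (J - 1)` -/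
def dall (vss : ℕ → List ℕ) (p : ℕ × List (List ℕ)) : ℕ → ℕ × List (List ℕ)
  | 0 => p
  | J + 1 => ((dall vss p J).1 + 2 + (vss J).length,
      disc (dall vss p J).1 (vss J) (dall vss p J).2)

theorem dall_mem (vss : ℕ → List ℕ) (p : ℕ × List (List ℕ)) (J : ℕ) :
    ∀ s ∈ p.2, s ∈ (dall vss p J).2 := by
  induction J with
  | zero => exact fun _ hs => hs
  | succ J ih => exact fun s hs => disc_mem s (ih s hs)

theorem dall_le (vss : ℕ → List ℕ) (p : ℕ × List (List ℕ)) (J : ℕ) :
    p.1 ≤ (dall vss p J).1 := by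
  induction J with
  | zero => exact le_rfl
  | succ J ih =>
    show p.1 ≤ (dall vss p J).1 + 2 + (vss J).length
    omega

theorem dall_bdd {vss : ℕ → List ℕ} {N : ℕ} {L : List (List ℕ)} (hN : 0 < N) (hL : bdd N L)
    {J : ℕ} (hp : ∀ j < J, proper N 0 (vss j)) :
    bdd (dall vss (N, L) J).1 (dall vss (N, L) J).2 := by
  induction J with
  | zero => exact hL
  | succ J ih =>
    have hle : N ≤ (dall vss (N, L) J).1 := dall_le vss (N, L) J
    exact disc_bdd (hN.trans_le hle)
      (ih fun j hj => hp j (by omega)) ((hp J (by omega)).mono hle)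

theorem DE_dall {vss : ℕ → List ℕ} {N : ℕ} {L : List (List ℕ)} (hN : 0 < N) (hL : bdd N L)
    (h00 : adj L 0 0) (ps : ℕ → Path (pt L 0 h00) (pt L 0 h00)) {J : ℕ}
    (hp : ∀ j < J, proper N 0 (vss j) ∧ vss j ≠ [] ∧ ∃ h : chain L 0 (vss j) 0,
      Path.Homotopic.Quotient.mk (ps j) = ep L 0 (vss j) 0 h) :
    DE (inc (Re_mono (dall_mem vss (N, L) J))) J ps ∧
      ∀ j < J, ((ps j).map (inc (Re_mono (dall_mem vss (N, L) J))).continuous).Homotopic
        (Path.refl _) := by
  induction J with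
  | zero => exact ⟨DE.nil ps, fun j hj => absurd hj (Nat.not_lt_zero j)⟩
  | succ J ih =>
    obtain ⟨i1, i2⟩ := ih fun j hj => hp j (by omega)
    have hle : N ≤ (dall vss (N, L) J).1 := dall_le vss (N, L) J
    obtain ⟨h1, h2, h3, h4⟩ := hp J (by omega)
    have hm := dall_mem vss (N, L) J
    have e := ep_map hm h3
    rw [← h4] at e
    obtain ⟨D⟩ := disc_exists (hN.trans_le hle) (dall_bdd hN hL fun j hj => (hp j (by omega)).1)
      (h3.mono hm) h2 (h1.mono hle)
      ((ps J).map (inc (Re_mono hm)).continuous) e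
    refine ⟨i1.step D, fun j hj => ?_⟩
    by_cases hj' : j < J
    · have := (i2 j hj').map (inc (Re_mono (disc_mem (N := (dall vss (N, L) J).1) (vs := vss J)
        (L := (dall vss (N, L) J).2))))
      exact this
    · have hj2 : j = J := by omega
      subst hj2
      exact D.contr

end Pool.Agent.W995.CC
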