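import Pool.Agent.W995.CC.DE

/-!
Attaching several cylinders with the same base.
-/

set_option autoImplicit false

noncomputable section

namespace Pool.Agent.W995.CC

open unitInterval

variable {B X X' T : Type} [TopologicalSpace B] [TopologicalSpace X]
  [TopologicalSpace X'] [TopologicalSpace T]

/-- maps from `B` to a loop space which send the base point to a contractible loop are
null-homotopic -/
def GoodBase (B : Type) [TopologicalSpace B] (b0 : B) : Prop :=
  ∀ {T : Type} [TopologicalSpace T] (t0 : T) (W : C(B, Path t0 t0))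
    (_ : Path (W b0) (Path.refl t0)),
    ∃ G : C(I × B, Path t0 t0), (∀ b, G (0, b) = W b) ∧ ∀ b, G (1, b) = Path.refl t0

theorem GoodBase.of_subsingleton [Subsingleton B] (b0 : B) : GoodBase B b0 := by
  intro T _ t0 W γ
  refine ⟨⟨fun p => γ p.1, by fun_prop⟩, fun b => ?_, fun b => ?_⟩
  · show γ 0 = W b
    rw [γ.source, Subsingleton.elim b b0]
  · exact γ.target

/-- `X` is obtained from `B` by attaching `k` cylinders over `B`, the loops `tt s` being the
cylinders over the base point -/
structure CProp (κ : C(B, X)) (b0 : B) (k : ℕ) (tt : ℕ → Path (κ b0) (κ b0)) : Prop where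
  CA : ∀ {T : Type} [TopologicalSpace T] (f : X → T) (hf : Continuous f),
    (∀ s < k, ((tt s).map hf).Homotopic (Path.refl _)) →
    ∀ n : NH (fun b => f (κ b)) b0 (f (κ b0)),
    ∃ n' : NH f (κ b0) (f (κ b0)), ∀ b t, n'.N (κ b) t = n.N b t
  CB : ∀ {T : Type} [TopologicalSpace T] (t0 : T) (β : ℕ → Path (Path.refl t0) (Path.refl t0)),
    ∃ b : C(X, Path t0 t0), (∀ y, b (κ y) = Path.refl t0) ∧
      ∀ s < k, ∀ t u, b (tt s u) t = β s t u
  comm : ∀ s < k, ∀ φ : Path b0 b0, ((tt s).trans (φ.map κ.continuous)).Homotopic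
    ((φ.map κ.continuous).trans (tt s))

theorem CProp.nil (b0 : B) (tt : ℕ → Path b0 b0) : CProp (ContinuousMap.id B) b0 0 tt where
  CA _ _ _ n := ⟨n, fun _ _ => rfl⟩
  CB t0 _ := ⟨ContinuousMap.const _ (Path.refl t0), fun _ => rfl,
    fun s hs => absurd hs (Nat.not_lt_zero s)⟩
  comm s hs := absurd hs (Nat.not_lt_zero s)

/-- the transpose of a loop in the loop space -/
def tr {t0 : T} (β : Path (Path.refl t0) (Path.refl t0)) : C(I, Path t0 t0) where
  toFun τ := ⟨⟨fun t => β t τ, by
    have h : Continuous fun p : Path t0 t0 × I => p.1 p.2 := by fun_prop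
    exact h.comp (β.continuous.prodMk continuous_const)⟩, by simp, by simp⟩
  continuous_toFun := by
    rw [← Path.continuous_uncurry_iff]
    have h : Continuous fun p : Path t0 t0 × I => p.1 p.2 := by fun_prop
    exact h.comp ((β.continuous.comp continuous_snd).prodMk continuous_fst)

theorem CProp.step {κ : C(B, X)} {b0 : B} {k : ℕ} {tt : ℕ → Path (κ b0) (κ b0)}
    (h : CProp κ b0 k tt) (hB : GoodBase B b0) {i : C(X, X')} (S : Cyl κ i) :
    CProp (i.comp κ) b0 (k + 1)
      (fun s => if s < k then (tt s).map i.continuous else S.lp b0) where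
  CA f hf hc n := by
    have hfi : Continuous fun x => f (i x) := hf.comp i.continuous
    obtain ⟨n1, hn1⟩ := h.CA (fun x => f (i x)) hfi (fun s hs => by
      have := hc s (by omega)
      simp only [if_pos hs] at this
      exact this) n
    have hk : ((S.lp b0).map hf).Homotopic (Path.refl _) := by
      have := hc k (by omega)
      simp only [if_neg (lt_irrefl k)] at this
      exact this
    have hW : (S.W hf n1 b0).Homotopic (Path.refl _) := by
      have e1 : n1.N (κ b0) = Path.refl _ := by
        ext t
        exact n1.base t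
      show (((n1.N (κ b0)).symm).trans (((S.lp b0).map hf).trans (n1.N (κ b0)))).Homotopic _
      rw [e1, Path.refl_symm]
      exact (Path.Homotopic.refl_trans _).trans ((Path.Homotopic.trans_refl _).trans hk)
    obtain ⟨H⟩ := hW
    obtain ⟨G, G0, G1⟩ := hB _ (S.W hf n1) (toPP H)
    obtain ⟨n2, hn2⟩ := S.extend hf n1 G G0 G1
    exact ⟨n2, fun b t => (hn2 (κ b) t).trans (hn1 b t)⟩
  CB t0 β := by
    obtain ⟨b, hb1, hb2⟩ := h.CB t0 β
    obtain ⟨b', hb'1, hb'2⟩ := S.ext b ((tr (β k)).comp ⟨fun p : B × I => p.2, by fun_prop⟩)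
      (fun y => by
        rw [hb1]
        ext t
        show β k t 0 = t0
        simp)
      (fun y => by
        rw [hb1]
        ext t
        show β k t 1 = t0
        simp)
    refine ⟨b', fun y => ?_, fun s hs t u => ?_⟩
    · show b' (i (κ y)) = _
      rw [hb'1, hb1]
    · by_cases hsk : s < k
      · simp only [if_pos hsk]
        show b' (i (tt s u)) t = _
        rw [hb'1]
        exact hb2 s hsk t u
      · simp only [if_neg hsk]
        show b' (S.can (b0, u)) t = _
        rw [hb'2, show s = k by omega]
        rfl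
  comm s hs φ := by
    by_cases hsk : s < k
    · simp only [if_pos hsk]
      have h1 := (h.comm s hsk φ).map i
      rw [Path.map_trans, Path.map_trans] at h1
      exact h1
    · simp only [if_neg hsk]
      exact (square (Z := X') ⟨fun p : I × I => S.can (φ p.1, p.2), by fun_prop⟩
        (φ.map (i.comp κ).continuous) (S.lp b0) (S.lp b0) (φ.map (i.comp κ).continuous)
        (fun t => S.h0 _) (fun t => by simp [Cyl.lp]) (fun t => by simp [Cyl.lp])
        (fun t => S.h1 _)).symm

end Pool.Agent.W995.CC
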