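import Pool.Agent.W995.CC.TriT

/-!
Attaching a disc along an edge path.
-/

set_option autoImplicit false

noncomputable section

namespace Pool.Agent.W995.CC

open unitInterval

/-- a collar along an edge path: `w, w + 1, ...` is the parallel path, coned to `z` -/
def collar (z : ℕ) : ℕ → ℕ → List ℕ → List (List ℕ) → List (List ℕ)
  | _, _, [], L => L
  | v, w, v' :: vs, L =>
    collar z v' (w + 1) vs ([z, w, w + 1] :: [v, v', w + 1] :: [v, w, w + 1] :: L)

/-- all steps of an edge path are proper and it stays below `N` -/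
def proper (N : ℕ) : ℕ → List ℕ → Prop
  | _, [] => True
  | v, v' :: vs => v ≠ v' ∧ v' < N ∧ proper N v' vs

theorem proper.mono {N M : ℕ} (h : N ≤ M) {v : ℕ} {vs : List ℕ} (hp : proper N v vs) :
    proper M v vs := by
  induction vs generalizing v with
  | nil => trivial
  | cons v' vs ih => exact ⟨hp.1, hp.2.1.trans_le h, ih hp.2.2⟩

theorem adj_cons {L : List (List ℕ)} {s : List ℕ} {a b : ℕ} :
    adj (s :: L) a b ↔ (a ∈ s ∧ b ∈ s) ∨ adj L a b := by
  unfold adj
  simp

theorem adj3_cons {L : List (List ℕ)} {s : List ℕ} {a b c : ℕ} :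
    adj3 (s :: L) a b c ↔ (a ∈ s ∧ b ∈ s ∧ c ∈ s) ∨ adj3 L a b c := by
  unfold adj3
  simp

theorem bdd.not_adj {N : ℕ} {L : List (List ℕ)} (h : bdd N L) {a b : ℕ} (hb : N ≤ b) :
    ¬ adj L a b := by
  rintro ⟨s, hs, -, hb'⟩
  have := h s hs b hb'
  omega

theorem bdd_cons {N : ℕ} {L : List (List ℕ)} {s : List ℕ} :
    bdd N (s :: L) ↔ (∀ v ∈ s, v < N) ∧ bdd N L := by
  unfold bdd
  simp

theorem bdd.mono {N M : ℕ} (h : N ≤ M) {L : List (List ℕ)} (hL : bdd N L) : bdd M L :=
  fun s hs v hv => (hL s hs v hv).trans_le h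

theorem col_step {z v w v' : ℕ} {L : List (List ℕ)} (hzw : z < w) (hvz : v < z) (hv'z : v' < z)
    (hvv : v ≠ v') (h1 : adj L z w) (h2 : adj L v w) (h3 : adj L v v') (hb : bdd (w + 1) L) :
    SD (Re L) (Re ([z, w, w + 1] :: [v, v', w + 1] :: [v, w, w + 1] :: L)) := by
  have s1 : SD (Re L) (Re ([v, w, w + 1] :: L)) :=
    SD_new (by omega) (by omega) (by omega) h2 (hb.not_adj le_rfl)
  have s2 : SD (Re ([v, w, w + 1] :: L)) (Re ([v, v', w + 1] :: [v, w, w + 1] :: L)) := by
    have hn : ¬ adj ([v, w, w + 1] :: L) v' (w + 1) := by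
      rw [adj_cons]
      rintro (⟨h, -⟩ | h)
      · simp at h
        omega
      · exact hb.not_adj le_rfl h
    have := SD_horn (L := [v, w, w + 1] :: L) (a := v') (b := v) (c := w + 1) hvv.symm (by omega)
      (by omega) (h3.symm.mono fun s hs => List.mem_cons_of_mem _ hs)
      ⟨_, List.mem_cons_self, by simp, by simp⟩ hn
    have e : Re ([v', v, w + 1] :: [v, w, w + 1] :: L) =
        Re ([v, v', w + 1] :: [v, w, w + 1] :: L) := by
      rw [Re_cons, Re_cons _ ([v, w, w + 1] :: L)]
      congr 1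
      refine Set.Subset.antisymm (Sx_mono ?_) (Sx_mono ?_)
      · intro x hx; simp at hx ⊢; tauto
      · intro x hx; simp at hx ⊢; tauto
    rw [← e]
    exact this
  have s3 : SD (Re ([v, v', w + 1] :: [v, w, w + 1] :: L))
      (Re ([z, w, w + 1] :: [v, v', w + 1] :: [v, w, w + 1] :: L)) := by
    have hn : ¬ adj ([v, v', w + 1] :: [v, w, w + 1] :: L) z (w + 1) := by
      rw [adj_cons, adj_cons]
      rintro (⟨h, -⟩ | ⟨h, -⟩ | h)
      · simp at h
        omega
      · simp at h
        omega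
      · exact hb.not_adj le_rfl h
    refine SD_horn (by omega) (by omega) (by omega)
      (h1.mono fun s hs => List.mem_cons_of_mem _ (List.mem_cons_of_mem _ hs))
      ⟨[v, w, w + 1], by simp, by simp, by simp⟩ hn
  exact s1.trans (s2.trans s3)

theorem col_eq {z v w v' : ℕ} {L : List (List ℕ)} (t1 : adj3 L z w (w + 1))
    (t2 : adj3 L w (w + 1) v) (t3 : adj3 L (w + 1) v v') :
    (sq L z w t1.ab).trans ((sq L w v t2.ac).trans (sq L v v' t3.bc)) =
      (sq L z (w + 1) t1.ac).trans (sq L (w + 1) v' t3.ac) := by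
  rw [← sq_tri t1, ← sq_tri t2, ← sq_tri t3, Path.Homotopic.Quotient.trans_assoc,
    Path.Homotopic.Quotient.trans_assoc]

/-- the result of the collar -/
theorem collar_spec {z : ℕ} (vs : List ℕ) {v w : ℕ} {L : List (List ℕ)} (hzw : z < w)
    (hvz : v < z) (hp : proper z v vs) (h1 : adj L z w) (h2 : adj L v w) (hb : bdd (w + 1) L)
    (hc : chain L v vs 0) :
    SD (Re L) (Re (collar z v w vs L)) ∧ (∀ s ∈ L, s ∈ collar z v w vs L) ∧
      bdd (w + 1 + vs.length) (collar z v w vs L) ∧
      (vs ≠ [] → ¬ adj3 (collar z v w vs L) 0 z (w + vs.length)) ∧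
      ∀ h1' : adj (collar z v w vs L) z w, ∀ h2' : adj (collar z v w vs L) w v,
      ∀ h3' : chain (collar z v w vs L) v vs 0, 
      ∃ h4 : adj (collar z v w vs L) z (w + vs.length),
      ∃ h5 : adj (collar z v w vs L) (w + vs.length) 0,
        (sq _ z w h1').trans ((sq _ w v h2').trans (ep _ v vs 0 h3')) =
          (sq _ z (w + vs.length) h4).trans (sq _ (w + vs.length) 0 h5) := by
  induction vs generalizing v w L with
  | nil =>
    obtain ⟨rfl, hv⟩ := hc
    refine ⟨SD.refl _, fun s hs => hs, hb, fun h => absurd rfl h, fun h1' h2' h3' =>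
      ⟨h1', h2', ?_⟩⟩
    have e : (sq L w 0 h2').trans (.refl (pt _ 0 h3'.2)) =
      sq L w 0 h2' := Path.Homotopic.Quotient.trans_refl _
    exact congrArg (fun q => (sq _ z w h1').trans q) e
  | cons v' vs ih =>
    obtain ⟨hvv, hv'z, hp'⟩ := hp
    have hcol := col_step hzw hvz hv'z hvv h1 h2 hc.1 hb
    set L' := [z, w, w + 1] :: [v, v', w + 1] :: [v, w, w + 1] :: L with hL'
    have hsub : ∀ s ∈ L, s ∈ L' := fun s hs => by rw [hL']; simp [hs]
    have m1 : [z, w, w + 1] ∈ L' := by rw [hL']; simp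
    have m2 : [v, v', w + 1] ∈ L' := by rw [hL']; simp
    have m3 : [v, w, w + 1] ∈ L' := by rw [hL']; simp
    have hb' : bdd (w + 1 + 1) L' := by
      rw [hL', bdd_cons, bdd_cons, bdd_cons]
      refine ⟨?_, ?_, ?_, hb.mono (by omega)⟩
      · intro x hx; simp at hx; omega
      · intro x hx; simp at hx; omega
      · intro x hx; simp at hx; omega
    obtain ⟨i1, i2, i3, i4, i5⟩ := ih (v := v') (w := w + 1) (L := L') (by omega) hv'z hp'
      ⟨_, m1, by simp, by simp⟩ ⟨_, m2, by simp, by simp⟩ hb' (hc.2.mono hsub)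
    show SD (Re L) (Re (collar z v' (w + 1) vs L')) ∧ (∀ s ∈ L, s ∈ collar z v' (w + 1) vs L') ∧
      bdd (w + 1 + (vs.length + 1)) (collar z v' (w + 1) vs L') ∧
      ((v' :: vs) ≠ [] → ¬ adj3 (collar z v' (w + 1) vs L') 0 z (w + (vs.length + 1))) ∧ _
    have e1 : w + 1 + (vs.length + 1) = w + 1 + 1 + vs.length := by omega
    have e2 : w + (vs.length + 1) = w + 1 + vs.length := by omega
    refine ⟨hcol.trans i1, fun s hs => i2 s (hsub s hs), by rw [e1]; exact i3, fun _ => ?_, ?_⟩
    · rw [e2]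
      by_cases hvs : vs = []
      · subst hvs
        show ¬ adj3 L' 0 z (w + 1 + 0)
        rw [hL', adj3_cons, adj3_cons, adj3_cons]
        rintro (⟨h, -, -⟩ | ⟨-, h, -⟩ | ⟨-, h, -⟩ | h)
        · simp at h
          omega
        · simp at h
          omega
        · simp at h
          omega
        · exact hb.not_adj le_rfl h.ac
      · exact i4 hvs
    · show ∀ h1' : adj (collar z v' (w + 1) vs L') z w,
        ∀ h2' : adj (collar z v' (w + 1) vs L') w v,
        ∀ h3' : chain (collar z v' (w + 1) vs L') v (v' :: vs) 0,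
        ∃ h4 : adj (collar z v' (w + 1) vs L') z (w + (v' :: vs).length),
        ∃ h5 : adj (collar z v' (w + 1) vs L') (w + (v' :: vs).length) 0, 
        (sq (collar z v' (w + 1) vs L') z w h1').trans ((sq _ w v h2').trans
          ((sq _ v v' h3'.1).trans (ep _ v' vs 0 h3'.2))) =
          (sq _ z (w + (v' :: vs).length) h4).trans (sq _ (w + (v' :: vs).length) 0 h5)
      intro h1' h2' h3'
      have t1 : adj3 (collar z v' (w + 1) vs L') z w (w + 1) :=
        ⟨_, i2 _ m1, by simp, by simp, by simp⟩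
      have t2 : adj3 (collar z v' (w + 1) vs L') w (w + 1) v :=
        ⟨_, i2 _ m3, by simp, by simp, by simp⟩
      have t3 : adj3 (collar z v' (w + 1) vs L') (w + 1) v v' :=
        ⟨_, i2 _ m2, by simp, by simp, by simp⟩
      obtain ⟨h4, h5, h6⟩ := i5 t1.ac t3.ac h3'.2
      have key : (sq (collar z v' (w + 1) vs L') z w h1').trans ((sq _ w v h2').trans
          ((sq _ v v' h3'.1).trans (ep _ v' vs 0 h3'.2))) =
          (sq _ z (w + 1 + vs.length) h4).trans (sq _ (w + 1 + vs.length) 0 h5) := by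
        rw [← h6, ← Path.Homotopic.Quotient.trans_assoc, ← Path.Homotopic.Quotient.trans_assoc,
          Path.Homotopic.Quotient.trans_assoc (sq _ z w h1'), col_eq t1 t2 t3,
          Path.Homotopic.Quotient.trans_assoc]
      have hlen : w + (v' :: vs).length = w + 1 + vs.length := by
        rw [List.length_cons]; omega
      rw [hlen]
      exact ⟨h4, h5, key⟩

end Pool.Agent.W995.CC
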