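import Pool.Agent.W995.CC.GT4

/-!
The complex depends computably on the word.
-/

set_option autoImplicit false

noncomputable section

namespace Pool.Agent.W995.CC

variable {α : Type} [Primcodable α]

theorem pr_pow : Primrec₂ ((· ^ ·) : ℕ → ℕ → ℕ) := Primrec₂.unpaired'.1 Nat.Primrec.pow

theorem pr_bs {N k : α → ℕ} (hN : Primrec N) (hk : Primrec k) : Primrec fun a => bs (N a) (k a) := by
  unfold bs
  exact Primrec.ite (Primrec.eq.comp hk (Primrec.const 1)) hN
    (Primrec.ite (Primrec.eq.comp hk (Primrec.const 2)) (Primrec.nat_add.comp hN hN)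
      (Primrec.const 0))

theorem pr_filter_le {s : α → List ℕ} {c : α → ℕ} (hs : Primrec s) (hc : Primrec c) :
    Primrec fun a => (s a).filter fun u => decide (u ≤ c a) := by
  have h : PrimrecRel fun u c : ℕ => u ≤ c := Primrec.nat_le
  have := (PrimrecRel.listFilter h).comp hs hc
  exact this

theorem pr_filter_ge {s : α → List ℕ} {c : α → ℕ} (hs : Primrec s) (hc : Primrec c) :
    Primrec fun a => (s a).filter fun u => decide (c a ≤ u) := by
  have h : PrimrecRel fun u c : ℕ => c ≤ u := Primrec.nat_le.swap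
  have := (PrimrecRel.listFilter h).comp hs hc
  exact this

theorem pr_stair {N k c : α → ℕ} {s : α → List ℕ} (hN : Primrec N) (hk : Primrec k)
    (hc : Primrec c) (hs : Primrec s) : Primrec fun a => stair (N a) (k a) (c a) (s a) := by
  unfold stair
  refine Primrec.list_append.comp ?_ ?_
  · refine Primrec.list_map (pr_filter_le hs hc) ?_
    exact Primrec.nat_add.comp ((pr_bs hN hk).comp Primrec.fst) Primrec.snd
  · refine Primrec.list_map (pr_filter_ge hs hc) ?_
    exact Primrec.nat_add.comp ((pr_bs hN (Primrec.succ.comp hk)).comp Primrec.fst) Primrec.snd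

theorem pr_cyl {N : α → ℕ} {B : α → List (List ℕ)} (hN : Primrec N) (hB : Primrec B) :
    Primrec fun a => cyl (N a) (B a) := by
  unfold cyl
  refine Primrec.list_flatMap hB ?_
  refine Primrec.list_flatMap (Primrec.const _) ?_
  refine Primrec.list_map (Primrec.list_range.comp (hN.comp (Primrec.fst.comp Primrec.fst))) ?_
  exact pr_stair (hN.comp (Primrec.fst.comp (Primrec.fst.comp Primrec.fst)))
    (Primrec.snd.comp Primrec.fst) Primrec.snd
    (Primrec.snd.comp (Primrec.fst.comp Primrec.fst))

theorem pr_mcyl {N : α → ℕ} {B : α → List (List ℕ)} (hN : Primrec N) (hB : Primrec B) (k : ℕ) :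
    Primrec fun a => mcyl (B a) (N a) k := by
  induction k with
  | zero => exact hB
  | succ k ih =>
    exact Primrec.list_append.comp
      (pr_cyl (Primrec.nat_mul.comp (Primrec.const (3 ^ k)) hN) hB) ih

/-- one step of the collar -/
def colF (z : ℕ) (p : ℕ × ℕ × List (List ℕ)) (v' : ℕ) : ℕ × ℕ × List (List ℕ) :=
  (v', p.2.1 + 1, [z, p.2.1, p.2.1 + 1] :: [p.1, v', p.2.1 + 1] :: [p.1, p.2.1, p.2.1 + 1] ::
    p.2.2)

theorem collar_eq (z : ℕ) (vs : List ℕ) (v w : ℕ) (L : List (List ℕ)) :
    collar z v w vs L = (vs.foldl (colF z) (v, w, L)).2.2 := by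
  induction vs generalizing v w L with
  | nil => rfl
  | cons v' vs ih => exact ih v' (w + 1) _

theorem pr_cons {a : α → ℕ} {l : α → List ℕ} (ha : Primrec a) (hl : Primrec l) :
    Primrec fun x => a x :: l x := Primrec.list_cons.comp ha hl

theorem pr_cons' {a : α → List ℕ} {l : α → List (List ℕ)} (ha : Primrec a) (hl : Primrec l) :
    Primrec fun x => a x :: l x := Primrec.list_cons.comp ha hl

theorem pr_colF {z v' : α → ℕ} {p : α → ℕ × ℕ × List (List ℕ)} (hz : Primrec z) (hv : Primrec v')
    (hp : Primrec p) : Primrec fun a => colF (z a) (p a) (v' a) := by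
  unfold colF
  have h1 : Primrec fun a => (p a).1 := Primrec.fst.comp hp
  have h2 : Primrec fun a => (p a).2.1 := Primrec.fst.comp (Primrec.snd.comp hp)
  have h3 : Primrec fun a => (p a).2.2 := Primrec.snd.comp (Primrec.snd.comp hp)
  have h4 : Primrec fun a => (p a).2.1 + 1 := Primrec.succ.comp h2
  have h5 : Primrec fun _ : α => ([] : List ℕ) := Primrec.const []
  refine Primrec.pair hv (Primrec.pair h4 ?_)
  exact pr_cons' (pr_cons hz (pr_cons h2 (pr_cons h4 h5)))
    (pr_cons' (pr_cons h1 (pr_cons hv (pr_cons h4 h5)))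
    (pr_cons' (pr_cons h1 (pr_cons h2 (pr_cons h4 h5))) h3))

theorem pr_collar {z v w : α → ℕ} {vs : α → List ℕ} {L : α → List (List ℕ)} (hz : Primrec z)
    (hv : Primrec v) (hw : Primrec w) (hvs : Primrec vs) (hL : Primrec L) :
    Primrec fun a => collar (z a) (v a) (w a) (vs a) (L a) := by
  simp only [collar_eq]
  have h := Primrec.list_foldl hvs (Primrec.pair hv (Primrec.pair hw hL))
    (h := fun a (p : (ℕ × ℕ × List (List ℕ)) × ℕ) => colF (z a) p.1 p.2)
    (pr_colF (hz.comp Primrec.fst) (Primrec.snd.comp Primrec.snd) (Primrec.fst.comp Primrec.snd))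
  exact Primrec.snd.comp (Primrec.snd.comp h)

theorem pr_disc {N : α → ℕ} {vs : α → List ℕ} {L : α → List (List ℕ)} (hN : Primrec N)
    (hvs : Primrec vs) (hL : Primrec L) : Primrec fun a => disc (N a) (vs a) (L a) := by
  unfold disc
  have h0 : Primrec fun _ : α => (0 : ℕ) := Primrec.const 0
  have h5 : Primrec fun _ : α => ([] : List ℕ) := Primrec.const []
  have h1 : Primrec fun a => N a + 1 := Primrec.succ.comp hN
  refine pr_cons' (pr_cons h0 (pr_cons hN (pr_cons (Primrec.nat_add.comp h1
    (Primrec.list_length.comp hvs)) h5))) ?_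
  exact pr_collar hN h0 h1 hvs (pr_cons' (pr_cons h0 (pr_cons hN (pr_cons h1 h5)))
    (pr_cons' (pr_cons h0 (pr_cons hN h5)) hL))

theorem pr_dall {vss : α → ℕ → List ℕ} {p : α → ℕ × List (List ℕ)}
    (hv : ∀ j, Primrec fun a => vss a j) (hp : Primrec p) (J : ℕ) :
    Primrec fun a => dall (vss a) (p a) J := by
  induction J with
  | zero => exact hp
  | succ J ih =>
    have h1 : Primrec fun a => (dall (vss a) (p a) J).1 := Primrec.fst.comp ih
    have h2 : Primrec fun a => (dall (vss a) (p a) J).2 := Primrec.snd.comp ih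
    exact Primrec.pair (Primrec.nat_add.comp (Primrec.nat_add.comp h1 (Primrec.const 2))
      (Primrec.list_length.comp (hv J))) (pr_disc h1 (hv J) h2)

theorem pr_ltr : Primrec fun l : ℕ × Bool => ltr 1 l := by
  unfold ltr
  have h1 : Primrec fun l : ℕ × Bool => 3 ^ l.1 * 1 :=
    Primrec.nat_mul.comp (pr_pow.comp (Primrec.const 3) Primrec.fst) (Primrec.const 1)
  have h2 : Primrec fun l : ℕ × Bool => 3 ^ l.1 * 1 + 3 ^ l.1 * 1 := Primrec.nat_add.comp h1 h1
  have h3 : Primrec fun _ : ℕ × Bool => ([0] : List ℕ) := Primrec.const [0]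
  refine Primrec.ite ?_ (pr_cons h1 (pr_cons h2 h3)) (pr_cons h2 (pr_cons h1 h3))
  exact Primrec.eq.comp Primrec.snd (Primrec.const true)

theorem pr_vl {c : α → List (ℕ × Bool)} (hc : Primrec c) : Primrec fun a => vl 1 (c a) := by
  unfold vl
  exact Primrec.list_flatMap hc (pr_ltr.comp Primrec.snd)

theorem pr_iw {c : α → List (ℕ × Bool)} (hc : Primrec c) : Primrec fun a => iw (c a) := by
  unfold iw
  refine Primrec.list_reverse.comp (Primrec.list_map hc ?_)
  exact Primrec.pair (Primrec.fst.comp Primrec.snd)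
    (Primrec.not.comp (Primrec.snd.comp Primrec.snd))

theorem pr_uW (m : ℕ) {w : α → List (ℕ × Bool)} (hw : Primrec w) : Primrec fun a => uW m (w a) := by
  unfold uW
  refine Primrec.list_append.comp hw (Primrec.list_cons.comp (Primrec.const _)
    (Primrec.list_append.comp (pr_iw hw) (Primrec.const _)))

theorem pr_cW (m : ℕ) (rs : List (List (ℕ × Bool))) {w : α → List (ℕ × Bool)} (hw : Primrec w)
    (j : ℕ) : Primrec fun a => cW m rs (w a) j := by
  unfold cW
  split_ifs
  · unfold AW
    exact Primrec.list_append.comp (pr_uW m hw) (Primrec.list_cons.comp (Primrec.const _)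
      (Primrec.list_append.comp (pr_iw (pr_uW m hw)) (Primrec.const _)))
  · exact Primrec.const _
  · exact Primrec.const _

theorem pr_Ycx (m : ℕ) (rs : List (List (ℕ × Bool))) {w : α → List (ℕ × Bool)} (hw : Primrec w) :
    Primrec fun a => Ycx m rs (w a) := by
  unfold Ycx Yc
  have hK : Primrec fun a => Kc (2 * m + 4 + rs.length) (2 * m + 4 + rs.length)
      (cW m rs (w a)) := by
    unfold Kc
    exact pr_dall (fun j => pr_vl (pr_cW m rs hw j)) (Primrec.const _) _
  have h1 := Primrec.fst.comp hK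
  have h2 := Primrec.snd.comp hK
  refine Primrec.snd.comp (pr_dall (fun s => ?_) (Primrec.pair
    (Primrec.nat_mul.comp (Primrec.const _) h1) (pr_mcyl h1 h2 _)) _)
  refine Primrec.list_append.comp ?_ (Primrec.const _)
  have h3 : Primrec fun a => 3 ^ s * (Kc (2 * m + 4 + rs.length) (2 * m + 4 + rs.length)
      (cW m rs (w a))).1 := Primrec.nat_mul.comp (Primrec.const _) h1
  exact pr_cons h3 (pr_cons (Primrec.nat_add.comp h3 h3) (Primrec.const [0]))

theorem pr_tw (m : ℕ) : Primrec (tw : List (Fin m × Bool) → List (ℕ × Bool)) := by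
  unfold tw
  exact Primrec.list_map Primrec.id (Primrec.pair (Primrec.fin_val.comp
    (Primrec.fst.comp Primrec.snd)) (Primrec.snd.comp Primrec.snd))

/-- all sublists -/
def subs : List ℕ → List (List ℕ)
  | [] => [[]]
  | a :: l => subs l ++ (subs l).map (List.cons a)

theorem mem_subs {l t : List ℕ} : t ∈ subs l ↔ t.Sublist l := by
  induction l generalizing t with
  | nil => simp [subs]
  | cons a l ih =>
    rw [subs, List.mem_append, List.mem_map, ih, List.sublist_cons_iff]
    constructor
    · rintro (h | ⟨r, hr, rfl⟩)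
      · exact Or.inl h
      · exact Or.inr ⟨r, rfl, ih.1 hr⟩
    · rintro (h | ⟨r, rfl, hr⟩)
      · exact Or.inl h
      · exact Or.inr ⟨r, ih.2 hr, rfl⟩

theorem pr_subs : Primrec subs := by
  have e : subs = fun l : List ℕ => l.foldr (fun a r => r ++ r.map (List.cons a)) [[]] := by
    funext l
    induction l with
    | nil => rfl
    | cons a l ih => rw [subs, ih]; rfl
  rw [e]
  have h : Primrec₂ fun (_ : List ℕ) (p : ℕ × List (List ℕ)) => p.2 ++ p.2.map (List.cons p.1) := by
    refine Primrec.list_append.comp (Primrec.snd.comp Primrec.snd)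
      (Primrec.list_map (Primrec.snd.comp Primrec.snd) ?_)
    exact Primrec.list_cons.comp (Primrec.fst.comp (Primrec.snd.comp Primrec.fst)) Primrec.snd
  exact Primrec.list_foldr Primrec.id (Primrec.const _) h

/-- all the faces -/
def faces (L : List (List ℕ)) : List (List ℕ) :=
  (L.flatMap subs).filter fun t => decide (t ≠ [])

theorem pr_faces : Primrec faces := by
  unfold faces
  have h : PrimrecPred fun t : List ℕ => t ≠ [] := (Primrec.eq.comp Primrec.id (Primrec.const [])).not
  have h2 : Primrec₂ fun (_ : List (List ℕ)) (s : List ℕ) => subs s := pr_subs.comp Primrec.snd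
  have := (Primrec.listFilter h).comp
    (Primrec.list_flatMap (Primrec.id (α := List (List ℕ))) h2)
  exact this

theorem mem_faces {L : List (List ℕ)} {t : List ℕ} :
    t ∈ faces L ↔ t ≠ [] ∧ ∃ s ∈ L, t.Sublist s := by
  unfold faces
  rw [List.mem_filter, List.mem_flatMap]
  simp only [mem_subs, decide_eq_true_eq]
  tauto

theorem Re_faces (L : List (List ℕ)) : Re (faces L) = Re L := by
  ext x
  constructor
  · rintro ⟨t, ht, hx⟩
    obtain ⟨-, s, hs, hts⟩ := mem_faces.1 ht
    exact ⟨s, hs, Sx_mono (fun v hv => hts.subset hv) hx⟩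
  · rintro ⟨s, hs, hx⟩
    refine ⟨s, mem_faces.2 ⟨?_, s, hs, List.Sublist.refl s⟩, hx⟩
    rintro rfl
    have := hx.2.2
    simp at this

end Pool.Agent.W995.CC
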