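import Pool.Agent.W995.CC.Abs

/-!
Extension of null-homotopies over attached cylinders.
-/

set_option autoImplicit false

noncomputable section

namespace Pool.Agent.W995.CC

open unitInterval

variable {B X X' T : Type} [TopologicalSpace B] [TopologicalSpace X]
  [TopologicalSpace X'] [TopologicalSpace T]

/-- attaching the cylinder `B × I` at both ends along `j` -/
structure Cyl (j : C(B, X)) (i : C(X, X')) where
  can : C(B × I, X')
  h0 : ∀ b, can (b, 0) = i (j b)
  h1 : ∀ b, can (b, 1) = i (j b)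
  surj : ∀ y, (∃ x, i x = y) ∨ ∃ p, can p = y
  ext : ∀ {Z : Type} [TopologicalSpace Z] (g : C(X, Z)) (h : C(B × I, Z)),
    (∀ b, h (b, 0) = g (j b)) → (∀ b, h (b, 1) = g (j b)) →
    ∃ g' : C(X', Z), (∀ x, g' (i x) = g x) ∧ ∀ p, g' (can p) = h p

/-- the loop `can (b, ·)` -/
def Cyl.lp {j : C(B, X)} {i : C(X, X')} (S : Cyl j i) (b : B) : Path (i (j b)) (i (j b)) where
  toFun t := S.can (b, t)
  continuous_toFun := by fun_prop
  source' := S.h0 b
  target' := S.h1 b

/-- the obstruction loops -/
def Cyl.W {j : C(B, X)} {i : C(X, X')} (S : Cyl j i) {f : X' → T}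
    (hf : Continuous f) {x0 : X} {t0 : T} (n : NH (fun x => f (i x)) x0 t0) :
    C(B, Path t0 t0) where
  toFun b := ((n.N (j b)).symm).trans (((S.lp b).map hf).trans (n.N (j b)))
  continuous_toFun := by
    rw [← Path.continuous_uncurry_iff]
    have hN : Continuous fun p : B × I => n.N (j p.1) p.2 :=
      n.cont.comp ((j.continuous.comp continuous_fst).prodMk continuous_snd)
    refine Path.trans_continuous_family (fun b => (n.N (j b)).symm) ?_
      (fun b => ((S.lp b).map hf).trans (n.N (j b))) ?_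
    · exact Path.symm_continuous_family (fun b => n.N (j b)) hN
    · refine Path.trans_continuous_family (fun b => (S.lp b).map hf) ?_ (fun b => n.N (j b)) hN
      exact hf.comp S.can.continuous

theorem trans3_left {a b : T} (n : Path a b) (c : Path a a) (t : I) :
    ∀ u : I, (u : ℝ) = (1 - t) / 2 → (n.symm.trans (c.trans n)) u = n t := by
  intro u hu
  have hu2 : (u : ℝ) ≤ 1 / 2 := by rw [hu]; linarith [t.2.1]
  rw [Path.trans_apply, dif_pos hu2]
  show n (σ _) = n t
  congr 1
  apply Subtype.ext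
  simp only [coe_symm_eq, hu]
  ring

theorem trans3_mid {a b : T} (n : Path a b) (c : Path a a) (t : I) :
    ∀ u : I, (u : ℝ) = (t + 2) / 4 → (n.symm.trans (c.trans n)) u = c t := by
  intro u hu
  by_cases ht : (t : ℝ) = 0
  · have ht' : t = 0 := Subtype.ext ht
    subst ht'
    rw [trans3_left n c 0 u (by rw [hu]; norm_num), n.source, c.source]
  · have ht0 : 0 < (t : ℝ) := lt_of_le_of_ne t.2.1 (Ne.symm ht)
    have hu2 : ¬ (u : ℝ) ≤ 1 / 2 := by rw [hu]; intro h; linarith
    have hu3 : 2 * (u : ℝ) - 1 ≤ 1 / 2 := by rw [hu]; linarith [t.2.2]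
    rw [Path.trans_apply, dif_neg hu2, Path.trans_apply, dif_pos hu3]
    congr 1
    apply Subtype.ext
    simp only [hu]
    ring

theorem trans3_right {a b : T} (n : Path a b) (c : Path a a) (t : I) :
    ∀ u : I, (u : ℝ) = (3 + t) / 4 → (n.symm.trans (c.trans n)) u = n t := by
  intro u hu
  by_cases ht : (t : ℝ) = 0
  · have ht' : t = 0 := Subtype.ext ht
    subst ht'
    rw [trans3_mid n c 1 u (by rw [hu]; norm_num), n.source, c.target]
  · have ht0 : 0 < (t : ℝ) := lt_of_le_of_ne t.2.1 (Ne.symm ht)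
    have hu2 : ¬ (u : ℝ) ≤ 1 / 2 := by rw [hu]; intro h; linarith
    have hu3 : ¬ 2 * (u : ℝ) - 1 ≤ 1 / 2 := by rw [hu]; intro h; linarith
    rw [Path.trans_apply, dif_neg hu2, Path.trans_apply, dif_neg hu3]
    congr 1
    apply Subtype.ext
    simp only [hu]
    ring

/-- reparametrisation of the square -/
def rho (τ t : ℝ) : ℝ := max (-t) (min (1 + t) (1 / 2 + (τ - 1 / 2) * (1 + 5 * t)))
def qu (p : I × I) : I :=
  Set.projIcc 0 1 zero_le_one (min ((rho p.1 p.2 + 1) / 2) ((rho p.1 p.2 + 2) / 4))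
def qv (p : I × I) : I :=
  Set.projIcc 0 1 zero_le_one (4 * p.2 * min (p.1 : ℝ) (1 - p.1))

theorem qu_cont : Continuous qu := by
  unfold qu rho
  exact continuous_projIcc.comp (by fun_prop)
theorem qv_cont : Continuous qv := by
  unfold qv
  exact continuous_projIcc.comp (by fun_prop)

theorem projIcc_coe_of {a : ℝ} (h0 : 0 ≤ a) (h1 : a ≤ 1) :
    ((Set.projIcc 0 1 zero_le_one a : I) : ℝ) = a := by
  rw [Set.projIcc_of_mem zero_le_one ⟨h0, h1⟩]

theorem q_bot (τ : I) : (qu (τ, 0) : ℝ) = (τ + 2) / 4 ∧ qv (τ, 0) = 0 := by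
  have h1 := τ.2.1
  have h2 := τ.2.2
  constructor
  · have hr : rho τ 0 = τ := by
      unfold rho
      rw [show (1 / 2 + ((τ : ℝ) - 1 / 2) * (1 + 5 * 0)) = τ by ring]
      rw [min_eq_right (by linarith), max_eq_right (by linarith)]
    unfold qu
    simp only [Set.Icc.coe_zero]
    rw [hr, min_eq_right (by linarith), projIcc_coe_of (by linarith) (by linarith)]
  · unfold qv
    simp

theorem q_left (t : I) : (qu (0, t) : ℝ) = (1 - t) / 2 ∧ qv (0, t) = 0 := by
  have h1 := t.2.1
  have h2 := t.2.2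
  constructor
  · have hr : rho 0 t = -t := by
      unfold rho
      rw [min_eq_right (by linarith), max_eq_left (by linarith)]
    unfold qu
    simp only [Set.Icc.coe_zero]
    rw [hr, min_eq_left (by linarith), projIcc_coe_of (by linarith) (by linarith)]
    ring
  · unfold qv
    simp

theorem q_right (t : I) : (qu (1, t) : ℝ) = (3 + t) / 4 ∧ qv (1, t) = 0 := by
  have h1 := t.2.1
  have h2 := t.2.2
  constructor
  · have hr : rho 1 t = 1 + t := by
      unfold rho
      rw [min_eq_left (by linarith), max_eq_right (by linarith)]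
    unfold qu
    simp only [Set.Icc.coe_one]
    rw [hr, min_eq_right (by linarith), projIcc_coe_of (by linarith) (by linarith)]
    ring
  · unfold qv
    simp

theorem q_top (τ : I) : qv (τ, 1) = 1 ∨ qu (τ, 1) = 0 ∨ qu (τ, 1) = 1 := by
  have h1 := τ.2.1
  have h2 := τ.2.2
  by_cases ha : (τ : ℝ) < 1 / 4
  · right; left
    have hr : rho τ 1 = -1 := by
      unfold rho
      rw [max_eq_left]
      exact (min_le_right _ _).trans (by linarith)
    unfold qu
    simp only [Set.Icc.coe_one]
    rw [hr]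
    apply Set.projIcc_of_le_left
    norm_num
  · by_cases hb : 3 / 4 < (τ : ℝ)
    · right; right
      have hr : rho τ 1 = 2 := by
        unfold rho
        rw [min_eq_left (by linarith), max_eq_right (by norm_num)]
        norm_num
      unfold qu
      simp only [Set.Icc.coe_one]
      rw [hr]
      apply Set.projIcc_of_right_le
      norm_num
    · left
      unfold qv
      apply Set.projIcc_of_right_le
      simp only [Set.Icc.coe_one]
      rcases min_choice (τ : ℝ) (1 - τ) with h | h <;> rw [h] <;> linarith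

/-- extension of null-homotopies over a cylinder -/
theorem Cyl.extend {j : C(B, X)} {i : C(X, X')} (S : Cyl j i) {f : X' → T}
    (hf : Continuous f) {x0 : X} {t0 : T} (n : NH (fun x => f (i x)) x0 t0)
    (G : C(I × B, Path t0 t0)) (G0 : ∀ b, G (0, b) = S.W hf n b)
    (G1 : ∀ b, G (1, b) = Path.refl t0) :
    ∃ n' : NH f (i x0) t0, ∀ x t, n'.N (i x) t = n.N x t := by
  have hG : Continuous fun p : (I × B) × I => G p.1 p.2 := by
    have h : Continuous fun p : Path t0 t0 × I => p.1 p.2 := by fun_prop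
    exact h.comp ((G.continuous.comp continuous_fst).prodMk continuous_snd)
  have hh : Continuous fun p : (B × I) × I => G (qv (p.1.2, p.2), p.1.1) (qu (p.1.2, p.2)) := by
    refine hG.comp (((qv_cont.comp ?_).prodMk ?_).prodMk (qu_cont.comp ?_)) <;> fun_prop
  obtain ⟨g, hg1, hg2⟩ := S.ext (Z := C(I, T))
    (ContinuousMap.curry ⟨fun p : X × I => n.N p.1 p.2, n.cont⟩)
    (ContinuousMap.curry ⟨fun p : (B × I) × I => G (qv (p.1.2, p.2), p.1.1) (qu (p.1.2, p.2)), hh⟩)
    (fun b => by
      ext t
      simp only [ContinuousMap.curry_apply, ContinuousMap.coe_mk]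
      rw [(q_left t).2, G0]
      exact trans3_left _ _ t _ (q_left t).1)
    (fun b => by
      ext t
      simp only [ContinuousMap.curry_apply, ContinuousMap.coe_mk]
      rw [(q_right t).2, G0]
      exact trans3_right _ _ t _ (q_right t).1)
  have hev : Continuous fun p : C(I, T) × I => p.1 p.2 := by fun_prop
  refine ⟨⟨fun y => ⟨g y, ?_, ?_⟩, ?_, ?_⟩, ?_⟩
  · rcases S.surj y with ⟨x, rfl⟩ | ⟨⟨b, τ⟩, rfl⟩
    · rw [hg1]
      exact (n.N x).source
    · rw [hg2]
      show G (qv (τ, 0), b) (qu (τ, 0)) = f (S.can (b, τ))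
      rw [(q_bot τ).2, G0]
      exact trans3_mid _ _ τ _ (q_bot τ).1
  · rcases S.surj y with ⟨x, rfl⟩ | ⟨⟨b, τ⟩, rfl⟩
    · rw [hg1]
      exact (n.N x).target
    · rw [hg2]
      show G (qv (τ, 1), b) (qu (τ, 1)) = t0
      rcases q_top τ with h | h | h
      · rw [h, G1]; rfl
      · rw [h, Path.source]
      · rw [h, Path.target]
  · exact hev.comp ((g.continuous.comp continuous_fst).prodMk continuous_snd)
  · intro t
    show g (i x0) t = t0
    rw [hg1]
    exact n.base t
  · intro x t
    show g (i x) t = _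
    rw [hg1]; rfl

end Pool.Agent.W995.CC
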