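import Pool.Agent.W995.CC.CylS

/-!
The universal property of the attached simplicial cylinder.
-/

set_option autoImplicit false

noncomputable section

namespace Pool.Agent.W995.CC

open unitInterval

theorem nz {N : ℕ} {s : List ℕ} (hs : ∀ v ∈ s, v < N) {k c : ℕ} {y : ℕ → ℝ}
    (hy : y ∈ Sx (stair N k c s)) {b v : ℕ} (hb : b = 0 ∨ b = N ∨ b = N + N) (hv : v < N)
    (h : y (b + v) ≠ 0) : (b = bs N k ∧ v ∈ s ∧ v ≤ c) ∨ (b = bs N (k + 1) ∧ v ∈ s ∧ c ≤ v) := by
  have hmem : b + v ∈ stair N k c s := by
    by_contra hn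
    exact h (hy.2.1 _ hn)
  rcases mem_stair.1 hmem with ⟨u, hu, hc, e⟩ | ⟨u, hu, hc, e⟩
  · left
    have := hs u hu
    have hb2 : bs N k = 0 ∨ bs N k = N ∨ bs N k = N + N := by unfold bs; split_ifs <;> simp
    have : u = v ∧ b = bs N k := by
      rcases hb with rfl | rfl | rfl <;> rcases hb2 with h | h | h <;> rw [h] at e ⊢ <;> omega
    obtain ⟨rfl, h2⟩ := this
    exact ⟨h2, hu, hc⟩
  · right
    have := hs u hu
    have hb2 : bs N (k + 1) = 0 ∨ bs N (k + 1) = N ∨ bs N (k + 1) = N + N := by
      unfold bs; split_ifs <;> simp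
    have : u = v ∧ b = bs N (k + 1) := by
      rcases hb with rfl | rfl | rfl <;> rcases hb2 with h | h | h <;> rw [h] at e ⊢ <;> omega
    obtain ⟨rfl, h2⟩ := this
    exact ⟨h2, hu, hc⟩

theorem ext3 {N : ℕ} {x y : ℕ → ℝ} (hx : ∀ w, N + N + N ≤ w → x w = 0)
    (hy : ∀ w, N + N + N ≤ w → y w = 0)
    (h : ∀ v < N, x v = y v ∧ x (N + v) = y (N + v) ∧ x (N + N + v) = y (N + N + v)) : x = y := by
  funext w
  by_cases h1 : w < N
  · exact (h w h1).1
  · by_cases h2 : w < N + N
    · obtain ⟨v, rfl⟩ : ∃ v, w = N + v := ⟨w - N, by omega⟩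
      exact (h v (by omega)).2.1
    · by_cases h3 : w < N + N + N
      · obtain ⟨v, rfl⟩ : ∃ v, w = N + N + v := ⟨w - (N + N), by omega⟩
        exact (h v (by omega)).2.2
      · rw [hx w (by omega), hy w (by omega)]

theorem can_big (N : ℕ) (a : ℕ → ℝ) (t : ℝ) (w : ℕ) (hw : N + N + N ≤ w) : can N a t w = 0 := by
  unfold can
  rw [if_neg (by omega), if_neg (by omega), if_neg (by omega)]

theorem recover {N : ℕ} {s : List ℕ} (hs : ∀ v ∈ s, v < N) {k c : ℕ} (hk : k < 3) {y : ℕ → ℝ}
    (hy : y ∈ Sx (stair N k c s)) :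
    (k = 0 ∧ M2 N y = 0 ∧ can N (pr N y) (M1 N y) = y) ∨
    (k = 1 ∧ M0 N y = 0 ∧ can N (pr N y) (1 + M2 N y) = y) ∨
    (k = 2 ∧ M1 N y = 0 ∧ can N (pr N y) (3 - M2 N y) = y) := by
  have hM := Msum (stair_lt hs) hy
  have ha := pr_mem hs hy
  have hR := RR_one hs ha
  have hy0 := hy.1
  have p0 : 0 ≤ M0 N y := Finset.sum_nonneg fun v _ => hy0 _
  have p1 : 0 ≤ M1 N y := Finset.sum_nonneg fun v _ => hy0 _
  have p2 : 0 ≤ M2 N y := Finset.sum_nonneg fun v _ => hy0 _
  have hz : ∀ (τ : ℝ), τ ≤ 0 → ∀ v, hi N (pr N y) τ v = 0 := fun τ hτ v => hi_zero ha.1 hτ v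
  have ho : ∀ (τ : ℝ), 1 ≤ τ → ∀ v < N, hi N (pr N y) τ v = pr N y v := fun τ hτ v hv =>
    hi_one ha.1 (by rw [hR]; exact hτ) hv
  have hbig : ∀ w, N + N + N ≤ w → y w = 0 := fun w hw => Sx_zero (stair_lt hs) hy hw
  interval_cases k
  · left
    have hzero : ∀ v < N, y (N + N + v) = 0 := by
      intro v hv
      by_contra h
      rcases nz hs hy (Or.inr (Or.inr rfl)) hv h with h1 | h1
      · have := h1.1; simp [bs] at this; omega
      · have := h1.1; simp [bs] at this; omega
    have e2 : M2 N y = 0 := Finset.sum_eq_zero fun v hv => hzero v (by simpa using hv)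
    let lo : ℕ → ℝ := fun v => if v < N then y v else 0
    let hh : ℕ → ℝ := fun v => if v < N then y (N + v) else 0
    have ea : pr N y = fun u => lo u + hh u := by
      funext u
      simp only [pr, lo, hh]
      split_ifs with h
      · rw [hzero u h]; ring
      · ring
    have eh : M1 N y = ∑ u ∈ Finset.range N, hh u := by
      refine Finset.sum_congr rfl fun v hv => ?_
      rw [Finset.mem_range] at hv
      simp [hh, hv]
    have hu : ∀ v < N, hi N (pr N y) (M1 N y) v = hh v := by
      intro v hv
      rw [eh, ea]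
      refine hi_unique (c := c) (fun v => ?_) (fun v => ?_) (fun v hv => ?_) (fun v hv => ?_) hv
      · simp only [lo]; split_ifs; exacts [hy0 _, le_rfl]
      · simp only [hh]; split_ifs; exacts [hy0 _, le_rfl]
      · simp only [lo]
        split_ifs with hvN
        · by_contra h
          rcases nz hs hy (Or.inl rfl) hvN (by simpa using h) with h1 | h1
          · omega
          · have := h1.1; simp [bs] at this; omega
        · rfl
      · simp only [hh]
        split_ifs with hvN
        · by_contra h
          rcases nz hs hy (Or.inr (Or.inl rfl)) hvN h with h1 | h1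
          · have := h1.1; simp [bs] at this; omega
          · omega
        · rfl
    refine ⟨rfl, e2, ext3 (can_big N _ _) hbig fun v hv => ?_⟩
    obtain ⟨c1, c2, c3⟩ := can_blocks N (pr N y) (M1 N y) hv
    rw [c1, c2, c3, hu v hv, hz (M1 N y - 1) (by linarith), hz (M1 N y - 2) (by linarith), ea]
    simp only [lo, hh, hv, if_true]
    refine ⟨by ring, by ring, by rw [hzero v hv]; ring⟩
  · right; left
    have hzero : ∀ v < N, y v = 0 := by
      intro v hv
      by_contra h
      rcases nz hs hy (Or.inl rfl) hv (by simpa using h) with h1 | h1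
      · have := h1.1; simp [bs] at this; omega
      · have := h1.1; simp [bs] at this; omega
    have e2 : M0 N y = 0 := Finset.sum_eq_zero fun v hv => hzero v (by simpa using hv)
    let lo : ℕ → ℝ := fun v => if v < N then y (N + v) else 0
    let hh : ℕ → ℝ := fun v => if v < N then y (N + N + v) else 0
    have ea : pr N y = fun u => lo u + hh u := by
      funext u
      simp only [pr, lo, hh]
      split_ifs with h
      · rw [hzero u h]; ring
      · ring
    have eh : M2 N y = ∑ u ∈ Finset.range N, hh u := by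
      refine Finset.sum_congr rfl fun v hv => ?_
      rw [Finset.mem_range] at hv
      simp [hh, hv]
    have hu : ∀ v < N, hi N (pr N y) (M2 N y) v = hh v := by
      intro v hv
      rw [eh, ea]
      refine hi_unique (c := c) (fun v => ?_) (fun v => ?_) (fun v hv => ?_) (fun v hv => ?_) hv
      · simp only [lo]; split_ifs; exacts [hy0 _, le_rfl]
      · simp only [hh]; split_ifs; exacts [hy0 _, le_rfl]
      · simp only [lo]
        split_ifs with hvN
        · by_contra h
          rcases nz hs hy (Or.inr (Or.inl rfl)) hvN h with h1 | h1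
          · omega
          · have := h1.1; simp [bs] at this; omega
        · rfl
      · simp only [hh]
        split_ifs with hvN
        · by_contra h
          rcases nz hs hy (Or.inr (Or.inr rfl)) hvN h with h1 | h1
          · have := h1.1; simp [bs] at this; omega
          · omega
        · rfl
    refine ⟨rfl, e2, ext3 (can_big N _ _) hbig fun v hv => ?_⟩
    obtain ⟨c1, c2, c3⟩ := can_blocks N (pr N y) (1 + M2 N y) hv
    rw [c1, c2, c3, ho (1 + M2 N y) (by linarith) v hv, show 1 + M2 N y - 1 = M2 N y by ring,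
      hu v hv, hz (1 + M2 N y - 2) (by linarith), ea]
    simp only [lo, hh, hv, if_true]
    refine ⟨by rw [hzero v hv]; ring, by ring, by ring⟩
  · right; right
    have hzero : ∀ v < N, y (N + v) = 0 := by
      intro v hv
      by_contra h
      rcases nz hs hy (Or.inr (Or.inl rfl)) hv h with h1 | h1
      · have := h1.1; simp [bs] at this; omega
      · have := h1.1; simp [bs] at this; omega
    have e2 : M1 N y = 0 := Finset.sum_eq_zero fun v hv => hzero v (by simpa using hv)
    let lo : ℕ → ℝ := fun v => if v < N then y (N + N + v) else 0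
    let hh : ℕ → ℝ := fun v => if v < N then y v else 0
    have ea : pr N y = fun u => lo u + hh u := by
      funext u
      simp only [pr, lo, hh]
      split_ifs with h
      · rw [hzero u h]; ring
      · ring
    have eh : M0 N y = ∑ u ∈ Finset.range N, hh u := by
      refine Finset.sum_congr rfl fun v hv => ?_
      rw [Finset.mem_range] at hv
      simp [hh, hv]
    have hu : ∀ v < N, hi N (pr N y) (M0 N y) v = hh v := by
      intro v hv
      rw [eh, ea]
      refine hi_unique (c := c) (fun v => ?_) (fun v => ?_) (fun v hv => ?_) (fun v hv => ?_) hv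
      · simp only [lo]; split_ifs; exacts [hy0 _, le_rfl]
      · simp only [hh]; split_ifs; exacts [hy0 _, le_rfl]
      · simp only [lo]
        split_ifs with hvN
        · by_contra h
          rcases nz hs hy (Or.inr (Or.inr rfl)) hvN h with h1 | h1
          · omega
          · have := h1.1; simp [bs] at this; omega
        · rfl
      · simp only [hh]
        split_ifs with hvN
        · by_contra h
          rcases nz hs hy (Or.inl rfl) hvN (by simpa using h) with h1 | h1
          · have := h1.1; simp [bs] at this; omega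
          · omega
        · rfl
    refine ⟨rfl, e2, ext3 (can_big N _ _) hbig fun v hv => ?_⟩
    obtain ⟨c1, c2, c3⟩ := can_blocks N (pr N y) (3 - M2 N y) hv
    have e3 : 3 - M2 N y - 2 = M0 N y := by linarith
    rw [c1, c2, c3, ho (3 - M2 N y) (by linarith) v hv, ho (3 - M2 N y - 1) (by linarith) v hv,
      e3, hu v hv, ea]
    simp only [lo, hh, hv, if_true]
    refine ⟨by ring, by rw [hzero v hv]; ring, by ring⟩

/-- masses of the levels of the characteristic map -/
theorem can_masses {N : ℕ} {s : List ℕ} (hs : ∀ v ∈ s, v < N) {a : ℕ → ℝ} (ha : a ∈ Sx s) {t : ℝ}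
    (h0 : 0 ≤ t) (h3 : t ≤ 3) :
    M1 N (can N a t) = min t 1 - max 0 (min (t - 1) 1) ∧
    M2 N (can N a t) = max 0 (min (t - 1) 1) - max 0 (t - 2) := by
  have hR := RR_one hs ha
  have hsum : ∀ τ : ℝ, ∑ v ∈ Finset.range N, hi N a τ v = max 0 (min τ 1) := by
    intro τ
    rcases le_total τ 0 with h | h
    · rw [Finset.sum_eq_zero fun v _ => hi_zero ha.1 h v, max_eq_left ((min_le_left _ _).trans h)]
    · rcases le_total τ 1 with h1 | h1
      · rw [hi_sum h (by rw [hR]; exact h1), min_eq_left h1, max_eq_right h]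
      · rw [min_eq_right h1, max_eq_right zero_le_one, ← hR, RR_zero_eq]
        refine Finset.sum_congr rfl fun v hv => ?_
        exact hi_one ha.1 (by rw [hR]; exact h1) (by simpa using hv)
  constructor
  · have : M1 N (can N a t) = ∑ v ∈ Finset.range N, (hi N a t v - hi N a (t - 1) v) := by
      refine Finset.sum_congr rfl fun v hv => ?_
      exact (can_blocks N a t (by simpa using hv)).2.1
    rw [this, Finset.sum_sub_distrib, hsum, hsum, max_eq_right (le_min h0 zero_le_one)]
  · have : M2 N (can N a t) = ∑ v ∈ Finset.range N, (hi N a (t - 1) v - hi N a (t - 2) v) := by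
      refine Finset.sum_congr rfl fun v hv => ?_
      exact (can_blocks N a t (by simpa using hv)).2.2
    rw [this, Finset.sum_sub_distrib, hsum, hsum, min_eq_left (show t - 2 ≤ 1 by linarith)]

theorem pr_can {N : ℕ} {s : List ℕ} (hs : ∀ v ∈ s, v < N) {a : ℕ → ℝ} (ha : a ∈ Sx s) (t : ℝ) :
    pr N (can N a t) = a := by
  funext v
  unfold pr
  split_ifs with hv
  · obtain ⟨c1, c2, c3⟩ := can_blocks N a t hv
    rw [c1, c2, c3]; ring
  · exact (Sx_zero hs ha (not_lt.1 hv)).symm

/-- height, in `[0, 3]` -/
def hgt (N : ℕ) (y : ℕ → ℝ) : ℝ :=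
  if M2 N y = 0 then M1 N y else if M1 N y = 0 then 3 - M2 N y else 1 + M2 N y

theorem hgt_can {N : ℕ} {s : List ℕ} (hs : ∀ v ∈ s, v < N) {a : ℕ → ℝ} (ha : a ∈ Sx s) {t : ℝ}
    (h0 : 0 ≤ t) (h3 : t < 3) : hgt N (can N a t) = t := by
  obtain ⟨e1, e2⟩ := can_masses hs ha h0 h3.le
  unfold hgt
  rw [e1, e2]
  by_cases h1 : t ≤ 1
  · have x1 : max 0 (min (t - 1) 1) = 0 := max_eq_left ((min_le_left _ _).trans (by linarith))
    have x2 : max 0 (t - 2) = 0 := max_eq_left (by linarith)
    rw [x1, x2, min_eq_left h1]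
    simp
  · by_cases h2 : t ≤ 2
    · have x1 : max 0 (min (t - 1) 1) = t - 1 := by
        rw [min_eq_left (by linarith), max_eq_right (by linarith)]
      have x2 : max 0 (t - 2) = 0 := max_eq_left (by linarith)
      rw [x1, x2, min_eq_right (by linarith)]
      rw [if_neg (by intro h; linarith)]
      split_ifs with h
      · linarith
      · ring
    · have x1 : max 0 (min (t - 1) 1) = 1 := by
        rw [min_eq_right (by linarith), max_eq_right (by linarith)]
      have x2 : max 0 (t - 2) = t - 2 := max_eq_right (by linarith)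
      rw [x1, x2, min_eq_right (by linarith)]
      rw [if_neg (by intro h; linarith), if_pos (by ring)]
      ring

end Pool.Agent.W995.CC
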