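import Pool.Agent.W995.CC.CylI

/-!
The attached simplicial cylinder as an instance of the abstract notion.
-/

set_option autoImplicit false

noncomputable section

namespace Pool.Agent.W995.CC

open unitInterval

theorem Re_zero {N : ℕ} {L : List (List ℕ)} (hL : bdd N L) {y : ℕ → ℝ} (hy : y ∈ Re L) {w : ℕ}
    (hw : N ≤ w) : y w = 0 := by
  obtain ⟨s, hs, hy⟩ := hy
  exact Sx_zero (hL s hs) hy hw

theorem pr_Re {N : ℕ} {B : List (List ℕ)} (hB : bdd N B) {y : ℕ → ℝ} (hy : y ∈ Re (cyl N B)) :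
    pr N y ∈ Re B := by
  obtain ⟨t, ht, hy⟩ := hy
  obtain ⟨s, hs, k, hk, c, hc, rfl⟩ := mem_cyl.1 ht
  exact ⟨s, hs, pr_mem (hB s hs) hy⟩

theorem can_Re {N : ℕ} (hN : 0 < N) {B : List (List ℕ)} (hB : bdd N B) {a : ℕ → ℝ}
    (ha : a ∈ Re B) {t : ℝ} (h0 : 0 ≤ t) (h3 : t ≤ 3) : can N a t ∈ Re (cyl N B) := by
  obtain ⟨s, hs, ha⟩ := ha
  obtain ⟨k, hk, c, hc, h⟩ := can_mem hN (hB s hs) ha h0 h3
  exact ⟨_, mem_cyl.2 ⟨s, hs, k, hk, c, hc, rfl⟩, h⟩

theorem can_zero {N : ℕ} {L : List (List ℕ)} (hL : bdd N L) {a : ℕ → ℝ} (ha : a ∈ Re L) :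
    can N a 0 = a := by
  have hb := fun w (hw : N ≤ w) => Re_zero hL ha hw
  obtain ⟨s, hs, ha⟩ := ha
  refine ext3 (can_big N _ _) (fun w hw => hb w (by omega)) fun v hv => ?_
  obtain ⟨c1, c2, c3⟩ := can_blocks N a 0 hv
  rw [c1, c2, c3, hi_zero ha.1 le_rfl, hi_zero ha.1 (by norm_num), hi_zero ha.1 (by norm_num),
    hb (N + v) (by omega), hb (N + N + v) (by omega)]
  simp

theorem can_three {N : ℕ} {L : List (List ℕ)} (hL : bdd N L) {a : ℕ → ℝ} (ha : a ∈ Re L) :
    can N a 3 = a := by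
  have hb := fun w (hw : N ≤ w) => Re_zero hL ha hw
  obtain ⟨s, hs, ha⟩ := ha
  have hR := RR_one (hL s hs) ha
  refine ext3 (can_big N _ _) (fun w hw => hb w (by omega)) fun v hv => ?_
  obtain ⟨c1, c2, c3⟩ := can_blocks N a 3 hv
  rw [c1, c2, c3, hi_one ha.1 (by rw [hR]; norm_num) hv, hi_one ha.1 (by rw [hR]; norm_num) hv,
    hi_one ha.1 (by rw [hR]; norm_num) hv, hb (N + v) (by omega), hb (N + N + v) (by omega)]
  simp

theorem pr_self {N : ℕ} {L : List (List ℕ)} (hL : bdd N L) {y : ℕ → ℝ} (hy : y ∈ Re L) :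
    pr N y = y := by
  funext v
  unfold pr
  split_ifs with hv
  · rw [Re_zero hL hy (by omega : N ≤ N + v), Re_zero hL hy (by omega : N ≤ N + N + v)]; ring
  · exact (Re_zero hL hy (not_lt.1 hv)).symm

theorem M1_self {N : ℕ} {L : List (List ℕ)} (hL : bdd N L) {y : ℕ → ℝ} (hy : y ∈ Re L) :
    M1 N y = 0 := Finset.sum_eq_zero fun v _ => Re_zero hL hy (by omega)
theorem M2_self {N : ℕ} {L : List (List ℕ)} (hL : bdd N L) {y : ℕ → ℝ} (hy : y ∈ Re L) :
    M2 N y = 0 := Finset.sum_eq_zero fun v _ => Re_zero hL hy (by omega)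

theorem masses {N : ℕ} {B : List (List ℕ)} (hB : bdd N B) {y : ℕ → ℝ} (hy : y ∈ Re (cyl N B)) :
    M0 N y + M1 N y + M2 N y = 1 ∧ 0 ≤ M0 N y ∧ 0 ≤ M1 N y ∧ 0 ≤ M2 N y ∧
    (M2 N y = 0 ∨ M0 N y = 0 ∨ M1 N y = 0) ∧ can N (pr N y) (hgt N y) = y := by
  obtain ⟨t, ht, hy⟩ := hy
  obtain ⟨s, hs, k, hk, c, hc, rfl⟩ := mem_cyl.1 ht
  have hs' := hB s hs
  have hM := Msum (stair_lt hs') hy
  have hy0 := hy.1
  have p0 : 0 ≤ M0 N y := Finset.sum_nonneg fun v _ => hy0 _
  have p1 : 0 ≤ M1 N y := Finset.sum_nonneg fun v _ => hy0 _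
  have p2 : 0 ≤ M2 N y := Finset.sum_nonneg fun v _ => hy0 _
  refine ⟨hM, p0, p1, p2, ?_, ?_⟩
  · rcases recover hs' hk hy with ⟨-, h, -⟩ | ⟨-, h, -⟩ | ⟨-, h, -⟩
    · exact Or.inl h
    · exact Or.inr (Or.inl h)
    · exact Or.inr (Or.inr h)
  · unfold hgt
    rcases recover hs' hk hy with ⟨-, h, e⟩ | ⟨-, h, e⟩ | ⟨-, h, e⟩
    · rw [if_pos h]; exact e
    · by_cases h2 : M2 N y = 0
      · rw [if_pos h2]
        have : M1 N y = 1 + M2 N y := by linarith
        rw [this]; exact e
      · rw [if_neg h2]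
        by_cases h1 : M1 N y = 0
        · rw [if_pos h1]
          have : 3 - M2 N y = 1 + M2 N y := by linarith
          rw [this]; exact e
        · rw [if_neg h1]; exact e
    · by_cases h2 : M2 N y = 0
      · rw [if_pos h2, h]
        -- then `y` is in the base
        have hpy : pr N y = y := by
          have e' := e
          rw [h2, sub_zero, can_three (L := [s]) (by
            intro s' hs''
            rw [List.mem_singleton.1 hs'']; exact hs') ⟨s, List.mem_singleton_self s,
              pr_mem hs' hy⟩] at e'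
          exact e'
        rw [hpy]
        have : y ∈ Re [s] := ⟨s, List.mem_singleton_self s, by rw [← hpy]; exact pr_mem hs' hy⟩
        exact can_zero (L := [s]) (by
            intro s' hs''
            rw [List.mem_singleton.1 hs'']; exact hs') this
      · rw [if_neg h2, if_pos h]; exact e

theorem Re_inter {N : ℕ} {L B : List (List ℕ)} (hL : bdd N L) (hB : bdd N B) {y : ℕ → ℝ}
    (h1 : y ∈ Re L) (h2 : y ∈ Re (cyl N B)) : y ∈ Re B := by
  have := pr_Re hB h2
  rwa [pr_self hL h1] at this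

/-- the parameter in the unit interval -/
def hI (x : ℝ) : I := Set.projIcc 0 1 zero_le_one (x / 3)

theorem hI_cont : Continuous hI := continuous_projIcc.comp (by fun_prop)

theorem hI_coe {x : ℝ} (h0 : 0 ≤ x) (h3 : x ≤ 3) : ((hI x : I) : ℝ) = x / 3 :=
  projIcc_coe_of (by linarith) (by linarith)

theorem hgt_bounds {N : ℕ} {B : List (List ℕ)} (hB : bdd N B) {y : ℕ → ℝ}
    (hy : y ∈ Re (cyl N B)) : 0 ≤ hgt N y ∧ hgt N y ≤ 3 := by
  obtain ⟨hM, p0, p1, p2, -, -⟩ := masses hB hy
  unfold hgt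
  split_ifs <;> constructor <;> linarith

section inst

variable {N : ℕ} {L B : List (List ℕ)}

theorem ReL_sub (N : ℕ) (L B : List (List ℕ)) : Re L ⊆ Re (cyl N B ++ L) :=
  Re_mono fun _ hs => List.mem_append_right _ hs

/-- the simplicial cylinder as an abstract cylinder -/
def cylS (hN : 0 < N) (hL : bdd N L) (hB : bdd N B) (hBL : Re B ⊆ Re L) :
    Cyl (inc hBL) (inc (ReL_sub N L B)) where
  can := ⟨fun p => ⟨can N p.1 (3 * p.2), by
      rw [Re_append]
      exact Or.inl (can_Re hN hB p.1.2 (by linarith [p.2.2.1]) (by linarith [p.2.2.2]))⟩, by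
    refine Continuous.subtype_mk ?_ _
    have h : Continuous fun p : Re B × I => ((p.1 : ℕ → ℝ), 3 * (p.2 : ℝ)) := by fun_prop
    exact (can_cont N).comp h⟩
  h0 b := by
    apply Subtype.ext
    show can N b.1 (3 * ((0 : I) : ℝ)) = b.1
    rw [Set.Icc.coe_zero, mul_zero]
    exact can_zero hB b.2
  h1 b := by
    apply Subtype.ext
    show can N b.1 (3 * ((1 : I) : ℝ)) = b.1
    rw [Set.Icc.coe_one, mul_one]
    exact can_three hB b.2
  surj y := by
    have hy : (y : ℕ → ℝ) ∈ Re (cyl N B) ∪ Re L := by rw [← Re_append]; exact y.2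
    rcases hy with hy | hy
    · right
      obtain ⟨b0, b3⟩ := hgt_bounds hB hy
      refine ⟨(⟨pr N y, pr_Re hB hy⟩, hI (hgt N y)), Subtype.ext ?_⟩
      show can N (pr N y) (3 * (hI (hgt N y) : ℝ)) = y
      rw [hI_coe b0 b3, mul_div_cancel₀ _ (by norm_num : (3 : ℝ) ≠ 0)]
      exact (masses hB hy).2.2.2.2.2
    · left
      exact ⟨⟨y, hy⟩, rfl⟩
  ext := by
    intro Z _ g h hc0 hc1
    classical
    have hcyl : ∀ y : Re (cyl N B ++ L), (y : ℕ → ℝ) ∉ Re L → (y : ℕ → ℝ) ∈ Re (cyl N B) := by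
      intro y hy
      have h1 : (y : ℕ → ℝ) ∈ Re (cyl N B) ∪ Re L := by rw [← Re_append]; exact y.2
      exact h1.resolve_right hy
    let G : Re (cyl N B ++ L) → Z := fun y => if hy : (y : ℕ → ℝ) ∈ Re L then g ⟨y, hy⟩ else
      h (⟨pr N y, pr_Re hB (hcyl y hy)⟩, hI (hgt N y))
    have hG1 : ∀ y : Re (cyl N B ++ L), ∀ hy : (y : ℕ → ℝ) ∈ Re L, G y = g ⟨y, hy⟩ :=
      fun y hy => dif_pos hy
    have hG2 : ∀ y : Re (cyl N B ++ L), ∀ hy : (y : ℕ → ℝ) ∈ Re (cyl N B),
        G y = h (⟨pr N y, pr_Re hB hy⟩, hI (hgt N y)) := by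
      intro y hy
      by_cases hL' : (y : ℕ → ℝ) ∈ Re L
      · rw [hG1 y hL']
        have e1 : hI (hgt N y) = 0 := by
          unfold hgt
          rw [if_pos (M2_self hL hL'), M1_self hL hL']
          unfold hI
          simp
        have e2 : pr N (y : ℕ → ℝ) = y := pr_self hL hL'
        rw [e1]
        have e3 := hc0 ⟨pr N y, pr_Re hB hy⟩
        rw [e3]
        congr 1
        exact Subtype.ext e2.symm
      · exact dif_neg hL'
    have hcont : Continuous G := by
      let A : Fin 4 → Set (Re (cyl N B ++ L)) := fun i =>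
        if i = 0 then {y | (y : ℕ → ℝ) ∈ Re L}
        else if i = 1 then {y | (y : ℕ → ℝ) ∈ Re (cyl N B) ∧ M2 N y = 0}
        else if i = 2 then {y | (y : ℕ → ℝ) ∈ Re (cyl N B) ∧ M0 N y = 0}
        else {y | (y : ℕ → ℝ) ∈ Re (cyl N B) ∧ M1 N y = 0}
      have hv : Continuous fun y : Re (cyl N B ++ L) => (y : ℕ → ℝ) := continuous_subtype_val
      have hA0 : IsClosed {y : Re (cyl N B ++ L) | (y : ℕ → ℝ) ∈ Re L} :=
        (isClosed_Re L).preimage hv
      have hAc : IsClosed {y : Re (cyl N B ++ L) | (y : ℕ → ℝ) ∈ Re (cyl N B)} :=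
        (isClosed_Re _).preimage hv
      refine LocallyFinite.continuous (f := A) (locallyFinite_of_finite _) ?_ ?_ ?_
      · rw [Set.eq_univ_iff_forall]
        intro y
        rw [Set.mem_iUnion]
        by_cases hy : (y : ℕ → ℝ) ∈ Re L
        · exact ⟨0, hy⟩
        · obtain ⟨-, -, -, -, h3, -⟩ := masses hB (hcyl y hy)
          rcases h3 with h3 | h3 | h3
          · exact ⟨1, hcyl y hy, h3⟩
          · exact ⟨2, hcyl y hy, h3⟩
          · exact ⟨3, hcyl y hy, h3⟩
      · intro i
        fin_cases i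
        · exact hA0
        · exact hAc.inter (isClosed_eq ((M2_cont N).comp hv) continuous_const)
        · exact hAc.inter (isClosed_eq ((M0_cont N).comp hv) continuous_const)
        · exact hAc.inter (isClosed_eq ((M1_cont N).comp hv) continuous_const)
      · intro i
        rw [continuousOn_iff_continuous_domRestrict]
        have key : ∀ (S : Set (Re (cyl N B ++ L))) (hS : ∀ y ∈ S, (y : ℕ → ℝ) ∈ Re (cyl N B))
            (fk : (ℕ → ℝ) → ℝ) (hfk : Continuous fk)
            (hk : ∀ y, ∀ hy : y ∈ S, G y = h (⟨pr N y, pr_Re hB (hS y hy)⟩, hI (fk y))),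
            Continuous (S.domRestrict G) := by
          intro S hS fk hfk hk
          have : S.domRestrict G = fun y : S =>
              h (⟨pr N y.1, pr_Re hB (hS y.1 y.2)⟩, hI (fk y.1)) := by
            funext y
            exact hk y.1 y.2
          rw [this]
          have hvv : Continuous fun y : S => (y.1 : ℕ → ℝ) := hv.comp continuous_subtype_val
          refine h.continuous.comp (Continuous.prodMk ?_ ?_)
          · exact Continuous.subtype_mk ((pr_cont N).comp hvv) _
          · exact hI_cont.comp (hfk.comp hvv)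
        fin_cases i
        · have : Set.domRestrict {y : Re (cyl N B ++ L) | (y : ℕ → ℝ) ∈ Re L} G =
              fun y => g ⟨y.1, y.2⟩ := by
            funext y
            exact hG1 y.1 y.2
          show Continuous (Set.domRestrict {y : Re (cyl N B ++ L) | (y : ℕ → ℝ) ∈ Re L} G)
          rw [this]
          exact g.continuous.comp (Continuous.subtype_mk (hv.comp continuous_subtype_val) _)
        · refine key _ (fun y hy => hy.1) (M1 N) (M1_cont N) ?_
          rintro y ⟨hy, h2⟩
          rw [hG2 y hy]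
          unfold hgt
          rw [if_pos h2]
        · refine key _ (fun y hy => hy.1) (fun y => 1 + M2 N y)
            (continuous_const.add (M2_cont N)) ?_
          rintro y ⟨hy, h2⟩
          rw [hG2 y hy]
          obtain ⟨hM, -, -, -, -, -⟩ := masses hB hy
          have : hgt N (y : ℕ → ℝ) = 1 + M2 N y := by
            unfold hgt
            split_ifs with h3 h4
            · linarith
            · linarith
            · rfl
          rw [this]
        · refine key _ (fun y hy => hy.1) (fun y => 3 - M2 N y)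
            (continuous_const.sub (M2_cont N)) ?_
          rintro y ⟨hy, h2⟩
          rw [hG2 y hy]
          by_cases h3 : M2 N (y : ℕ → ℝ) = 0
          · have e0 : hI (hgt N y) = 0 := by
              unfold hgt
              rw [if_pos h3, h2]
              unfold hI
              simp
            have e1 : hI (3 - M2 N (y : ℕ → ℝ)) = 1 := by
              rw [h3]
              unfold hI
              simp
            rw [e0]
            simp only [e1]
            rw [hc0, hc1]
          · have : hgt N (y : ℕ → ℝ) = 3 - M2 N y := by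
              unfold hgt
              rw [if_neg h3, if_pos h2]
            rw [this]
    refine ⟨⟨G, hcont⟩, fun x => hG1 _ x.2, fun p => ?_⟩
    obtain ⟨a, τ⟩ := p
    show G _ = h (a, τ)
    have hmem := can_Re hN hB a.2 (t := 3 * (τ : ℝ)) (by linarith [τ.2.1]) (by linarith [τ.2.2])
    rw [hG2 _ hmem]
    obtain ⟨s, hs, ha⟩ := a.2
    have e1 : pr N (can N a (3 * τ)) = a := pr_can (hB s hs) ha _
    by_cases h1 : (τ : ℝ) = 1
    · have h1' : τ = 1 := Subtype.ext h1
      subst h1'
      rw [hc1, ← hc0]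
      congr 1
      refine Prod.ext (Subtype.ext e1) ?_
      show hI (hgt N (can N a (3 * ((1 : I) : ℝ)))) = 0
      rw [Set.Icc.coe_one, mul_one, can_three hB a.2]
      unfold hgt
      rw [if_pos (M2_self hB a.2), M1_self hB a.2]
      unfold hI
      simp
    · have h2 : (τ : ℝ) < 1 := lt_of_le_of_ne τ.2.2 h1
      congr 1
      refine Prod.ext (Subtype.ext e1) (Subtype.ext ?_)
      show ((hI (hgt N (can N a (3 * (τ : ℝ)))) : I) : ℝ) = τ
      rw [hgt_can (hB s hs) ha (by linarith [τ.2.1]) (by linarith),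
        hI_coe (by linarith [τ.2.1]) (by linarith [τ.2.2])]
      ring

end inst

end Pool.Agent.W995.CC
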