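import Pool.Agent.W995.CC.Split

/-!
The simplicial cylinder attached at both ends.
-/

set_option autoImplicit false

noncomputable section

namespace Pool.Agent.W995.CC

open unitInterval

/-- base of level `k` -/
def bs (N k : ℕ) : ℕ := if k = 1 then N else if k = 2 then N + N else 0

/-- a simplex of the staircase triangulation between the levels `k` and `k + 1` -/
def stair (N k c : ℕ) (s : List ℕ) : List ℕ :=
  (s.filter fun u => decide (u ≤ c)).map (fun u => bs N k + u) ++
    (s.filter fun u => decide (c ≤ u)).map (fun u => bs N (k + 1) + u)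

/-- the new simplices when the cylinder over `B` is attached -/
def cyl (N : ℕ) (B : List (List ℕ)) : List (List ℕ) :=
  B.flatMap fun s => (List.range 3).flatMap fun k => (List.range N).map fun c => stair N k c s

theorem mem_cyl {N : ℕ} {B : List (List ℕ)} {t : List ℕ} :
    t ∈ cyl N B ↔ ∃ s ∈ B, ∃ k < 3, ∃ c < N, stair N k c s = t := by
  simp [cyl]

theorem mem_stair {N k c : ℕ} {s : List ℕ} {w : ℕ} :
    w ∈ stair N k c s ↔ (∃ u ∈ s, u ≤ c ∧ bs N k + u = w) ∨
      ∃ u ∈ s, c ≤ u ∧ bs N (k + 1) + u = w := by
  simp [stair, and_assoc]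

/-- all vertices are less than `N` -/
def bdd (N : ℕ) (L : List (List ℕ)) : Prop := ∀ s ∈ L, ∀ v ∈ s, v < N

theorem bdd.cyl {N : ℕ} {B : List (List ℕ)} (h : bdd N B) : bdd (N + N + N) (cyl N B) := by
  intro t ht w hw
  obtain ⟨s, hs, k, hk, c, hc, rfl⟩ := mem_cyl.1 ht
  rcases mem_stair.1 hw with ⟨u, hu, _, rfl⟩ | ⟨u, hu, _, rfl⟩
  · have := h s hs u hu
    unfold bs; split_ifs <;> omega
  · have := h s hs u hu
    unfold bs; split_ifs <;> omega

theorem sum3 (N : ℕ) (y : ℕ → ℝ) : ∑ w ∈ Finset.range (N + N + N), y w =
    ∑ v ∈ Finset.range N, (y v + y (N + v) + y (N + N + v)) := by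
  rw [Finset.sum_range_add, Finset.sum_range_add, Finset.sum_add_distrib, Finset.sum_add_distrib]

/-- projection to the base -/
def pr (N : ℕ) (y : ℕ → ℝ) (v : ℕ) : ℝ := if v < N then y v + y (N + v) + y (N + N + v) else 0

theorem pr_cont (N : ℕ) : Continuous (pr N) := by
  refine continuous_pi fun v => ?_
  unfold pr
  split_ifs
  · fun_prop
  · exact continuous_const

def M0 (N : ℕ) (y : ℕ → ℝ) : ℝ := ∑ v ∈ Finset.range N, y v
def M1 (N : ℕ) (y : ℕ → ℝ) : ℝ := ∑ v ∈ Finset.range N, y (N + v)
def M2 (N : ℕ) (y : ℕ → ℝ) : ℝ := ∑ v ∈ Finset.range N, y (N + N + v)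

theorem M0_cont (N : ℕ) : Continuous (M0 N) := by unfold M0; fun_prop
theorem M1_cont (N : ℕ) : Continuous (M1 N) := by unfold M1; fun_prop
theorem M2_cont (N : ℕ) : Continuous (M2 N) := by unfold M2; fun_prop

theorem Sx_zero {N : ℕ} {s : List ℕ} (hs : ∀ v ∈ s, v < N) {y : ℕ → ℝ} (hy : y ∈ Sx s) {w : ℕ}
    (hw : N ≤ w) : y w = 0 := hy.2.1 w fun h => by have := hs w h; omega

theorem Msum {N : ℕ} {s : List ℕ} (hs : ∀ v ∈ s, v < N + N + N) {y : ℕ → ℝ} (hy : y ∈ Sx s) :
    M0 N y + M1 N y + M2 N y = 1 := by
  have h := ((mem_Sx_iff (Finset.range (N + N + N)) (fun v hv => Sx_zero hs hy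
    (by simpa using hv))).1 hy).2.2
  rw [sum3, Finset.sum_add_distrib, Finset.sum_add_distrib] at h
  exact h

theorem stair_lt {N k c : ℕ} {s : List ℕ} (hs : ∀ v ∈ s, v < N) :
    ∀ v ∈ stair N k c s, v < N + N + N := by
  intro w hw
  rcases mem_stair.1 hw with ⟨u, hu, _, rfl⟩ | ⟨u, hu, _, rfl⟩
  · have := hs u hu
    unfold bs; split_ifs <;> omega
  · have := hs u hu
    unfold bs; split_ifs <;> omega

/-- the projection maps the cylinder to the base -/
theorem pr_mem {N : ℕ} {s : List ℕ} (hs : ∀ v ∈ s, v < N) {k c : ℕ} {y : ℕ → ℝ}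
    (hy : y ∈ Sx (stair N k c s)) : pr N y ∈ Sx s := by
  have hM := Msum (stair_lt hs) hy
  refine (mem_Sx_iff (Finset.range N) (fun v hv => ?_)).2 ⟨fun v => ?_, fun v hv => ?_, ?_⟩
  · simp only [Finset.mem_range, not_lt] at hv
    simp [pr, not_lt.2 hv]
  · unfold pr
    split_ifs
    · have h1 := hy.1 v
      have h2 := hy.1 (N + v)
      have h3 := hy.1 (N + N + v)
      positivity
    · exact le_rfl
  · unfold pr
    split_ifs with hvN
    · have key : ∀ b, (b = 0 ∨ b = N ∨ b = N + N) → y (b + v) = 0 := by
        intro b hb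
        refine hy.2.1 _ fun hmem => hv ?_
        rcases mem_stair.1 hmem with ⟨u, hu, _, e⟩ | ⟨u, hu, _, e⟩
        · have := hs u hu
          have hb2 : bs N k = 0 ∨ bs N k = N ∨ bs N k = N + N := by unfold bs; split_ifs <;> simp
          have : u = v := by
            rcases hb with rfl | rfl | rfl <;> rcases hb2 with h | h | h <;> rw [h] at e <;> omega
          exact this ▸ hu
        · have := hs u hu
          have hb2 : bs N (k + 1) = 0 ∨ bs N (k + 1) = N ∨ bs N (k + 1) = N + N := by
            unfold bs; split_ifs <;> simp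
          have : u = v := by
            rcases hb with rfl | rfl | rfl <;> rcases hb2 with h | h | h <;> rw [h] at e <;> omega
          exact this ▸ hu
      have h0 := key 0 (Or.inl rfl)
      have h1 := key N (Or.inr (Or.inl rfl))
      have h2 := key (N + N) (Or.inr (Or.inr rfl))
      rw [zero_add] at h0
      rw [h0, h1, h2]; ring
    · rfl
  · rw [← hM]
    unfold M0 M1 M2
    rw [← Finset.sum_add_distrib, ← Finset.sum_add_distrib]
    refine Finset.sum_congr rfl fun v hv => ?_
    rw [Finset.mem_range] at hv
    simp [pr, hv]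

/-- the point of the cylinder over `a` at height `t` -/
def can (N : ℕ) (a : ℕ → ℝ) (t : ℝ) (w : ℕ) : ℝ :=
  if w < N then a w - hi N a t w + hi N a (t - 2) w
  else if w < N + N then hi N a t (w - N) - hi N a (t - 1) (w - N)
  else if w < N + N + N then hi N a (t - 1) (w - (N + N)) - hi N a (t - 2) (w - (N + N))
  else 0

theorem can_cont (N : ℕ) : Continuous fun p : (ℕ → ℝ) × ℝ => can N p.1 p.2 := by
  refine continuous_pi fun w => ?_
  have h : ∀ (v : ℕ) (c : ℝ), Continuous fun p : (ℕ → ℝ) × ℝ => hi N p.1 (p.2 - c) v := by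
    intro v c
    exact (hi_cont N v).comp (continuous_fst.prodMk (continuous_snd.sub continuous_const))
  unfold can
  split_ifs
  · exact (((continuous_apply w).comp continuous_fst).sub (hi_cont N w)).add (h w 2)
  · exact (hi_cont N _).sub (h _ 1)
  · exact (h _ 1).sub (h _ 2)
  · exact continuous_const

theorem can_blocks (N : ℕ) (a : ℕ → ℝ) (t : ℝ) {v : ℕ} (hv : v < N) :
    can N a t v = a v - hi N a t v + hi N a (t - 2) v ∧
    can N a t (N + v) = hi N a t v - hi N a (t - 1) v ∧
    can N a t (N + N + v) = hi N a (t - 1) v - hi N a (t - 2) v := by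
  refine ⟨?_, ?_, ?_⟩
  · simp [can, hv]
  · unfold can
    rw [if_neg (by omega), if_pos (by omega)]
    simp
  · unfold can
    rw [if_neg (by omega), if_neg (by omega), if_pos (by omega)]
    simp

theorem can_sum {N : ℕ} {a : ℕ → ℝ} (t : ℝ) :
    ∑ w ∈ Finset.range (N + N + N), can N a t w = ∑ v ∈ Finset.range N, a v := by
  rw [sum3]
  refine Finset.sum_congr rfl fun v hv => ?_
  rw [Finset.mem_range] at hv
  obtain ⟨h1, h2, h3⟩ := can_blocks N a t hv
  rw [h1, h2, h3]
  ring

theorem RR_zero_eq (N : ℕ) (a : ℕ → ℝ) : RR N a 0 = ∑ v ∈ Finset.range N, a v := by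
  unfold RR; rw [Finset.range_eq_Ico]

theorem RR_one {N : ℕ} {s : List ℕ} (hs : ∀ v ∈ s, v < N) {a : ℕ → ℝ} (ha : a ∈ Sx s) :
    RR N a 0 = 1 := by
  rw [RR_zero_eq]
  exact ((mem_Sx_iff (Finset.range N) (fun v hv => Sx_zero hs ha (by simpa using hv))).1 ha).2.2

/-- the characteristic map lands in the complex -/
theorem can_mem {N : ℕ} (hN : 0 < N) {s : List ℕ} (hs : ∀ v ∈ s, v < N) {a : ℕ → ℝ}
    (ha : a ∈ Sx s) {t : ℝ} (h0 : 0 ≤ t) (h3 : t ≤ 3) :
    ∃ k < 3, ∃ c < N, can N a t ∈ Sx (stair N k c s) := by
  have hR := RR_one hs ha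
  have hex : ∃ k : ℕ, k < 3 ∧ (k : ℝ) ≤ t ∧ t ≤ k + 1 := by
    by_cases h1 : t ≤ 1
    · exact ⟨0, by norm_num, by simpa using h0, by simpa using h1⟩
    · by_cases h2 : t ≤ 2
      · exact ⟨1, by norm_num, by push_cast; linarith, by push_cast; linarith⟩
      · exact ⟨2, by norm_num, by push_cast; linarith, by push_cast; linarith⟩
  obtain ⟨k, hk, hk1, hk2⟩ := hex
  obtain ⟨c, hc, hc1, hc2⟩ := exists_cut hN ha.1 (t - k) (by rw [hR]; linarith)
  refine ⟨k, hk, c, hc, ?_⟩
  have hsupp : ∀ v, v ∉ s → a v = 0 := ha.2.1
  have hhi : ∀ (τ : ℝ) v, v ∉ s → hi N a τ v = 0 := by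
    intro τ v hv
    have h1 := hi_nonneg (N := N) ha.1 τ v
    have h2 := hi_le (N := N) ha.1 τ v
    rw [hsupp v hv] at h2
    linarith
  -- values of the three layers
  have hz : ∀ (τ : ℝ), τ ≤ 0 → ∀ v, hi N a τ v = 0 := fun τ hτ v => hi_zero ha.1 hτ v
  have ho : ∀ (τ : ℝ), 1 ≤ τ → ∀ v < N, hi N a τ v = a v := fun τ hτ v hv =>
    hi_one ha.1 (by rw [hR]; exact hτ) hv
  refine (mem_Sx_iff (Finset.range (N + N + N)) (fun v hv => ?_)).2 ⟨?_, ?_, ?_⟩
  · simp only [Finset.mem_range, not_lt] at hv
    unfold can
    rw [if_neg (by omega), if_neg (by omega), if_neg (by omega)]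
  · intro w
    have hn := fun τ v => hi_nonneg (N := N) ha.1 τ v
    have hl := fun τ v => hi_le (N := N) ha.1 τ v
    by_cases hw : w < N
    · obtain ⟨e, -, -⟩ := can_blocks N a t hw
      rw [e]
      have := hn (t - 2) w
      have := hl t w
      linarith
    · by_cases hw2 : w < N + N
      · obtain ⟨v, rfl⟩ : ∃ v, w = N + v := ⟨w - N, by omega⟩
        have hv : v < N := by omega
        obtain ⟨-, e, -⟩ := can_blocks N a t hv
        rw [e]
        by_cases ht : t ≤ 1
        · rw [hz (t - 1) (by linarith)]
          have := hn t v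
          linarith
        · rw [ho t (by linarith) v hv]
          have := hl (t - 1) v
          linarith
      · by_cases hw3 : w < N + N + N
        · obtain ⟨v, rfl⟩ : ∃ v, w = N + N + v := ⟨w - (N + N), by omega⟩
          have hv : v < N := by omega
          obtain ⟨-, -, e⟩ := can_blocks N a t hv
          rw [e]
          by_cases ht : t ≤ 2
          · rw [hz (t - 2) (by linarith)]
            have := hn (t - 1) v
            linarith
          · rw [ho (t - 1) (by linarith) v hv]
            have := hl (t - 2) v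
            linarith
        · unfold can
          rw [if_neg hw, if_neg hw2, if_neg hw3]
  · intro w hw
    rw [mem_stair, not_or] at hw
    obtain ⟨hwl, hwr⟩ := hw
    push Not at hwl hwr
    by_cases hw1 : w < N
    · obtain ⟨e, -, -⟩ := can_blocks N a t hw1
      rw [e]
      by_cases hws : w ∈ s
      · interval_cases k
        · have h1 : c < w := by
            by_contra h
            exact hwl w hws (not_lt.1 h) (by simp [bs])
          have := hc1 w h1 hw1
          simp only [Nat.cast_zero, sub_zero] at this
          rw [this, hz (t - 2) (by push_cast at hk2; linarith)]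
          ring
        · push_cast at hk1 hk2
          rw [ho t (by linarith) w hw1, hz (t - 2) (by linarith)]
          ring
        · push_cast at hk1 hk2
          have h1 : w < c := by
            by_contra h
            exact hwr w hws (not_lt.1 h) (by simp [bs])
          have := hc2 w h1
          push_cast at this
          rw [ho t (by linarith) w hw1, this]
          ring
      · rw [hsupp w hws, hhi _ w hws, hhi _ w hws]; ring
    · by_cases hw2 : w < N + N
      · obtain ⟨v, rfl⟩ : ∃ v, w = N + v := ⟨w - N, by omega⟩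
        have hv : v < N := by omega
        obtain ⟨-, e, -⟩ := can_blocks N a t hv
        rw [e]
        by_cases hvs : v ∈ s
        · interval_cases k
          · have h1 : v < c := by
              by_contra h
              exact hwr v hvs (not_lt.1 h) (by simp [bs])
            have := hc2 v h1
            simp only [Nat.cast_zero, sub_zero] at this
            rw [this, hz (t - 1) (by push_cast at hk2; linarith)]
            ring
          · push_cast at hk1 hk2
            have h1 : c < v := by
              by_contra h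
              exact hwl v hvs (not_lt.1 h) (by simp [bs])
            have := hc1 v h1 hv
            push_cast at this
            rw [ho t (by linarith) v hv, this]
            ring
          · push_cast at hk1 hk2
            rw [ho t (by linarith) v hv, ho (t - 1) (by linarith) v hv]
            ring
        · rw [hhi _ v hvs, hhi _ v hvs]; ring
      · by_cases hw3 : w < N + N + N
        · obtain ⟨v, rfl⟩ : ∃ v, w = N + N + v := ⟨w - (N + N), by omega⟩
          have hv : v < N := by omega
          obtain ⟨-, -, e⟩ := can_blocks N a t hv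
          rw [e]
          by_cases hvs : v ∈ s
          · interval_cases k
            · push_cast at hk1 hk2
              rw [hz (t - 1) (by linarith), hz (t - 2) (by linarith)]
              ring
            · push_cast at hk1 hk2
              have h1 : v < c := by
                by_contra h
                exact hwr v hvs (not_lt.1 h) (by simp [bs])
              have := hc2 v h1
              push_cast at this
              rw [this, hz (t - 2) (by linarith)]
              ring
            · push_cast at hk1 hk2
              have h1 : c < v := by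
                by_contra h
                exact hwl v hvs (not_lt.1 h) (by simp [bs])
              have := hc1 v h1 hv
              push_cast at this
              rw [ho (t - 1) (by linarith) v hv, this]
              ring
          · rw [hhi _ v hvs, hhi _ v hvs]; ring
        · unfold can
          rw [if_neg hw1, if_neg hw2, if_neg hw3]
  · rw [can_sum, ← RR_zero_eq, hR]

end Pool.Agent.W995.CC
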