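import Pool.Agent.W995.CC.Cyl

/-!
Spaces obtained by attaching discs: the extension property for null-homotopies.
-/

set_option autoImplicit false

noncomputable section

namespace Pool.Agent.W995.CC

open unitInterval

variable {Γ K X X' T : Type} [TopologicalSpace Γ] [TopologicalSpace K] [TopologicalSpace X]
  [TopologicalSpace X'] [TopologicalSpace T]

/-- `X'` is obtained from `X`, up to expansions, by attaching a disc along the loop `p` -/
structure Disc {x0 : X} (i : C(X, X')) (p : Path x0 x0) where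
  Y : Type
  top : TopologicalSpace Y
  i1 : C(X, Y)
  i2 : C(Y, X')
  sdr : SDR i1
  φ : Path (i1 x0) (i1 x0)
  tri : Tri i2 φ
  comp : i2.comp i1 = i
  hφ : φ.Homotopic (p.map i1.continuous)

/-- Null-homotopies of the restriction to `Γ` of maps on `K` extend to `K` if `m` conditions on
their behaviour on the loops `ps j` are satisfied. -/
def DE (ι : C(Γ, K)) {x0 : Γ} (m : ℕ) (ps : ℕ → Path x0 x0) : Prop :=
  ∀ {T : Type} [TopologicalSpace T] (f : K → T) (hf : Continuous f),
    ∃ E : ∀ j < m, Path ((ps j).map (hf.comp ι.continuous)) (Path.refl (f (ι x0))),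
      ∀ n : NH (fun x => f (ι x)) x0 (f (ι x0)),
        (∀ j, ∀ hj : j < m, (n.push (ps j) ((ps j).map (hf.comp ι.continuous))
          (fun _ => rfl)).Homotopic (E j hj)) →
        ∃ n' : NH f (ι x0) (f (ι x0)), ∀ (ψ : Path x0 x0),
          (n'.push (ψ.map ι.continuous) (ψ.map (hf.comp ι.continuous)) (fun _ => rfl)).Homotopic
            (n.push ψ (ψ.map (hf.comp ι.continuous)) (fun _ => rfl))

theorem DE.nil {x0 : Γ} (ps : ℕ → Path x0 x0) : DE (ContinuousMap.id Γ) 0 ps := by
  intro T _ f hf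
  exact ⟨fun j hj => absurd hj (Nat.not_lt_zero j), fun n _ => ⟨n, fun ψ => .refl _⟩⟩

theorem cancel_left {Z : Type} [TopologicalSpace Z] {a b c : Z} {p : Path a b} {q r : Path b c}
    (h : (p.trans q).Homotopic (p.trans r)) : q.Homotopic r := by
  have h1 := (Path.Homotopic.refl p.symm).hcomp h
  exact ((Path.Homotopic.refl_trans q).symm.trans (((Path.Homotopic.symm_trans p).symm.hcomp
    (Path.Homotopic.refl q)).trans (Path.Homotopic.trans_assoc _ _ _))).trans (h1.trans
    (((Path.Homotopic.trans_assoc _ _ _).symm.trans ((Path.Homotopic.symm_trans p).hcomp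
    (Path.Homotopic.refl r))).trans (Path.Homotopic.refl_trans r)))

theorem DE.homotopic {ι : C(Γ, K)} {x0 : Γ} {m : ℕ} {ps qs : ℕ → Path x0 x0} (h : DE ι m ps)
    (hq : ∀ j < m, (qs j).Homotopic (ps j)) : DE ι m qs := by
  intro T _ f hf
  obtain ⟨E, hE⟩ := h f hf
  have hfi : Continuous fun x => f (ι x) := hf.comp ι.continuous
  choose Ψ _ using fun j (hj : j < m) => (⟨(hq j hj).some, trivial⟩ :
    ∃ _ : (qs j).Homotopy (ps j), True)
  refine ⟨fun j hj => (mapPP (a' := f (ι x0)) (b' := f (ι x0)) hfi (toPP (Ψ j hj))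
    (P := (qs j).map (hf.comp ι.continuous)) (Q := (ps j).map (hf.comp ι.continuous))
    (fun _ => rfl) (fun _ => rfl) rfl rfl).trans (E j hj), fun n hn => hE n fun j hj => ?_⟩
  have h1 := n.push_homotopy hfi rfl (toPP (Ψ j hj)) ((qs j).map (hf.comp ι.continuous))
    ((ps j).map (hf.comp ι.continuous)) (fun _ => rfl) (fun _ => rfl)
  exact cancel_left (h1.symm.trans (hn j hj))

/-- attaching one more disc -/
theorem DE.step {ι : C(Γ, K)} {x0 : Γ} {m : ℕ} {ps : ℕ → Path x0 x0} (h : DE ι m ps)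
    {i : C(K, X')} (D : Disc i ((ps m).map ι.continuous)) : DE (i.comp ι) (m + 1) ps := by
  obtain ⟨Y, top, i1, i2, sdr, φ, tri, comp, hφ⟩ := D
  subst comp
  intro T _ f hf
  have hf2 : Continuous fun y => f (i2 y) := hf.comp i2.continuous
  have hf1 : Continuous fun x => f (i2 (i1 x)) := hf2.comp i1.continuous
  have hf0 : Continuous fun x => f (i2 (i1 (ι x))) := hf1.comp ι.continuous
  obtain ⟨E, hE⟩ := h (fun x => f (i2 (i1 x))) hf1
  obtain ⟨Ψ⟩ := hφ
  let Pm : Path (f (i2 (i1 (ι x0)))) (f (i2 (i1 (ι x0)))) := (ps m).map hf0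
  let Pφ : Path (f (i2 (i1 (ι x0)))) (f (i2 (i1 (ι x0)))) := φ.map hf2
  let MΨ : Path Pφ Pm := mapPP hf2 (toPP Ψ) (fun _ => rfl) (fun _ => rfl) rfl rfl
  let MD : Path Pφ (Path.refl _) := mapPP hf tri.D (fun _ => rfl) (fun _ => rfl) rfl rfl
  let Em : Path Pm (Path.refl _) := MΨ.symm.trans MD
  refine ⟨fun j hj => if hjm : j < m then E j hjm else
    (Em.cast (by rw [show j = m by omega]) rfl), fun n hn => ?_⟩
  obtain ⟨n1, hn1⟩ := hE n (fun j hj => by
    have := hn j (by omega)
    simp only [dif_pos hj] at this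
    exact this)
  have hnm : (n.push (ps m) Pm (fun _ => rfl)).Homotopic Em := by
    have := hn m (by omega)
    simp only [dif_neg (lt_irrefl m)] at this
    exact this
  have hn2 := fun (χ : Path (ι x0) (ι x0)) (P : Path (f (i2 (i1 (ι x0)))) (f (i2 (i1 (ι x0))))) hP =>
    sdr.push_nh (f := fun y => f (i2 y)) hf2 (t0 := f (i2 (i1 (ι x0)))) rfl n1 χ P hP hP
  obtain ⟨n3, hn3⟩ := tri.extend hf rfl (sdr.nh (f := fun y => f (i2 y)) hf2 rfl n1) Pφ
    (fun _ => rfl) (by
      refine (NH.push_homotopy hf2 rfl _ (toPP Ψ) Pφ Pm (fun _ => rfl) (fun _ => rfl)).trans ?_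
      have e1 := hn2 ((ps m).map ι.continuous) Pm (fun _ => rfl)
      have e2 := hn1 (ps m)
      have e3 := (e1.trans e2).trans hnm
      refine ((Path.Homotopic.refl MΨ).hcomp e3).trans ?_
      refine (Path.Homotopic.trans_assoc _ _ _).symm.trans ?_
      exact ((Path.Homotopic.trans_symm MΨ).hcomp (.refl _)).trans (Path.Homotopic.refl_trans _))
  refine ⟨n3, fun ψ => ?_⟩
  have e1 := hn3 ((ψ.map ι.continuous).map i1.continuous) (ψ.map hf0) (fun _ => rfl)
  have e2 := hn2 (ψ.map ι.continuous) (ψ.map hf0) (fun _ => rfl)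
  have e3 := hn1 ψ
  exact e1.trans (e2.trans e3)

/-- the boundary of an attached disc is contractible -/
theorem Disc.contr {x0 : X} {i : C(X, X')} {p : Path x0 x0} (D : Disc i p) :
    (p.map i.continuous).Homotopic (Path.refl (i x0)) := by
  obtain ⟨Y, top, i1, i2, sdr, φ, tri, comp, hφ⟩ := D
  subst comp
  have h1 : (φ.map i2.continuous).Homotopic ((p.map i1.continuous).map i2.continuous) :=
    hφ.map i2
  refine h1.symm.trans ?_
  have hD : Continuous fun q : I × I => tri.D q.1 q.2 := by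
    have h : Continuous fun p : Path (i2 (i1 x0)) (i2 (i1 x0)) × I => p.1 p.2 := by fun_prop
    exact h.comp ((tri.D.continuous.comp continuous_fst).prodMk continuous_snd)
  refine ⟨⟨⟨⟨fun q => tri.D q.1 q.2, hD⟩, ?_, ?_⟩, ?_⟩⟩
  · intro t; simp
  · intro t; simp
  · intro t s hs
    rcases hs with rfl | hs
    · simp
    · rw [Set.mem_singleton_iff] at hs
      subst hs
      simp

end Pool.Agent.W995.CC
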