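import Pool.Agent.W995.CC.Comp

/-!
The dimension of the complex.
-/

set_option autoImplicit false

noncomputable section

namespace Pool.Agent.W995.CC

/-- all simplices have at most `d` vertices, listed without repetition -/
def nd (d : ℕ) (L : List (List ℕ)) : Prop := ∀ s ∈ L, s.Nodup ∧ s.length ≤ d

theorem nd.mono {d e : ℕ} (h : d ≤ e) {L : List (List ℕ)} (hL : nd d L) : nd e L :=
  fun s hs => ⟨(hL s hs).1, (hL s hs).2.trans h⟩

theorem nd_cons {d : ℕ} {s : List ℕ} {L : List (List ℕ)} :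
    nd d (s :: L) ↔ (s.Nodup ∧ s.length ≤ d) ∧ nd d L := by
  unfold nd
  simp

theorem filt_len (c : ℕ) (s : List ℕ) : (s.filter fun u => decide (u ≤ c)).length +
    (s.filter fun u => decide (c ≤ u)).length ≤ s.length + s.count c := by
  induction s with
  | nil => simp
  | cons a s ih =>
    rw [List.count_cons, List.filter_cons, List.filter_cons, List.length_cons]
    rcases lt_trichotomy a c with h | h | h
    · have h1 : ¬ c ≤ a := by omega
      have h2 : a ≤ c := by omega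
      have h3 : ¬ a = c := by omega
      simp only [h1, h2, decide_true, decide_false, if_true, List.length_cons]
      simp [h3]
      omega
    · subst h
      simp
      omega
    · have h1 : c ≤ a := by omega
      have h2 : ¬ a ≤ c := by omega
      have h3 : ¬ a = c := by omega
      simp only [h1, h2, decide_true, decide_false, if_true, List.length_cons]
      simp [h3]
      omega

theorem nd_cyl {d N : ℕ} {B : List (List ℕ)} (hB : bdd N B) (h : nd d B) :
    nd (d + 1) (cyl N B) := by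
  intro t ht
  obtain ⟨s, hs, k, hk, c, hc, rfl⟩ := mem_cyl.1 ht
  obtain ⟨h1, h2⟩ := h s hs
  constructor
  · unfold stair
    rw [List.nodup_append]
    refine ⟨?_, ?_, ?_⟩
    · exact (List.nodup_map_iff (add_right_injective _)).2 (h1.filter _)
    · exact (List.nodup_map_iff (add_right_injective _)).2 (h1.filter _)
    · intro a ha b hb hab
      subst hab
      obtain ⟨u, hu, e1⟩ := List.mem_map.1 ha
      obtain ⟨v, hv, e2⟩ := List.mem_map.1 hb
      have hu' := hB s hs u (List.mem_filter.1 hu).1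
      have hv' := hB s hs v (List.mem_filter.1 hv).1
      have hk3 : k = 0 ∨ k = 1 ∨ k = 2 := by omega
      rcases hk3 with rfl | rfl | rfl <;> simp [bs] at e1 e2 <;> omega
  · unfold stair
    rw [List.length_append, List.length_map, List.length_map]
    have h3 := filt_len c s
    have h4 := List.nodup_iff_count_le_one.1 h1 c
    omega

theorem nd_append {d : ℕ} {L L' : List (List ℕ)} (h : nd d L) (h' : nd d L') : nd d (L ++ L') := by
  intro s hs
  rcases List.mem_append.1 hs with hs | hs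
  · exact h s hs
  · exact h' s hs

theorem nd_mcyl {d N : ℕ} {B : List (List ℕ)} (hB : bdd N B) (h : nd d B) (k : ℕ) :
    nd (d + 1) (mcyl B N k) := by
  induction k with
  | zero => exact h.mono (by omega)
  | succ k ih =>
    exact nd_append (nd_cyl (hB.mono (Nat.le_mul_of_pos_left _ (by positivity))) h) ih

theorem nd_collar {d z : ℕ} (hd : 3 ≤ d) (vs : List ℕ) {v w : ℕ} {L : List (List ℕ)}
    (hzw : z < w) (hvz : v < z) (hp : proper z v vs) (h : nd d L) : nd d (collar z v w vs L) := by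
  induction vs generalizing v w L with
  | nil => exact h
  | cons v' vs ih =>
    obtain ⟨hvv, hv'z, hp'⟩ := hp
    refine ih (by omega) hv'z hp' ?_
    rw [nd_cons, nd_cons, nd_cons]
    refine ⟨⟨?_, ?_⟩, ⟨?_, ?_⟩, ⟨?_, ?_⟩, h⟩
    · simp; omega
    · simpa using hd
    · simp; omega
    · simpa using hd
    · simp; omega
    · simpa using hd

theorem nd_disc {d N : ℕ} (hd : 3 ≤ d) {vs : List ℕ} {L : List (List ℕ)} (hN : 0 < N)
    (hp : proper N 0 vs) (h : nd d L) : nd d (disc N vs L) := by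
  unfold disc
  rw [nd_cons]
  refine ⟨⟨?_, ?_⟩, nd_collar hd vs (by omega) hN hp ?_⟩
  · simp; omega
  · simpa using hd
  · rw [nd_cons, nd_cons]
    refine ⟨⟨?_, ?_⟩, ⟨?_, ?_⟩, h⟩
    · simp; omega
    · simpa using hd
    · simp; omega
    · simp; omega

theorem nd_dall {d : ℕ} (hd : 3 ≤ d) {vss : ℕ → List ℕ} {N : ℕ} {L : List (List ℕ)} (hN : 0 < N)
    (h : nd d L) {J : ℕ} (hp : ∀ j < J, proper N 0 (vss j)) : nd d (dall vss (N, L) J).2 := by
  induction J with
  | zero => exact h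
  | succ J ih =>
    have hle : N ≤ (dall vss (N, L) J).1 := dall_le vss (N, L) J
    exact nd_disc hd (hN.trans_le hle) ((hp J (by omega)).mono hle) (ih fun j hj => hp j (by omega))

theorem nd_Yc {n J : ℕ} {c : ℕ → List (ℕ × Bool)} {k : ℕ} {g : ℕ → ℕ}
    (hidx : ∀ j < J, ∀ l ∈ c j, l.1 < n) (hg : ∀ s < k, g s < n) : nd 4 (Yc n J c k g).2 := by
  have hΓb : bdd (3 ^ n * 1) (mcyl P0 1 n) := mcyl_bdd P0_bdd n
  have hn0 : 0 < 3 ^ n * 1 := by positivity
  have h0 : nd 1 P0 := by
    intro s hs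
    simp only [P0, List.mem_singleton] at hs
    subst hs
    simp
  have h1 : nd 2 (mcyl P0 1 n) := nd_mcyl P0_bdd h0 n
  have hp1 : ∀ j < J, proper (3 ^ n * 1) 0 (vl 1 (c j)) := fun j hj => vl_proper one_pos (hidx j hj)
  have h2 : nd 3 (Kc n J c).2 := nd_dall le_rfl hn0 (h1.mono (by omega)) hp1
  have hKb : bdd (Kc n J c).1 (Kc n J c).2 := dall_bdd hn0 hΓb hp1
  have h3 : nd 4 (mcyl (Kc n J c).2 (Kc n J c).1 k) := nd_mcyl hKb h2 k
  have hNK : 3 ^ n * 1 ≤ (Kc n J c).1 := dall_le (fun j => vl 1 (c j)) (3 ^ n * 1, mcyl P0 1 n) J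
  have hNK0 : 0 < (Kc n J c).1 := hn0.trans_le hNK
  refine nd_dall (by omega) (by positivity) h3 fun s hs => ?_
  have a1 : 3 ^ (s + 1) ≤ 3 ^ k := Nat.pow_le_pow_right (by norm_num) hs
  have a2 : 0 < 3 ^ s * (Kc n J c).1 := by positivity
  have a3 : 3 ^ (s + 1) * (Kc n J c).1 ≤ 3 ^ k * (Kc n J c).1 := Nat.mul_le_mul_right _ a1
  have a4 : 3 ^ (s + 1) * (Kc n J c).1 = 3 ^ s * (Kc n J c).1 + 3 ^ s * (Kc n J c).1 +
    3 ^ s * (Kc n J c).1 := by ring
  have b1 : 3 ^ (g s + 1) ≤ 3 ^ n := Nat.pow_le_pow_right (by norm_num) (hg s hs)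
  have b2 : 0 < 3 ^ (g s) * 1 := by positivity
  have b4 : 3 ^ (g s + 1) = 3 ^ (g s) * 1 + 3 ^ (g s) * 1 + 3 ^ (g s) * 1 := by ring
  have b5 : (Kc n J c).1 ≤ 3 ^ k * (Kc n J c).1 := Nat.le_mul_of_pos_left _ (by positivity)
  show proper (3 ^ k * (Kc n J c).1) 0 ([3 ^ s * (Kc n J c).1,
    3 ^ s * (Kc n J c).1 + 3 ^ s * (Kc n J c).1, 0] ++
    [3 ^ (g s) * 1 + 3 ^ (g s) * 1, 3 ^ (g s) * 1, 0])
  refine ⟨by omega, by omega, by omega, by omega, by omega, by omega,
    by omega, by omega, by omega, by omega, by omega, by omega, trivial⟩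

theorem nd_Ycx {m : ℕ} {rs : List (List (ℕ × Bool))} {w : List (ℕ × Bool)}
    (hw : ∀ l ∈ w, l.1 < m) (hrs : ∀ r ∈ rs, ∀ l ∈ r, l.1 < m) : nd 4 (Ycx m rs w) :=
  nd_Yc (cW_idx hw hrs) fun s hs => by omega

end Pool.Agent.W995.CC
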