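import Pool.Agent.W995.CC.Col

/-!
The disc structure.
-/

set_option autoImplicit false

noncomputable section

namespace Pool.Agent.W995.CC

open unitInterval

/-- attaching a disc along the closed edge path `vs` at `0` -/
def disc (N : ℕ) (vs : List ℕ) (L : List (List ℕ)) : List (List ℕ) :=
  [0, N, N + 1 + vs.length] :: collar N 0 (N + 1) vs ([0, N, N + 1] :: [0, N] :: L)

theorem collar_mem {z : ℕ} (vs : List ℕ) {v w : ℕ} {L : List (List ℕ)} {s : List ℕ} (hs : s ∈ L) :
    s ∈ collar z v w vs L := by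
  induction vs generalizing v w L with
  | nil => exact hs
  | cons v' vs ih => exact ih (by simp [hs])

theorem disc_mem {N : ℕ} {vs : List ℕ} {L : List (List ℕ)} : ∀ s ∈ L, s ∈ disc N vs L := by
  intro s hs
  exact List.mem_cons_of_mem _ (collar_mem vs (by simp [hs]))

theorem disc_bdd {N : ℕ} {vs : List ℕ} {L : List (List ℕ)} (hN : 0 < N) (hL : bdd N L)
    (hp : proper N 0 vs) : bdd (N + 2 + vs.length) (disc N vs L) := by
  have h : ∀ (vs : List ℕ) (v w : ℕ) (L : List (List ℕ)), v < N → N < w → proper N v vs →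
      bdd (w + 1) L → bdd (w + 1 + vs.length) (collar N v w vs L) := by
    intro vs
    induction vs with
    | nil => intro v w L _ _ _ h; exact h
    | cons v' vs ih =>
      intro v w L hv hw hp hb
      have := ih v' (w + 1) ([N, w, w + 1] :: [v, v', w + 1] :: [v, w, w + 1] :: L) hp.2.1
        (by omega) hp.2.2 (by
          have := hp.2.1
          rw [bdd_cons, bdd_cons, bdd_cons]
          refine ⟨?_, ?_, ?_, hb.mono (by omega)⟩
          · intro x hx; simp at hx; omega
          · intro x hx; simp at hx; omega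
          · intro x hx; simp at hx; omega)
      have e : w + 1 + (v' :: vs).length = w + 1 + 1 + vs.length := by
        rw [List.length_cons]; omega
      rw [e]
      exact this
  unfold disc
  rw [bdd_cons]
  refine ⟨?_, ?_⟩
  · intro x hx; simp at hx; omega
  · have := h vs 0 (N + 1) ([0, N, N + 1] :: [0, N] :: L) hN (by omega) hp (by
      rw [bdd_cons, bdd_cons]
      refine ⟨?_, ?_, hL.mono (by omega)⟩
      · intro x hx; simp at hx; omega
      · intro x hx; simp at hx; omega)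
    exact this

theorem mkDisc {L K : List (List ℕ)} {vs : List ℕ} {z w w0 : ℕ} (hsub : ∀ s ∈ L, s ∈ K)
    (hSD : SD (Re L) (Re K)) (hc : chain L 0 vs 0) (p : Path (pt L 0 hc.start) (pt L 0 hc.start))
    (hmk : Path.Homotopic.Quotient.mk p = ep L 0 vs 0 hc) (t0 : adj3 K 0 z w0)
    (t0' : adj3 K 0 w0 0) (h4 : adj K z w) (h5 : adj K w 0) (hcK : chain K 0 vs 0)
    (h6 : (sq K z w0 t0.bc).trans ((sq K w0 0 t0'.bc).trans (ep K 0 vs 0 hcK)) =
      (sq K z w h4).trans (sq K w 0 h5)) (hn : ¬ adj3 K 0 z w) (h0z : 0 ≠ z) (h0w : 0 ≠ w)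
    (hzw : z ≠ w) :
    Nonempty (Disc (inc (Re_mono (L' := [0, z, w] :: K)
      (fun s hs => List.mem_cons_of_mem _ (hsub s hs)))) p) := by
  have key : (sq K 0 z t0.ab).trans ((sq K z w h4).trans (sq K w 0 h5)) = ep K 0 vs 0 hcK := by
    rw [← h6, ← Path.Homotopic.Quotient.trans_assoc, sq_tri t0,
      ← Path.Homotopic.Quotient.trans_assoc]
    have e1 : (sq K 0 w0 t0.ac).trans (sq K w0 0 t0'.bc) = .refl _ := by
      rw [← sq_self t0'.ac]
      exact sq_tri t0'
    rw [e1]
    exact Path.Homotopic.Quotient.refl_trans _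
  have hmk2 : (Path.Homotopic.Quotient.mk p).map (inc (Re_mono hsub)) = ep K 0 vs 0 hcK := by
    rw [hmk]; exact ep_map hsub hc
  have hφ : (bl h0z h0w hzw t0.ab h4 h5).Homotopic (p.map (inc hSD.1).continuous) := by
    refine (bl_eq h0z h0w hzw t0.ab h4 h5).trans ?_
    exact Path.Homotopic.Quotient.eq.1 (key.trans hmk2.symm)
  exact ⟨{
    Y := Re K
    top := inferInstance
    i1 := inc hSD.1
    i2 := inc (Re_sub [0, z, w] K)
    sdr := hSD.sdr
    φ := bl h0z h0w hzw t0.ab h4 h5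
    tri := triS h0z h0w hzw t0.ab h4 h5 hn
    comp := rfl
    hφ := hφ }⟩

theorem disc_exists {N : ℕ} {vs : List ℕ} {L : List (List ℕ)} (hN : 0 < N) (hL : bdd N L)
    (hc : chain L 0 vs 0) (hvs : vs ≠ []) (hp : proper N 0 vs)
    (p : Path (pt L 0 hc.start) (pt L 0 hc.start))
    (hmk : Path.Homotopic.Quotient.mk p = ep L 0 vs 0 hc) :
    Nonempty (Disc (inc (Re_mono (disc_mem (N := N) (vs := vs) (L := L)))) p) := by
  have h00 : adj L 0 0 := hc.start
  have s1 : SD (Re L) (Re ([0, N] :: L)) := SD_edge (by omega) h00 (hL.not_adj le_rfl)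
  have s2 : SD (Re ([0, N] :: L)) (Re ([0, N, N + 1] :: [0, N] :: L)) := by
    refine SD_new (by omega) (by omega) (by omega) ⟨[0, N], by simp, by simp, by simp⟩ ?_
    rw [adj_cons]
    rintro (⟨h, -⟩ | h)
    · simp at h
    · exact hL.not_adj (by omega) h
  set L0 := [0, N, N + 1] :: [0, N] :: L with hL0
  have m1 : [0, N, N + 1] ∈ L0 := by rw [hL0]; simp
  have hsub : ∀ s ∈ L, s ∈ L0 := fun s hs => by rw [hL0]; simp [hs]
  have hb0 : bdd (N + 1 + 1) L0 := by
    rw [hL0, bdd_cons, bdd_cons]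
    refine ⟨?_, ?_, hL.mono (by omega)⟩
    · intro x hx; simp at hx; omega
    · intro x hx; simp at hx; omega
  obtain ⟨c1, c2, c3, c4, c5⟩ := collar_spec (z := N) vs (v := 0) (w := N + 1) (L := L0)
    (by omega) hN hp ⟨_, m1, by simp, by simp⟩ ⟨_, m1, by simp, by simp⟩ hb0 (hc.mono hsub)
  have hd : disc N vs L = [0, N, N + 1 + vs.length] :: collar N 0 (N + 1) vs L0 := rfl
  have hsub' : ∀ s ∈ L, s ∈ collar N 0 (N + 1) vs L0 := fun s hs => c2 s (hsub s hs)
  have hcK : chain (collar N 0 (N + 1) vs L0) 0 vs 0 := hc.mono hsub'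
  have t0 : adj3 (collar N 0 (N + 1) vs L0) 0 N (N + 1) := ⟨_, c2 _ m1, by simp, by simp, by simp⟩
  have t0' : adj3 (collar N 0 (N + 1) vs L0) 0 (N + 1) 0 :=
    ⟨_, c2 _ m1, by simp, by simp, by simp⟩
  obtain ⟨h4, h5, h6⟩ := c5 t0.bc t0'.bc hcK
  have c4' := c4 hvs
  have hSD : SD (Re L) (Re (collar N 0 (N + 1) vs L0)) := s1.trans (s2.trans c1)
  have hne1 : (0 : ℕ) ≠ N := by omega
  have hne2 : (0 : ℕ) ≠ N + 1 + vs.length := by omega
  have hne3 : N ≠ N + 1 + vs.length := by omega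
  exact mkDisc hsub' hSD hc p hmk t0 t0' h4 h5 hcK h6 c4' hne1 hne2 hne3

end Pool.Agent.W995.CC
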