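import Pool.Agent.W995.CC.Loops

/-!
Expansions: horns and hanging edges.
-/

set_option autoImplicit false

noncomputable section

namespace Pool.Agent.W995.CC

open unitInterval

theorem SD_gen {L : List (List ℕ)} {s : List ℕ} (m : C(ℕ → ℝ, ℝ)) (d : ℕ → ℝ)
    (h0 : ∀ y ∈ Re L, m y = 0)
    (h1 : ∀ y ∈ Sx s, ∀ t : I, (fun v => y v + t * (m y * d v)) ∈ Sx s)
    (h2 : ∀ y ∈ Sx s, (fun v => y v + (1 : ℝ) * (m y * d v)) ∈ Re L) :
    SD (Re L) (Re (s :: L)) := by
  have hmem : ∀ y ∈ Re (s :: L), y ∈ Sx s ∨ y ∈ Re L := by
    intro y hy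
    rw [Re_cons] at hy
    exact hy
  have hfix : ∀ y ∈ Re L, ∀ t : ℝ, (fun v => y v + t * (m y * d v)) = y := by
    intro y hy t
    funext v
    rw [h0 y hy]; ring
  refine ⟨fun x hx => by rw [Re_cons]; exact Or.inr hx,
    ⟨fun p v => p.1 v + p.2 * (m p.1 * d v), ?_⟩, ?_, ?_, ?_, ?_⟩
  · refine continuous_pi fun v => ?_
    fun_prop
  · intro y
    funext v
    simp
  · intro y hy t
    rcases hmem y hy with hy1 | hy1
    · rw [Re_cons]
      exact Or.inl (h1 y hy1 t)
    · show (fun v => y v + t * (m y * d v)) ∈ _
      rw [hfix y hy1]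
      exact hy
  · intro y hy
    show (fun v => y v + ((1 : I) : ℝ) * (m y * d v)) ∈ _
    rw [Set.Icc.coe_one]
    rcases hmem y hy with hy1 | hy1
    · exact h2 y hy1
    · rw [hfix y hy1]
      exact hy1
  · intro x hx t
    exact hfix x hx t

theorem dl_same (a : ℕ) : dl a a = 1 := by simp [dl]
theorem dl_ne {a b : ℕ} (h : b ≠ a) : dl a b = 0 := by simp [dl, h]

/-- a hanging edge -/
theorem SD_edge {L : List (List ℕ)} {a c : ℕ} (hac : a ≠ c) (h : adj L a a) (hc : ¬ adj L c c) :
    SD (Re L) (Re ([a, c] :: L)) := by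
  refine SD_gen ⟨fun y => y c, by fun_prop⟩ (fun v => dl a v - dl c v) ?_ ?_ ?_
  · intro y hy
    by_contra h
    exact hc (supp_adj hy h h)
  · intro y hy t
    rw [mem_Sx2 hac] at hy ⊢
    obtain ⟨p1, p2, p3⟩ := hy
    have ht0 := t.2.1
    have ht1 := t.2.2
    refine ⟨fun v => ?_, fun v hva hvc => ?_, ?_⟩
    · show 0 ≤ y v + t * (y c * (dl a v - dl c v))
      by_cases hv : v = c
      · subst hv
        rw [dl_ne hac.symm, dl_same]
        have := p1 v
        nlinarith
      · rw [dl_ne hv]
        by_cases hv2 : v = a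
        · subst hv2
          rw [dl_same]
          have := p1 v
          have := p1 c
          rw [sub_zero]
          positivity
        · rw [dl_ne hv2]
          have := p1 v
          rw [sub_zero, mul_zero, mul_zero, add_zero]
          exact this
    · show y v + t * (y c * (dl a v - dl c v)) = 0
      rw [p2 v hva hvc, dl_ne hva, dl_ne hvc]
      ring
    · show (y a + t * (y c * (dl a a - dl c a))) + (y c + t * (y c * (dl a c - dl c c))) = 1
      rw [dl_same, dl_same, dl_ne hac, dl_ne hac.symm]
      linarith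
  · intro y hy
    rw [mem_Sx2 hac] at hy
    obtain ⟨p1, p2, p3⟩ := hy
    have : (fun v => y v + 1 * (y c * (dl a v - dl c v))) = dl a := by
      funext v
      by_cases hv : v = c
      · subst hv
        rw [dl_ne hac.symm, dl_same]
        ring
      · rw [dl_ne hv]
        by_cases hv2 : v = a
        · subst hv2
          rw [dl_same]
          linarith
        · rw [dl_ne hv2, p2 v hv2 hv]
          ring
    show (fun v => y v + 1 * (y c * (dl a v - dl c v))) ∈ _
    rw [this]
    exact (pt L a h).2

/-- a horn with the middle vertex `b` -/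
theorem SD_horn {L : List (List ℕ)} {a b c : ℕ} (hab : a ≠ b) (hac : a ≠ c) (hbc : b ≠ c)
    (h : adj L a b) (h' : adj L b c) (hn : ¬ adj L a c) : SD (Re L) (Re ([a, b, c] :: L)) := by
  have hd : ∀ v, (2 * dl b v - dl a v - dl c v) = if v = b then 2 else
      if v = a then -1 else if v = c then -1 else 0 := by
    intro v
    by_cases h1 : v = b
    · subst h1
      rw [dl_same, dl_ne hab.symm, dl_ne hbc]
      simp
    · by_cases h2 : v = a
      · subst h2
        rw [dl_same, dl_ne h1, dl_ne hac]
        simp [h1]
      · by_cases h3 : v = c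
        · subst h3
          rw [dl_same, dl_ne h1, dl_ne h2]
          simp [h1, h2]
        · rw [dl_ne h1, dl_ne h2, dl_ne h3]
          simp [h1, h2, h3]
  refine SD_gen ⟨fun y => min (y a) (y c), by fun_prop⟩ (fun v => 2 * dl b v - dl a v - dl c v)
    ?_ ?_ ?_
  · intro y hy
    show min (y a) (y c) = 0
    obtain ⟨s, hs, hy'⟩ := id hy
    by_contra h
    have ha := hy'.1 a
    have hc := hy'.1 c
    refine hn (supp_adj hy (fun h1 => h ?_) fun h1 => h ?_)
    · rw [h1]; exact min_eq_left hc
    · rw [h1]; exact min_eq_right ha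
  · intro y hy t
    rw [mem_Sx3 hab hac hbc] at hy ⊢
    obtain ⟨p1, p2, p3⟩ := hy
    have ht0 := t.2.1
    have ht1 := t.2.2
    show (∀ v, 0 ≤ y v + t * (min (y a) (y c) * (2 * dl b v - dl a v - dl c v))) ∧
      (∀ v, v ≠ a → v ≠ b → v ≠ c →
        y v + t * (min (y a) (y c) * (2 * dl b v - dl a v - dl c v)) = 0) ∧
      (y a + t * (min (y a) (y c) * (2 * dl b a - dl a a - dl c a))) +
      (y b + t * (min (y a) (y c) * (2 * dl b b - dl a b - dl c b))) +
      (y c + t * (min (y a) (y c) * (2 * dl b c - dl a c - dl c c))) = 1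
    have m0 : 0 ≤ min (y a) (y c) := le_min (p1 a) (p1 c)
    have ma : min (y a) (y c) ≤ y a := min_le_left _ _
    have mc : min (y a) (y c) ≤ y c := min_le_right _ _
    generalize min (y a) (y c) = m at m0 ma mc
    have tm : (t : ℝ) * m ≤ m := by nlinarith
    have tm0 : 0 ≤ (t : ℝ) * m := by positivity
    refine ⟨fun v => ?_, fun v hva hvb hvc => ?_, ?_⟩
    · rw [hd]
      have := p1 v
      split_ifs with h1 h2 h3
      · positivity
      · subst h2; nlinarith
      · subst h3; nlinarith
      · simpa using this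
    · rw [hd, p2 v hva hvb hvc]
      simp [hva, hvb, hvc]
    · simp only [hd, hab, hab.symm, hbc.symm, if_true, if_false, hac.symm, if_pos]
      linarith
  · intro y hy
    rw [mem_Sx3 hab hac hbc] at hy
    obtain ⟨p1, p2, p3⟩ := hy
    show (fun v => y v + (1 : ℝ) * (min (y a) (y c) * (2 * dl b v - dl a v - dl c v))) ∈ _
    simp only [hd]
    rcases le_total (y a) (y c) with hle | hle
    · rw [min_eq_left hle]
      apply Sx2_mem h'
      rw [mem_Sx2 hbc]
      refine ⟨fun v => ?_, fun v hvb hvc => ?_, ?_⟩
      · show 0 ≤ _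
        have := p1 v
        have := p1 a
        simp only [one_mul]
        split_ifs with h1 h2 h3
        · positivity
        · subst h2; linarith
        · subst h3; linarith
        · simpa using p1 v
      · show y v + 1 * (y a * _) = 0
        rw [if_neg hvb]
        by_cases hva : v = a
        · subst hva
          simp
        · simp [hva, hvc, p2 v hva hvb hvc]
      · show (y b + 1 * (y a * _)) + (y c + 1 * (y a * _)) = 1
        simp only [hbc.symm, hac.symm, if_true, if_false]
        linarith
    · rw [min_eq_right hle]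
      apply Sx2_mem h
      rw [mem_Sx2 hab]
      refine ⟨fun v => ?_, fun v hva hvb => ?_, ?_⟩
      · show 0 ≤ _
        have := p1 v
        have := p1 c
        simp only [one_mul]
        split_ifs with h1 h2 h3
        · positivity
        · subst h2; linarith
        · subst h3; linarith
        · simpa using p1 v
      · show y v + 1 * (y c * _) = 0
        rw [if_neg hvb, if_neg hva]
        by_cases hvc : v = c
        · subst hvc
          simp
        · simp [hvc, p2 v hva hvb hvc]
      · show (y a + 1 * (y c * _)) + (y b + 1 * (y c * _)) = 1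
        simp only [hab, if_true, if_false]
        linarith

end Pool.Agent.W995.CC
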