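import Mathlib

/-!
The gadget group: `y1 y2 y1⁻¹ = y2 ^ 2`, `y2 y3 y2⁻¹ = y3 ^ 2` with `y1`, `y3` free.
-/

set_option autoImplicit false

noncomputable section

namespace Pool.Agent.W995.CC.GT

open Monoid

/-- scaling by `2` -/
def sP : Equiv.Perm ℚ := MulAction.toPermHom ℚˣ ℚ (Units.mk0 2 (by norm_num))
/-- translation by `1` -/
def tP : Equiv.Perm ℚ := Equiv.addRight (1 : ℚ)

theorem sP_zpow (n : ℤ) (x : ℚ) : (sP ^ n) x = 2 ^ n * x := by
  unfold sP
  rw [← map_zpow]
  show ((Units.mk0 (2 : ℚ) (by norm_num)) ^ n) • x = _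
  rw [Units.smul_def, Units.val_zpow_eq_zpow_val]
  rfl

theorem tP_zpow (n : ℤ) (x : ℚ) : (tP ^ n) x = x + n := by
  have h1 : ∀ x, tP x = x + 1 := fun x => rfl
  have h2 : ∀ x, tP⁻¹ x = x - 1 := fun x => by
    rw [Equiv.Perm.inv_eq_iff_eq, h1]; ring
  induction n using Int.induction_on generalizing x with
  | zero => simp
  | succ n ih =>
    rw [zpow_add_one]
    show (tP ^ (n : ℤ)) (tP x) = _
    rw [ih, h1]; push_cast; ring
  | pred n ih =>
    rw [zpow_sub_one]
    show (tP ^ (-n : ℤ)) (tP⁻¹ x) = _
    rw [ih, h2]; push_cast; ring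

theorem st_rel : sP * tP * sP⁻¹ = tP * tP := by
  rw [mul_inv_eq_iff_eq_mul]
  ext x
  show sP (tP x) = tP (tP (sP x))
  have h1 : ∀ x, sP x = 2 * x := fun x => by simpa using sP_zpow 1 x
  have h2 : ∀ x, tP x = x + 1 := fun x => by simpa using tP_zpow 1 x
  rw [h1, h2, h2, h2, h1]
  ring

theorem s_inj {n : ℤ} (h : sP ^ n = 1) : n = 0 := by
  have h1 : (sP ^ n) 1 = 1 := by rw [h]; rfl
  rw [sP_zpow, mul_one] at h1
  have := zpow_right_injective₀ (a := (2 : ℚ)) (by norm_num) (by norm_num)
  exact this (h1.trans (zpow_zero 2).symm)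

theorem t_inj {n : ℤ} (h : tP ^ n = 1) : n = 0 := by
  have h1 : (tP ^ n) 0 = 0 := by rw [h]; rfl
  rw [tP_zpow, zero_add] at h1
  exact_mod_cast h1

theorem st_disj {a n : ℤ} (h : sP ^ a = tP ^ n) : a = 0 ∧ n = 0 := by
  have h1 : (sP ^ a) 0 = (tP ^ n) 0 := by rw [h]
  rw [sP_zpow, tP_zpow, mul_zero, zero_add] at h1
  have h2 : n = 0 := by exact_mod_cast h1.symm
  subst h2
  exact ⟨s_inj (by rw [h, zpow_zero]), rfl⟩

/-- the two copies of the integers -/
abbrev Zs : Bool → Type := fun _ => Multiplicative ℤ

/-- the free group as a free product -/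
def kap : FreeGroup Bool →* CoprodI Zs :=
  FreeGroup.lift fun b => CoprodI.of (M := Zs) (i := b) (Multiplicative.ofAdd 1)

theorem kap_injective : Function.Injective kap := by
  have h : (CoprodI.lift (M := Zs) fun b => zpowersHom _ (FreeGroup.of b)).comp kap =
      MonoidHom.id _ := by
    ext b
    simp [kap]
  intro x y hxy
  have h1 := DFunLike.congr_fun h x
  have h2 := DFunLike.congr_fun h y
  simp only [MonoidHom.comp_apply, MonoidHom.id_apply] at h1 h2
  rw [← h1, ← h2, hxy]

theorem free_of_coprod {G : Type} [Group G] {f : Bool → G}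
    (h : Function.Injective (CoprodI.lift (M := Zs) fun b => zpowersHom G (f b))) :
    Function.Injective (FreeGroup.lift f) := by
  have e : FreeGroup.lift f = (CoprodI.lift (M := Zs) fun b => zpowersHom G (f b)).comp kap := by
    ext b
    simp [kap]
  rw [e]
  exact h.comp kap_injective

/-- the maps of the base of the amalgam -/
def phi : Bool → (Multiplicative ℤ →* Equiv.Perm ℚ)
  | true => zpowersHom _ tP
  | false => zpowersHom _ sP

/-- the gadget group -/
abbrev D : Type := PushoutI (G := fun _ : Bool => Equiv.Perm ℚ) (H := Multiplicative ℤ) phi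

theorem phi_injective (b : Bool) : Function.Injective (phi b) := by
  rw [injective_iff_map_eq_one]
  intro n hn
  cases b
  · have : sP ^ (Multiplicative.toAdd n) = 1 := hn
    exact Multiplicative.toAdd.injective (s_inj this)
  · have : tP ^ (Multiplicative.toAdd n) = 1 := hn
    exact Multiplicative.toAdd.injective (t_inj this)

/-- the free letters -/
def psi : Bool → (Multiplicative ℤ →* Equiv.Perm ℚ)
  | true => zpowersHom _ sP
  | false => zpowersHom _ tP

def y1 : D := PushoutI.of (φ := phi) true sP
def y2 : D := PushoutI.base phi (Multiplicative.ofAdd 1)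
def y3 : D := PushoutI.of (φ := phi) false tP

theorem y2_true : y2 = PushoutI.of (φ := phi) true tP := by
  have := PushoutI.of_apply_eq_base phi true (Multiplicative.ofAdd 1)
  rw [y2, ← this]
  congr 1

theorem y2_false : y2 = PushoutI.of (φ := phi) false sP := by
  have := PushoutI.of_apply_eq_base phi false (Multiplicative.ofAdd 1)
  rw [y2, ← this]
  congr 1

theorem rel12 : y1 * y2 * y1⁻¹ = y2 * y2 := by
  rw [y2_true, y1, ← map_inv, ← map_mul, ← map_mul, ← map_mul, st_rel]

theorem rel23 : y2 * y3 * y2⁻¹ = y3 * y3 := by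
  rw [y2_false, y3, ← map_inv, ← map_mul, ← map_mul, ← map_mul, st_rel]

theorem psi_ne {b : Bool} {n : Multiplicative ℤ} (hn : n ≠ 1) : psi b n ∉ (phi b).range := by
  rintro ⟨k, hk⟩
  cases b
  · have h1 : sP ^ (Multiplicative.toAdd k) = tP ^ (Multiplicative.toAdd n) := hk
    exact hn (Multiplicative.toAdd.injective (st_disj h1).2)
  · have h1 : tP ^ (Multiplicative.toAdd k) = sP ^ (Multiplicative.toAdd n) := hk
    exact hn (Multiplicative.toAdd.injective (st_disj h1.symm).1)

theorem word_map (w : CoprodI.Word Zs) : ∃ w' : CoprodI.Word (fun _ : Bool => Equiv.Perm ℚ),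
    w'.toList = w.toList.map (fun l => ⟨l.1, psi l.1 l.2⟩) ∧ PushoutI.Reduced phi w' ∧
    PushoutI.ofCoprodI (φ := phi) w'.prod =
      CoprodI.lift (M := Zs) (fun b => (PushoutI.of (φ := phi) b).comp (psi b)) w.prod := by
  have hr : ∀ l ∈ w.toList.map (fun l => (⟨l.1, psi l.1 l.2⟩ : Σ _ : Bool, Equiv.Perm ℚ)),
      l.2 ∉ (phi l.1).range := by
    intro l hl
    obtain ⟨l', hl', rfl⟩ := List.mem_map.1 hl
    exact psi_ne (w.ne_one l' hl')
  let w' : CoprodI.Word (fun _ : Bool => Equiv.Perm ℚ) :=
    { toList := w.toList.map (fun l => (⟨l.1, psi l.1 l.2⟩ : Σ _ : Bool, Equiv.Perm ℚ))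
      ne_one := fun l hl h1 => hr l hl (by rw [h1]; exact one_mem _)
      chain_ne := by
        rw [List.isChain_map]
        exact w.chain_ne }
  refine ⟨w', rfl, hr, ?_⟩
  simp only [CoprodI.Word.prod, map_list_prod, List.map_map, w']
  congr 1

theorem y_free : Function.Injective (FreeGroup.lift fun b : Bool => if b then y1 else y3) := by
  apply free_of_coprod
  have e : (CoprodI.lift (M := Zs) fun b => zpowersHom D (if b then y1 else y3)) =
      CoprodI.lift (M := Zs) (fun b => (PushoutI.of (φ := phi) b).comp (psi b)) := by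
    apply CoprodI.ext_hom
    intro b
    ext
    cases b <;> simp [psi, y1, y3]
  rw [e, injective_iff_map_eq_one]
  intro x hx
  classical
  obtain ⟨w, rfl⟩ : ∃ w : CoprodI.Word Zs, w.prod = x := ⟨CoprodI.Word.equiv x, 
    CoprodI.Word.equiv.left_inv x⟩
  obtain ⟨w', h1, h2, h3⟩ := word_map w
  rw [hx] at h3
  have h4 := h2.eq_empty_of_mem_range phi_injective (by rw [h3]; exact one_mem _)
  rw [h4] at h1
  have h5 : w.toList = [] := by
    have : (CoprodI.Word.empty : CoprodI.Word (fun _ : Bool => Equiv.Perm ℚ)).toList = [] := rfl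
    rw [this] at h1
    exact List.map_eq_nil_iff.1 h1.symm
  have h6 : w = CoprodI.Word.empty := CoprodI.Word.ext h5
  rw [h6, CoprodI.Word.prod_empty]

/-- adjoining `z` with `u z u⁻¹ = z ^ 2`, `z v z⁻¹ = v ^ 2` -/
theorem gadget {P : Type} [Group P] {u v : P}
    (h : Function.Injective (FreeGroup.lift fun b : Bool => if b then u else v)) :
    ∃ (P' : Type) (_ : Group P') (j : P →* P') (z : P'), Function.Injective j ∧
      j u * z * (j u)⁻¹ = z * z ∧ z * j v * z⁻¹ = j v * j v := by
  let G : Bool → Type := fun b => if b then P else D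
  let _ : ∀ b, Group (G b) := fun b => by
    cases b
    · exact (inferInstance : Group D)
    · exact (inferInstance : Group P)
  let Φ : ∀ b, FreeGroup Bool →* G b := fun b => by
    cases b
    · exact FreeGroup.lift fun b : Bool => if b then y1 else y3
    · exact FreeGroup.lift fun b : Bool => if b then u else v
  have hΦ : ∀ b, Function.Injective (Φ b) := by
    intro b
    cases b
    · exact y_free
    · exact h
  let oP : P →* PushoutI Φ := PushoutI.of (φ := Φ) true
  let oD : D →* PushoutI Φ := PushoutI.of (φ := Φ) false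
  have h1 : oP u = oD y1 := by
    have e1 := PushoutI.of_apply_eq_base Φ true (FreeGroup.of true)
    have e2 := PushoutI.of_apply_eq_base Φ false (FreeGroup.of true)
    have e3 : Φ true (FreeGroup.of true) = u := by
      show (FreeGroup.lift fun b : Bool => if b then u else v) (FreeGroup.of true) = u
      simp
    have e4 : Φ false (FreeGroup.of true) = y1 := by
      show (FreeGroup.lift fun b : Bool => if b then y1 else y3) (FreeGroup.of true) = y1
      simp
    rw [e3] at e1
    rw [e4] at e2
    exact e1.trans e2.symm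
  have h3 : oP v = oD y3 := by
    have e1 := PushoutI.of_apply_eq_base Φ true (FreeGroup.of false)
    have e2 := PushoutI.of_apply_eq_base Φ false (FreeGroup.of false)
    have e3 : Φ true (FreeGroup.of false) = v := by
      show (FreeGroup.lift fun b : Bool => if b then u else v) (FreeGroup.of false) = v
      simp
    have e4 : Φ false (FreeGroup.of false) = y3 := by
      show (FreeGroup.lift fun b : Bool => if b then y1 else y3) (FreeGroup.of false) = y3
      simp
    rw [e3] at e1
    rw [e4] at e2
    exact e1.trans e2.symm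
  refine ⟨PushoutI Φ, inferInstance, oP, oD y2, PushoutI.of_injective hΦ true, ?_, ?_⟩
  · rw [h1, ← map_inv, ← map_mul, ← map_mul, ← map_mul, rel12]
  · rw [h3, ← map_inv, ← map_mul, ← map_mul, ← map_mul, rel23]

/-- iterating the gadget -/
theorem gadgets {P : Type} [Group P] {u : P} (v : ℕ → P) (r : ℕ)
    (h : ∀ i < r, Function.Injective (FreeGroup.lift fun b : Bool => if b then u else v i)) :
    ∃ (P' : Type) (_ : Group P') (j : P →* P') (z : ℕ → P'), Function.Injective j ∧
      ∀ i < r, j u * z i * (j u)⁻¹ = z i * z i ∧ z i * j (v i) * (z i)⁻¹ = j (v i) * j (v i) := by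
  induction r with
  | zero => exact ⟨P, inferInstance, MonoidHom.id P, fun _ => 1, fun _ _ h => h,
      fun i hi => absurd hi (Nat.not_lt_zero i)⟩
  | succ r ih =>
    obtain ⟨P', gP', j, z, hj, hz⟩ := ih fun i hi => h i (by omega)
    have hfree : Function.Injective (FreeGroup.lift fun b : Bool => if b then j u else j (v r)) := by
      have e : (FreeGroup.lift fun b : Bool => if b then j u else j (v r)) =
          j.comp (FreeGroup.lift fun b : Bool => if b then u else v r) := by
        ext b
        cases b <;> simp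
      rw [e]
      exact hj.comp (h r (by omega))
    obtain ⟨P'', gP'', j', z', hj', h1, h2⟩ := gadget hfree
    classical
    refine ⟨P'', gP'', j'.comp j, fun i => if i = r then z' else j' (z i), hj'.comp hj, ?_⟩
    intro i hi
    by_cases hir : i = r
    · subst hir
      simp only [if_true]
      exact ⟨h1, h2⟩
    · simp only [if_neg hir, MonoidHom.comp_apply]
      obtain ⟨a1, a2⟩ := hz i (by omega)
      refine ⟨?_, ?_⟩
      · rw [← map_inv, ← map_mul, ← map_mul, ← map_mul, a1]
      · rw [← map_inv, ← map_mul, ← map_mul, ← map_mul, a2]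

end Pool.Agent.W995.CC.GT
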