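import Pool.Agent.W995.CC.GT1

/-!
The model of the presentation when the word is not trivial.
-/

set_option autoImplicit false

noncomputable section

namespace Pool.Agent.W995.CC.GT

open Monoid SemidirectProduct

/-- the shift -/
def sh : Multiplicative ℤ →* MulAut (FreeGroup ℤ) where
  toFun n := FreeGroup.freeGroupCongr (Equiv.addLeft (Multiplicative.toAdd n))
  map_one' := by
    ext x
    simp
  map_mul' a b := by
    apply MulEquiv.toMonoidHom_injective
    ext x
    simp [add_assoc]

theorem sh_of (n : Multiplicative ℤ) (k : ℤ) :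
    sh n (FreeGroup.of k) = FreeGroup.of (Multiplicative.toAdd n + k) := by
  simp [sh]

abbrev B1 : Type := FreeGroup ℤ ⋊[sh] Multiplicative ℤ

/-- the conjugates of `u` -/
def cj {A : Type} [Group A] (u v : A) : FreeGroup ℤ →* A := FreeGroup.lift fun k : ℤ => v ^ k * u * (v ^ k)⁻¹

theorem cj_of {A : Type} [Group A] (u v : A) (k : ℤ) :
    cj u v (FreeGroup.of k) = v ^ k * u * (v ^ k)⁻¹ := by
  simp [cj]

def psiB {A : Type} [Group A] (u v : A) : B1 →* A :=
  SemidirectProduct.lift (cj u v) (zpowersHom A v) (by
    intro g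
    ext1 k
    show cj u v (sh g (FreeGroup.of k)) =
      v ^ (Multiplicative.toAdd g) * cj u v (FreeGroup.of k) * (v ^ (Multiplicative.toAdd g))⁻¹
    rw [sh_of, cj_of, cj_of, zpow_add]
    group)

def chi : FreeGroup Bool →* B1 :=
  FreeGroup.lift fun b => if b then inl (FreeGroup.of 0) else inr (Multiplicative.ofAdd 1)

theorem psiB_chi {A : Type} [Group A] (u v : A) :
    (psiB u v).comp chi = FreeGroup.lift fun b : Bool => if b then u else v := by
  ext b
  cases b
  · simp [psiB, chi]
  · simp [psiB, chi, cj]

theorem chi_injective : Function.Injective chi := by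
  have h := psiB_chi (FreeGroup.of true) (FreeGroup.of false)
  have e : (FreeGroup.lift fun b : Bool => if b then FreeGroup.of true else FreeGroup.of false) =
      MonoidHom.id (FreeGroup Bool) := by
    ext b
    cases b <;> simp
  rw [e] at h
  intro x y hxy
  have h1 := DFunLike.congr_fun h x
  have h2 := DFunLike.congr_fun h y
  simp only [MonoidHom.comp_apply, MonoidHom.id_apply] at h1 h2
  rw [← h1, ← h2, hxy]

theorem psiB_injective {A : Type} [Group A] {u v : A} (π : A →* Multiplicative ℤ) (hu : π u = 1)
    (hv : π v = Multiplicative.ofAdd 1) (h : Function.Injective (cj u v)) :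
    Function.Injective (psiB u v) := by
  have h0 : π.comp (cj u v) = 1 := by
    ext k
    simp [cj, hu]
  rw [injective_iff_map_eq_one]
  intro x hx
  have e : psiB u v x = cj u v x.left * v ^ (Multiplicative.toAdd x.right) := rfl
  rw [e] at hx
  have h1 : π (cj u v x.left * v ^ (Multiplicative.toAdd x.right)) = 1 := by
    rw [hx]; exact map_one π
  rw [map_mul, map_zpow, hv] at h1
  have h2 : π (cj u v x.left) = 1 := DFunLike.congr_fun h0 x.left
  rw [h2, one_mul] at h1
  have h3 : Multiplicative.toAdd x.right = 0 := by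
    have := congrArg Multiplicative.toAdd h1
    rw [toAdd_zpow, toAdd_ofAdd, toAdd_one, smul_eq_mul, mul_one] at this
    exact this
  rw [h3, zpow_zero, mul_one] at hx
  have h4 : x.left = 1 := h (hx.trans (map_one _).symm)
  exact SemidirectProduct.ext h4 (Multiplicative.toAdd.injective h3)

theorem free_of_conj {A : Type} [Group A] {u v : A} (π : A →* Multiplicative ℤ) (hu : π u = 1)
    (hv : π v = Multiplicative.ofAdd 1) (h : Function.Injective (cj u v)) :
    Function.Injective (FreeGroup.lift fun b : Bool => if b then u else v) := by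
  rw [← psiB_chi]
  exact (psiB_injective π hu hv h).comp chi_injective

variable {G : Type} [Group G]

abbrev PG (G : Type) [Group G] : Type := G × Multiplicative ℤ

/-- the left translation action on the free group -/
def theta : PG G →* MulAut (FreeGroup (PG G)) where
  toFun p := FreeGroup.freeGroupCongr (Equiv.mulLeft p)
  map_one' := by
    ext x
    simp
  map_mul' a b := by
    apply MulEquiv.toMonoidHom_injective
    ext x
    simp [mul_assoc]

theorem theta_of (p q : PG G) : theta p (FreeGroup.of q) = FreeGroup.of (p * q) := by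
  simp [theta]

variable (G) in
abbrev AG : Type := FreeGroup (PG G) ⋊[theta (G := G)] PG G

/-- basis elements -/
def eG (p : PG G) : AG G := inl (FreeGroup.of p)

theorem conj_eG (p q : PG G) : (inr p : AG G) * eG q * (inr p : AG G)⁻¹ = eG (p * q) := by
  unfold eG
  rw [← theta_of, inl_aut, map_inv]

/-- the commutator -/
def uG (w : G) : AG G := eG (w, 1) * (eG 1)⁻¹

theorem uG_eq (w : G) : uG w = inr (w, 1) * eG 1 * (inr (w, 1))⁻¹ * (eG 1)⁻¹ := by
  rw [conj_eG, mul_one]; rfl

theorem free_v {w : G} (hw : w ≠ 1) (x : G) :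
    Function.Injective (FreeGroup.lift fun b : Bool => if b then uG w else
      (inr (x, Multiplicative.ofAdd 1) : AG G)) := by
  classical
  refine free_of_conj ((MonoidHom.snd G (Multiplicative ℤ)).comp rightHom) ?_ ?_ ?_
  · simp [uG, eG]
  · simp
  · let F0 : FreeGroup ℤ →* FreeGroup (PG G) := FreeGroup.lift fun k : ℤ =>
      FreeGroup.of ((x, Multiplicative.ofAdd 1) ^ k * (w, 1)) *
        (FreeGroup.of ((x, Multiplicative.ofAdd 1) ^ k))⁻¹
    have e : cj (uG w) (inr (x, Multiplicative.ofAdd 1) : AG G) = inl.comp F0 := by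
      ext1 k
      have h1 := conj_eG ((x, Multiplicative.ofAdd 1) ^ k : PG G) (w, 1)
      have h2 := conj_eG ((x, Multiplicative.ofAdd 1) ^ k : PG G) 1
      have h3 : cj (uG w) (inr (x, Multiplicative.ofAdd 1) : AG G) (FreeGroup.of k) =
          (inr ((x, Multiplicative.ofAdd 1) ^ k : PG G) : AG G) * uG w *
            (inr ((x, Multiplicative.ofAdd 1) ^ k : PG G) : AG G)⁻¹ := by
        simp only [cj, FreeGroup.lift_apply_of, map_zpow]
      rw [h3]
      have h4 : (inl.comp F0 : FreeGroup ℤ →* AG G) (FreeGroup.of k) =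
          eG ((x, Multiplicative.ofAdd 1) ^ k * (w, 1)) *
            (eG ((x, Multiplicative.ofAdd 1) ^ k))⁻¹ := by
        simp only [MonoidHom.comp_apply, F0, FreeGroup.lift_apply_of, map_mul, map_inv]
        rfl
      rw [h4, ← h1, ← (mul_one ((x, Multiplicative.ofAdd 1) ^ k : PG G)), ← h2, mul_one]
      unfold uG
      group
    rw [e]
    refine inl_injective.comp ?_
    let Λ : FreeGroup (PG G) →* FreeGroup ℤ := FreeGroup.lift fun p : PG G =>
      if p.1 = x ^ (Multiplicative.toAdd p.2) * w then FreeGroup.of (Multiplicative.toAdd p.2)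
        else 1
    have h : Λ.comp F0 = MonoidHom.id _ := by
      ext1 k
      simp only [MonoidHom.comp_apply, F0, FreeGroup.lift_apply_of, map_mul, map_inv, Λ,
        MonoidHom.id_apply]
      have e1 : ((x, Multiplicative.ofAdd 1) ^ k * (w, 1) : PG G) =
        (x ^ k * w, Multiplicative.ofAdd k) := by
        ext <;> simp [← ofAdd_zsmul]
      have e2 : ((x, Multiplicative.ofAdd 1) ^ k : PG G) = (x ^ k, Multiplicative.ofAdd k) := by
        ext <;> simp [← ofAdd_zsmul]
      rw [e1, e2]
      simp only [toAdd_ofAdd, if_true]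
      rw [if_neg, inv_one, mul_one]
      intro h
      exact hw (by simpa using h.symm)
    intro a b hab
    have h1 := DFunLike.congr_fun h a
    have h2 := DFunLike.congr_fun h b
    simp only [MonoidHom.comp_apply, MonoidHom.id_apply] at h1 h2
    rw [← h1, ← h2, hab]

theorem free_e {w : G} (hw : w ≠ 1) :
    Function.Injective (FreeGroup.lift fun b : Bool => if b then uG w else eG 1) := by
  classical
  let F0 : FreeGroup Bool →* FreeGroup (PG G) := FreeGroup.lift fun b : Bool =>
    if b then FreeGroup.of (w, 1) * (FreeGroup.of 1)⁻¹ else FreeGroup.of 1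
  have e : (FreeGroup.lift fun b : Bool => if b then uG w else eG 1) =
      (inl.comp F0 : FreeGroup Bool →* AG G) := by
    ext1 b
    cases b
    · simp [F0, eG]
    · simp [F0, eG, uG]
  rw [e]
  refine inl_injective.comp ?_
  let Λ : FreeGroup (PG G) →* FreeGroup Bool := FreeGroup.lift fun p : PG G =>
    if p = (w, 1) then FreeGroup.of true * FreeGroup.of false else
      if p = 1 then FreeGroup.of false else 1
  have hne : (1 : PG G) ≠ (w, 1) := fun h => hw (congrArg Prod.fst h).symm
  have h : Λ.comp F0 = MonoidHom.id _ := by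
    ext1 b
    cases b
    · simp [F0, Λ, hne]
    · simp [F0, Λ, hne]
  intro a b hab
  have h1 := DFunLike.congr_fun h a
  have h2 := DFunLike.congr_fun h b
  simp only [MonoidHom.comp_apply, MonoidHom.id_apply] at h1 h2
  rw [← h1, ← h2, hab]

/-- the model -/
theorem model {w : G} (hw : w ≠ 1) (x : ℕ → G) (m : ℕ) :
    ∃ (E : Type) (_ : Group E) (j : G →* E) (b b' : E) (z : ℕ → E), b ≠ 1 ∧
      ∀ i < m + 2, 
      (j w * b' * (j w)⁻¹ * b'⁻¹) * z i * (j w * b' * (j w)⁻¹ * b'⁻¹)⁻¹ = z i * z i ∧
      z i * (if i = 0 then b else if i = m + 1 then b' else j (x (i - 1)) * b) * (z i)⁻¹ =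
        (if i = 0 then b else if i = m + 1 then b' else j (x (i - 1)) * b) *
        (if i = 0 then b else if i = m + 1 then b' else j (x (i - 1)) * b) := by
  classical
  let bA : AG G := inr (1, Multiplicative.ofAdd 1)
  let jA : G →* AG G := inr.comp (MonoidHom.inl G (Multiplicative ℤ))
  let v : ℕ → AG G := fun i => if i = 0 then bA else if i = m + 1 then eG 1 else
    jA (x (i - 1)) * bA
  obtain ⟨E, gE, j, z, hj, hz⟩ := gadgets (u := uG w) v (m + 2) (fun i _ => by
    by_cases h0 : i = 0
    · simp only [v, if_pos h0]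
      exact free_v hw 1
    · by_cases h1 : i = m + 1
      · simp only [v, if_neg h0, if_pos h1]
        exact free_e hw
      · simp only [v, if_neg h0, if_neg h1]
        have : jA (x (i - 1)) * bA = inr (x (i - 1), Multiplicative.ofAdd 1) := by
          show inr (x (i - 1), 1) * inr (1, Multiplicative.ofAdd 1) = _
          rw [← map_mul]
          simp
        rw [this]
        exact free_v hw _)
  refine ⟨E, gE, j.comp jA, j bA, j (eG 1), z, ?_, fun i hi => ?_⟩
  · intro h
    have h1 : bA = 1 := hj (h.trans (map_one j).symm)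
    have h2 := congrArg (fun a : AG G => Multiplicative.toAdd a.right.2) h1
    simp [bA] at h2
  · obtain ⟨h1, h2⟩ := hz i hi
    have e1 : j.comp jA w * j (eG 1) * (j.comp jA w)⁻¹ * (j (eG 1))⁻¹ = j (uG w) := by
      rw [uG_eq, map_mul, map_mul, map_mul, map_inv, map_inv]
      rfl
    have e2 : (if i = 0 then j bA else if i = m + 1 then j (eG 1) else
        j.comp jA (x (i - 1)) * j bA) = j (v i) := by
      simp only [v]
      split_ifs
      · rfl
      · rfl
      · rw [map_mul]; rfl
    rw [e1, e2]
    exact ⟨h1, h2⟩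

end Pool.Agent.W995.CC.GT
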