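import Pool.Agent.W995.CC.Lab

/-!
Labellings of the final complex; non-contractibility.
-/

set_option autoImplicit false

noncomputable section

namespace Pool.Agent.W995.CC

open unitInterval

variable {E : Type} [Group E]

theorem mod_block {N m u : ℕ} (hu : u < N) : (m * N + u) % N = u := by
  rw [Nat.add_comm, Nat.add_mul_mod_self_right, Nat.mod_eq_of_lt hu]

theorem mcyl_lab {B : List (List ℕ)} {N : ℕ} {f : ℕ → ℕ → E} (h : Lab B f) (hB : bdd N B) (k : ℕ) :
    Lab (mcyl B N k) fun x y => f (x % N) (y % N) := by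
  have hself : Lab B fun x y => f (x % N) (y % N) := by
    intro s hs a ha b hb c hc
    show f (a % N) (b % N) * f (b % N) (c % N) = f (a % N) (c % N)
    rw [Nat.mod_eq_of_lt (hB s hs a ha), Nat.mod_eq_of_lt (hB s hs b hb),
      Nat.mod_eq_of_lt (hB s hs c hc)]
    exact h s hs a ha b hb c hc
  induction k with
  | zero => exact hself
  | succ k ih =>
    intro t ht
    rcases List.mem_append.1 ht with ht | ht
    · obtain ⟨s, hs, j, hj, c, hc, rfl⟩ := mem_cyl.1 ht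
      have hbs : ∀ j, ∃ m, bs (3 ^ k * N) j = m * N := by
        intro j
        unfold bs
        split_ifs
        · exact ⟨3 ^ k, rfl⟩
        · exact ⟨3 ^ k + 3 ^ k, by ring⟩
        · exact ⟨0, by ring⟩
      have key : ∀ w ∈ stair (3 ^ k * N) j c s, w % N ∈ s := by
        intro w hw
        rcases mem_stair.1 hw with ⟨u, hu, -, rfl⟩ | ⟨u, hu, -, rfl⟩
        · obtain ⟨m, hm⟩ := hbs j
          rw [hm, mod_block (hB s hs u hu)]
          exact hu
        · obtain ⟨m, hm⟩ := hbs (j + 1)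
          rw [hm, mod_block (hB s hs u hu)]
          exact hu
      intro a ha b hb d hd
      exact h s hs _ (key a ha) _ (key b hb) _ (key d hd)
    · exact ih t ht

theorem gam_lab (q : ℕ → E) (n : ℕ) : ∃ f : ℕ → ℕ → E, Lab (mcyl P0 1 n) f ∧
    ∀ i < n, f 0 (3 ^ i * 1) = 1 ∧ f (3 ^ i * 1) (3 ^ i * 1 + 3 ^ i * 1) = 1 ∧
      f (3 ^ i * 1 + 3 ^ i * 1) 0 = q i := by
  induction n with
  | zero =>
    refine ⟨fun _ _ => 1, ?_, fun i hi => absurd hi (Nat.not_lt_zero i)⟩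
    intro s _ a _ b _ c _
    exact one_mul 1
  | succ n ih =>
    obtain ⟨f, h1, h2⟩ := ih
    have hM : 0 < 3 ^ n * 1 := by positivity
    have hb : bdd (3 ^ n * 1) (mcyl P0 1 n) := mcyl_bdd P0_bdd n
    have h00 : f 0 0 = 1 := h1.self (P0_00.mono (mcyl_mem P0 1 n))
    have hpow : ∀ i < n, 3 ^ i * 1 + 3 ^ i * 1 + 3 ^ i * 1 ≤ 3 ^ n * 1 := by
      intro i hi
      have h2 : 3 ^ (i + 1) ≤ 3 ^ n := Nat.pow_le_pow_right (by norm_num) hi
      have : 3 ^ (i + 1) = 3 ^ i * 1 + 3 ^ i * 1 + 3 ^ i * 1 := by ring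
      omega
    show ∃ f : ℕ → ℕ → E, Lab (cyl (3 ^ n * 1) P0 ++ mcyl P0 1 n) f ∧ _
    obtain ⟨M, hMdef⟩ : ∃ M, 3 ^ n * 1 = M := ⟨_, rfl⟩
    rw [hMdef] at hM hb hpow ⊢
    classical
    let g : ℕ → ℕ → E := fun x y => if x = M + M ∧ y = 0 then q n else
      if x = 0 ∧ y = M + M then (q n)⁻¹ else if x < M ∧ y < M then f x y else 1
    have gold : ∀ x y, x < M → y < M → g x y = f x y := by
      intro x y hx hy
      show (if x = M + M ∧ y = 0 then q n else
        if x = 0 ∧ y = M + M then (q n)⁻¹ else if x < M ∧ y < M then f x y else 1) = _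
      rw [if_neg (by omega), if_neg (by omega), if_pos ⟨hx, hy⟩]
    have g20 : g (M + M) 0 = q n := if_pos ⟨rfl, rfl⟩
    have g02 : g 0 (M + M) = (q n)⁻¹ := by
      show (if 0 = M + M ∧ M + M = 0 then q n else
        if 0 = 0 ∧ M + M = M + M then (q n)⁻¹ else _) = _
      rw [if_neg (by omega), if_pos ⟨rfl, rfl⟩]
    have gone : ∀ x y, ¬ (x = M + M ∧ y = 0) → ¬ (x = 0 ∧ y = M + M) → ¬ (x < M ∧ y < M) →
        g x y = 1 := by
      intro x y a b c
      show (if x = M + M ∧ y = 0 then q n else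
        if x = 0 ∧ y = M + M then (q n)⁻¹ else if x < M ∧ y < M then f x y else 1) = _
      rw [if_neg a, if_neg b, if_neg c]
    have g00 : g 0 0 = 1 := by rw [gold 0 0 hM hM, h00]
    have g01 : g 0 M = 1 := gone 0 M (by omega) (by omega) (by omega)
    have g10 : g M 0 = 1 := gone M 0 (by omega) (by omega) (by omega)
    have g11 : g M M = 1 := gone M M (by omega) (by omega) (by omega)
    have g12 : g M (M + M) = 1 := gone M (M + M) (by omega) (by omega) (by omega)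
    have g21 : g (M + M) M = 1 := gone (M + M) M (by omega) (by omega) (by omega)
    have g22 : g (M + M) (M + M) = 1 := gone (M + M) (M + M) (by omega) (by omega) (by omega)
    refine ⟨g, ?_, ?_⟩
    · intro t ht
      rcases List.mem_append.1 ht with ht | ht
      · obtain ⟨s, hs, j, hj, c, hc, rfl⟩ := mem_cyl.1 ht
        simp only [P0, List.mem_singleton] at hs
        subst hs
        have key : ∀ w ∈ stair M j c [0], w = bs M j ∨ w = bs M (j + 1) := by
          intro w hw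
          rcases mem_stair.1 hw with ⟨u, hu, -, rfl⟩ | ⟨u, hu, -, rfl⟩
          · simp at hu; subst hu; left; rfl
          · simp at hu; subst hu; right; rfl
        have hj3 : j = 0 ∨ j = 1 ∨ j = 2 := by omega
        intro a ha b hb' d hd
        have ka := key a ha
        have kb := key b hb'
        have kd := key d hd
        rcases hj3 with rfl | rfl | rfl
        · simp only [bs] at ka kb kd
          norm_num at ka kb kd
          rcases ka with rfl | rfl <;> rcases kb with rfl | rfl <;> rcases kd with rfl | rfl <;>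
            simp only [g00, g01, g10, g11, mul_one]
        · simp only [bs] at ka kb kd
          norm_num at ka kb kd
          rcases ka with rfl | rfl <;> rcases kb with rfl | rfl <;> rcases kd with rfl | rfl <;>
            simp only [g11, g12, g21, g22, mul_one]
        · simp only [bs] at ka kb kd
          norm_num at ka kb kd
          rcases ka with rfl | rfl <;> rcases kb with rfl | rfl <;> rcases kd with rfl | rfl <;>
            simp only [g00, g02, g20, g22, mul_one, one_mul, mul_inv_cancel, inv_mul_cancel]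
      · intro a ha b hb' d hd
        have := hb t ht
        rw [gold a b (this a ha) (this b hb'), gold b d (this b hb') (this d hd),
          gold a d (this a ha) (this d hd)]
        exact h1 t ht a ha b hb' d hd
    · intro i hi
      by_cases hin : i < n
      · obtain ⟨a1, a2, a3⟩ := h2 i hin
        have := hpow i hin
        have h3 : 0 < 3 ^ i * 1 := by positivity
        rw [gold _ _ hM (by omega), gold _ _ (by omega) (by omega), gold _ _ (by omega) hM]
        exact ⟨a1, a2, a3⟩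
      · have : i = n := by omega
        subst this
        rw [hMdef]
        exact ⟨g01, g12, g20⟩

theorem pl_append {L : List (List ℕ)} (f : ℕ → ℕ → E) {a b : ℕ} {vs : List ℕ} (ws : List ℕ)
    (h : chain L a vs b) : pl f a (vs ++ ws) = pl f a vs * pl f b ws := by
  induction vs generalizing a with
  | nil =>
    obtain ⟨rfl, -⟩ := h
    exact (one_mul _).symm
  | cons v vs ih =>
    show f a v * pl f v (vs ++ ws) = f a v * pl f v vs * pl f b ws
    rw [ih h.2, mul_assoc]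

theorem chain_clp {B : List (List ℕ)} {N : ℕ} (hN : 0 < N) (h00 : adj B 0 0) {k s : ℕ}
    (hs : s < k) : chain (mcyl B N k) 0 (clp N s) 0 := by
  induction k with
  | zero => exact absurd hs (Nat.not_lt_zero s)
  | succ k ih =>
    by_cases hsk : s < k
    · exact (ih hsk).mono (mcyl_step B N k)
    · have : s = k := by omega
      subst this
      exact chain_cyl (by positivity) h00

theorem chain_ltr {L : List (List ℕ)} {N : ℕ} {l : ℕ × Bool} (h : chain L 0 (clp N l.1) 0) :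
    chain L 0 (ltr N l) 0 := by
  unfold ltr
  split_ifs
  · exact h
  · exact chain_rev3 h

theorem chain_vl {L : List (List ℕ)} {N : ℕ} {c : List (ℕ × Bool)} (h00 : adj L 0 0)
    (h : ∀ l ∈ c, chain L 0 (clp N l.1) 0) :
    chain L 0 (vl N c) 0 := by
  induction c with
  | nil => exact ⟨rfl, h00⟩
  | cons l c ih =>
    rw [vl_cons]
    exact (chain_ltr (h l List.mem_cons_self)).append
      (ih fun l hl => h l (List.mem_cons_of_mem _ hl))

theorem pl_ltr {L : List (List ℕ)} {f : ℕ → ℕ → E} (hf : Lab L f) {N : ℕ} {l : ℕ × Bool}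
    (h : chain L 0 (clp N l.1) 0) {x : E} (h1 : f 0 (3 ^ l.1 * N) = 1)
    (h2 : f (3 ^ l.1 * N) (3 ^ l.1 * N + 3 ^ l.1 * N) = 1)
    (h3 : f (3 ^ l.1 * N + 3 ^ l.1 * N) 0 = x) :
    pl f 0 (ltr N l) = if l.2 then x else x⁻¹ := by
  unfold ltr
  split_ifs
  · show f 0 (3 ^ l.1 * N) * (f _ _ * (f _ _ * 1)) = x
    rw [h1, h2, h3]; group
  · show f 0 (3 ^ l.1 * N + 3 ^ l.1 * N) * (f _ _ * (f _ _ * 1)) = _
    rw [hf.symm h.2.2.1, hf.symm h.2.1, hf.symm h.1, h1, h2, h3]; group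

theorem pl_vl {L : List (List ℕ)} {f : ℕ → ℕ → E} (hf : Lab L f) {N n : ℕ} {q : ℕ → E}
    (h : ∀ i < n, chain L 0 (clp N i) 0 ∧ f 0 (3 ^ i * N) = 1 ∧
      f (3 ^ i * N) (3 ^ i * N + 3 ^ i * N) = 1 ∧ f (3 ^ i * N + 3 ^ i * N) 0 = q i)
    {c : List (ℕ × Bool)} (hc : ∀ l ∈ c, l.1 < n) : pl f 0 (vl N c) = wv q c := by
  induction c with
  | nil => rfl
  | cons l c ih =>
    obtain ⟨h0, h1, h2, h3⟩ := h l.1 (hc l List.mem_cons_self)
    rw [vl_cons, pl_append f _ (chain_ltr h0), pl_ltr hf h0 h1 h2 h3, wv_cons,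
      ih fun l hl => hc l (List.mem_cons_of_mem _ hl)]

theorem Yc_not_contractible {n J : ℕ} {c : ℕ → List (ℕ × Bool)} {k : ℕ} {g : ℕ → ℕ}
    (hidx : ∀ j < J, ∀ l ∈ c j, l.1 < n) (hg : ∀ s < k, g s < n) (q : ℕ → E)
    (hq : ∀ j < J, wv q (c j) = 1) (hq' : ∀ s < k, q (g s) = 1) {i : ℕ} (hi : i < n)
    (hne : q i ≠ 1) : ¬ ContractibleSpace (Re (Yc n J c k g).2) := by
  obtain ⟨f1, l1, l1'⟩ := gam_lab q n
  have hΓ00 : adj (mcyl P0 1 n) 0 0 := P0_00.mono (mcyl_mem P0 1 n)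
  have hΓb : bdd (3 ^ n * 1) (mcyl P0 1 n) := mcyl_bdd P0_bdd n
  have hn0 : 0 < 3 ^ n * 1 := by positivity
  have hch : ∀ i < n, chain (mcyl P0 1 n) 0 (clp 1 i) 0 := fun i hi => chain_clp one_pos P0_00 hi
  have hlt : ∀ i < n, 0 < 3 ^ i * 1 ∧ 3 ^ i * 1 + 3 ^ i * 1 < 3 ^ n * 1 := by
    intro i hi
    have h2 : 3 ^ (i + 1) ≤ 3 ^ n := Nat.pow_le_pow_right (by norm_num) hi
    have : 3 ^ (i + 1) = 3 ^ i * 1 + 3 ^ i * 1 + 3 ^ i * 1 := by ring
    have h3 : 0 < 3 ^ i * 1 := by positivity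
    omega
  obtain ⟨f2, l2, l2'⟩ := dall_lab (vss := fun j => vl 1 (c j)) l1 hn0 hΓb (J := J)
    (fun j hj => ⟨chain_vl hΓ00 fun l hl => hch _ (hidx j hj l hl),
      vl_proper one_pos (hidx j hj), by
      rw [pl_vl l1 (n := n) (q := q) (fun i hi => ⟨hch i hi, l1' i hi⟩) (hidx j hj)]
      exact hq j hj⟩)
  have hKmem : ∀ s ∈ mcyl P0 1 n, s ∈ (Kc n J c).2 :=
    dall_mem (fun j => vl 1 (c j)) (3 ^ n * 1, mcyl P0 1 n) J
  have hKb : bdd (Kc n J c).1 (Kc n J c).2 :=
    dall_bdd hn0 hΓb fun j hj => vl_proper one_pos (hidx j hj)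
  have hNK : 3 ^ n * 1 ≤ (Kc n J c).1 := dall_le (fun j => vl 1 (c j)) (3 ^ n * 1, mcyl P0 1 n) J
  have hK00 : adj (Kc n J c).2 0 0 := hΓ00.mono hKmem
  have hNK0 : 0 < (Kc n J c).1 := hn0.trans_le hNK
  have l2K : Lab (Kc n J c).2 f2 := l2
  have l3 := mcyl_lab l2K hKb k
  have hZ00 : adj (mcyl (Kc n J c).2 (Kc n J c).1 k) 0 0 := hK00.mono (mcyl_mem _ _ k)
  have hZb : bdd (3 ^ k * (Kc n J c).1) (mcyl (Kc n J c).2 (Kc n J c).1 k) := mcyl_bdd hKb k
  have hk0 : 0 < 3 ^ k * (Kc n J c).1 := by positivity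
  have hsub : ∀ s ∈ mcyl P0 1 n, s ∈ mcyl (Kc n J c).2 (Kc n J c).1 k :=
    fun s hs => mcyl_mem _ _ k s (hKmem s hs)
  have h200 : f2 0 0 = 1 := l2K.self hK00
  have hval : ∀ i < n, (fun x y => f2 (x % (Kc n J c).1) (y % (Kc n J c).1)) 0 (3 ^ i * 1) = 1 ∧
      (fun x y => f2 (x % (Kc n J c).1) (y % (Kc n J c).1)) (3 ^ i * 1) (3 ^ i * 1 + 3 ^ i * 1) = 1
      ∧ (fun x y => f2 (x % (Kc n J c).1) (y % (Kc n J c).1)) (3 ^ i * 1 + 3 ^ i * 1) 0 = q i := by
    intro i hi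
    obtain ⟨a0, a1⟩ := hlt i hi
    obtain ⟨b1, b2, b3⟩ := l1' i hi
    simp only
    rw [Nat.mod_eq_of_lt (by omega : 0 < (Kc n J c).1),
      Nat.mod_eq_of_lt (by omega : 3 ^ i * 1 < (Kc n J c).1),
      Nat.mod_eq_of_lt (by omega : 3 ^ i * 1 + 3 ^ i * 1 < (Kc n J c).1),
      l2' _ _ (by omega) (by omega), l2' _ _ (by omega) (by omega), l2' _ _ (by omega) (by omega)]
    exact ⟨b1, b2, b3⟩
  have hp4 : ∀ s < k, chain (mcyl (Kc n J c).2 (Kc n J c).1 k) 0
      (clp (Kc n J c).1 s ++ ltr 1 (g s, false)) 0 ∧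
      proper (3 ^ k * (Kc n J c).1) 0 (clp (Kc n J c).1 s ++ ltr 1 (g s, false)) ∧
      pl (fun x y => f2 (x % (Kc n J c).1) (y % (Kc n J c).1)) 0
        (clp (Kc n J c).1 s ++ ltr 1 (g s, false)) = 1 := by
    intro s hs
    have c1 : chain (mcyl (Kc n J c).2 (Kc n J c).1 k) 0 (clp (Kc n J c).1 s) 0 :=
      chain_clp hNK0 hK00 hs
    have c2 : chain (mcyl (Kc n J c).2 (Kc n J c).1 k) 0 (clp 1 (g s)) 0 :=
      (hch _ (hg s hs)).mono hsub
    refine ⟨c1.append (chain_ltr (l := (g s, false)) c2), ?_, ?_⟩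
    · have a1 : 3 ^ (s + 1) ≤ 3 ^ k := Nat.pow_le_pow_right (by norm_num) hs
      have a2 : 0 < 3 ^ s * (Kc n J c).1 := by positivity
      have a3 : 3 ^ (s + 1) * (Kc n J c).1 ≤ 3 ^ k * (Kc n J c).1 := Nat.mul_le_mul_right _ a1
      have a4 : 3 ^ (s + 1) * (Kc n J c).1 = 3 ^ s * (Kc n J c).1 + 3 ^ s * (Kc n J c).1 +
        3 ^ s * (Kc n J c).1 := by ring
      obtain ⟨b2, b3⟩ := hlt (g s) (hg s hs)
      have b5 : (Kc n J c).1 ≤ 3 ^ k * (Kc n J c).1 := Nat.le_mul_of_pos_left _ (by positivity)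
      show proper (3 ^ k * (Kc n J c).1) 0 ([3 ^ s * (Kc n J c).1,
        3 ^ s * (Kc n J c).1 + 3 ^ s * (Kc n J c).1, 0] ++
        [3 ^ (g s) * 1 + 3 ^ (g s) * 1, 3 ^ (g s) * 1, 0])
      refine ⟨by omega, by omega, by omega, by omega, by omega, by omega,
        by omega, by omega, by omega, by omega, by omega, by omega, trivial⟩
    · obtain ⟨b1, b2, b3⟩ := hval (g s) (hg s hs)
      rw [pl_append _ _ c1, pl_ltr l3 (l := (g s, false)) c2 b1 b2 b3, hq' s hs]
      have e1 : 3 ^ s * (Kc n J c).1 % (Kc n J c).1 = 0 := Nat.mul_mod_left _ _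
      have e2 : (3 ^ s * (Kc n J c).1 + 3 ^ s * (Kc n J c).1) % (Kc n J c).1 = 0 := by
        rw [← Nat.add_mul, Nat.mul_mod_left]
      have : pl (fun x y => f2 (x % (Kc n J c).1) (y % (Kc n J c).1)) 0 (clp (Kc n J c).1 s) = 1 := by
        show f2 (0 % (Kc n J c).1) (3 ^ s * (Kc n J c).1 % (Kc n J c).1) * 
          (f2 (3 ^ s * (Kc n J c).1 % (Kc n J c).1)
            ((3 ^ s * (Kc n J c).1 + 3 ^ s * (Kc n J c).1) % (Kc n J c).1) *
          (f2 ((3 ^ s * (Kc n J c).1 + 3 ^ s * (Kc n J c).1) % (Kc n J c).1)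
            (0 % (Kc n J c).1) * 1)) = 1
        rw [e1, e2, Nat.zero_mod, h200]
        group
      rw [this]
      simp
  obtain ⟨f4, l4, l4'⟩ := dall_lab
    (vss := fun s => clp (Kc n J c).1 s ++ ltr 1 (g s, false)) l3 hk0 hZb (J := k) hp4
  have l4Y : Lab (Yc n J c k g).2 f4 := l4
  have hYmem : ∀ s ∈ mcyl P0 1 n, s ∈ (Yc n J c k g).2 := fun s hs =>
    dall_mem (fun s => clp (Kc n J c).1 s ++ ltr 1 (g s, false))
      (3 ^ k * (Kc n J c).1, mcyl (Kc n J c).2 (Kc n J c).1 k) k s (hsub s hs)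
  have hc := (hch i hi).mono hYmem
  obtain ⟨a0, a1⟩ := hlt i hi
  obtain ⟨b1, b2, b3⟩ := hval i hi
  beta_reduce at b1 b2 b3
  have b5 : (Kc n J c).1 ≤ 3 ^ k * (Kc n J c).1 := Nat.le_mul_of_pos_left _ (by positivity)
  refine l4Y.not_contractible hc.1 hc.2.1 hc.2.2.1 ?_
  rw [l4' _ _ (by omega) (by omega), l4' _ _ (by omega) (by omega), l4' _ _ (by omega) (by omega),
    b1, b2, b3]
  simpa using hne

end Pool.Agent.W995.CC
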