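import Pool.Agent.W995.CC.GT2
import Pool.Agent.W995.CC.LabY

/-!
The presentation.
-/

set_option autoImplicit false

noncomputable section

namespace Pool.Agent.W995.CC

/-- inverse word -/
def iw (c : List (ℕ × Bool)) : List (ℕ × Bool) := (c.map fun l => (l.1, !l.2)).reverse

theorem wv_iw {Q : Type} [Group Q] (q : ℕ → Q) (c : List (ℕ × Bool)) :
    wv q (iw c) = (wv q c)⁻¹ := by
  induction c with
  | nil => simp [iw]
  | cons l c ih =>
    have e : iw (l :: c) = iw c ++ [(l.1, !l.2)] := by simp [iw]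
    rw [e, wv_append, ih, wv_cons, wv_cons, mul_inv_rev, wv_nil, mul_one]
    congr 1
    obtain ⟨i, b⟩ := l
    cases b <;> simp

theorem mem_iw {c : List (ℕ × Bool)} {l : ℕ × Bool} (h : l ∈ iw c) :
    ∃ l' ∈ c, l.1 = l'.1 := by
  unfold iw at h
  rw [List.mem_reverse, List.mem_map] at h
  obtain ⟨l', h1, rfl⟩ := h
  exact ⟨l', h1, rfl⟩

/-- the commutator word `w b' w⁻¹ b'⁻¹` -/
def uW (m : ℕ) (w : List (ℕ × Bool)) : List (ℕ × Bool) :=
  w ++ ((m + 1, true) :: (iw w ++ [(m + 1, false)]))

def AW (m : ℕ) (w : List (ℕ × Bool)) (i : ℕ) : List (ℕ × Bool) :=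
  uW m w ++ ((m + 2 + i, true) :: (iw (uW m w) ++ [(m + 2 + i, false), (m + 2 + i, false)]))

def VW (m i : ℕ) : List (ℕ × Bool) :=
  if i = 0 then [(m, true)] else if i = m + 1 then [(m + 1, true)] else [(i - 1, true), (m, true)]

def BW (m i : ℕ) : List (ℕ × Bool) :=
  (m + 2 + i, true) :: (VW m i ++ ((m + 2 + i, false) :: (iw (VW m i) ++ iw (VW m i))))

def CW (m s : ℕ) (r : List (ℕ × Bool)) : List (ℕ × Bool) := (2 * m + 4 + s, true) :: iw r

/-- the relators -/
def cW (m : ℕ) (rs : List (List (ℕ × Bool))) (w : List (ℕ × Bool)) (j : ℕ) : List (ℕ × Bool) :=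
  if j < m + 2 then AW m w j else if j < 2 * m + 4 then BW m (j - (m + 2)) else
    CW m (j - (2 * m + 4)) (rs.getD (j - (2 * m + 4)) [])

section eval

variable {Q : Type} [Group Q] (q : ℕ → Q) (m : ℕ) (w : List (ℕ × Bool))

theorem wv_uW : wv q (uW m w) = wv q w * q (m + 1) * (wv q w)⁻¹ * (q (m + 1))⁻¹ := by
  unfold uW
  rw [wv_append, wv_cons, wv_append, wv_iw, wv_cons]
  simp only [if_true, wv_nil]
  simp [mul_assoc]

theorem wv_AW (i : ℕ) : wv q (AW m w i) = wv q (uW m w) * q (m + 2 + i) * (wv q (uW m w))⁻¹ *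
    (q (m + 2 + i) * q (m + 2 + i))⁻¹ := by
  unfold AW
  rw [wv_append, wv_cons, wv_append, wv_iw, wv_cons, wv_cons]
  simp [mul_assoc]

theorem wv_BW (i : ℕ) : wv q (BW m i) = q (m + 2 + i) * wv q (VW m i) * (q (m + 2 + i))⁻¹ *
    (wv q (VW m i) * wv q (VW m i))⁻¹ := by
  unfold BW
  rw [wv_cons, wv_append, wv_cons, wv_append, wv_iw]
  simp [mul_assoc]

theorem wv_CW (s : ℕ) (r : List (ℕ × Bool)) : wv q (CW m s r) = q (2 * m + 4 + s) * (wv q r)⁻¹ := by
  unfold CW
  rw [wv_cons, wv_iw]
  simp

theorem wv_VW (i : ℕ) : wv q (VW m i) = if i = 0 then q m else if i = m + 1 then q (m + 1) else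
    q (i - 1) * q m := by
  unfold VW
  split_ifs <;> simp

/-- the three kinds of relations -/
theorem rel_iff (rs : List (List (ℕ × Bool))) (f : ℕ → Q) :
    (∀ j < 2 * m + 4 + rs.length, wv q (cW m rs w j) = f j) ↔
      (∀ i < m + 2, wv q (AW m w i) = f i) ∧ (∀ i < m + 2, wv q (BW m i) = f (m + 2 + i)) ∧
      ∀ s < rs.length, wv q (CW m s (rs.getD s [])) = f (2 * m + 4 + s) := by
  constructor
  · intro h
    refine ⟨fun i hi => ?_, fun i hi => ?_, fun s hs => ?_⟩
    · have := h i (by omega)
      rw [cW, if_pos hi] at this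
      exact this
    · have := h (m + 2 + i) (by omega)
      rw [cW, if_neg (by omega), if_pos (by omega), Nat.add_sub_cancel_left] at this
      exact this
    · have := h (2 * m + 4 + s) (by omega)
      rw [cW, if_neg (by omega), if_neg (by omega), Nat.add_sub_cancel_left] at this
      exact this
  · rintro ⟨h1, h2, h3⟩ j hj
    unfold cW
    split_ifs with a b
    · exact h1 j a
    · have := h2 (j - (m + 2)) (by omega)
      rw [this]
      congr 1
      omega
    · have := h3 (j - (2 * m + 4)) (by omega)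
      rw [this]
      congr 1
      omega

end eval

theorem cW_ne (m : ℕ) (rs : List (List (ℕ × Bool))) (w : List (ℕ × Bool)) (j : ℕ) :
    cW m rs w j ≠ [] := by
  unfold cW
  split_ifs
  · unfold AW; simp
  · unfold BW; simp
  · unfold CW; simp

theorem VW_idx {m i : ℕ} (hi : i < m + 2) : ∀ l ∈ VW m i, l.1 < m + 2 := by
  intro l hl
  unfold VW at hl
  split_ifs at hl <;> simp at hl
  · subst hl; show m < m + 2; omega
  · subst hl; show m + 1 < m + 2; omega
  · rcases hl with rfl | rfl
    · show i - 1 < m + 2; omega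
    · show m < m + 2; omega

theorem cW_idx {m : ℕ} {rs : List (List (ℕ × Bool))} {w : List (ℕ × Bool)}
    (hw : ∀ l ∈ w, l.1 < m) (hrs : ∀ r ∈ rs, ∀ l ∈ r, l.1 < m) :
    ∀ j < 2 * m + 4 + rs.length, ∀ l ∈ cW m rs w j, l.1 < 2 * m + 4 + rs.length := by
  have hu : ∀ l ∈ uW m w, l.1 < m + 2 := by
    intro l hl
    unfold uW at hl
    simp only [List.mem_append, List.mem_cons, List.not_mem_nil, or_false] at hl
    rcases hl with hl | rfl | hl | rfl
    · have := hw l hl; omega
    · show m + 1 < m + 2; omega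
    · obtain ⟨l', h1, h2⟩ := mem_iw hl
      have := hw l' h1; omega
    · show m + 1 < m + 2; omega
  intro j hj l hl
  unfold cW at hl
  split_ifs at hl with a b
  · unfold AW at hl
    simp only [List.mem_append, List.mem_cons, List.not_mem_nil, or_false] at hl
    rcases hl with hl | rfl | hl | rfl | rfl
    · have := hu l hl; omega
    · show m + 2 + j < _; omega
    · obtain ⟨l', h1, h2⟩ := mem_iw hl
      have := hu l' h1; omega
    · show m + 2 + j < _; omega
    · show m + 2 + j < _; omega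
  · unfold BW at hl
    simp only [List.mem_append, List.mem_cons] at hl
    rcases hl with rfl | hl | rfl | hl | hl
    · show m + 2 + (j - (m + 2)) < _; omega
    · have := VW_idx (i := j - (m + 2)) (m := m) (by omega) l hl; omega
    · show m + 2 + (j - (m + 2)) < _; omega
    · obtain ⟨l', h1, h2⟩ := mem_iw hl
      have := VW_idx (i := j - (m + 2)) (m := m) (by omega) l' h1; omega
    · obtain ⟨l', h1, h2⟩ := mem_iw hl
      have := VW_idx (i := j - (m + 2)) (m := m) (by omega) l' h1; omega
  · unfold CW at hl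
    simp only [List.mem_cons] at hl
    rcases hl with rfl | hl
    · show 2 * m + 4 + (j - (2 * m + 4)) < _; omega
    · obtain ⟨l', h1, h2⟩ := mem_iw hl
      have hlt : j - (2 * m + 4) < rs.length := by omega
      rw [List.getD_eq_getElem _ _ hlt] at h1
      have := hrs _ (List.getElem_mem hlt) l' h1
      omega

theorem wv_uW_comm {M : Type} [CommGroup M] (q : ℕ → M) (m : ℕ) (w : List (ℕ × Bool)) :
    wv q (uW m w) = 1 := by
  rw [wv_uW]
  simp [mul_comm (wv q w)]

theorem cW_solv {m : ℕ} {rs : List (List (ℕ × Bool))} {w : List (ℕ × Bool)}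
    (hrs : ∀ r ∈ rs, ∀ l ∈ r, l.1 < m) : Solv (2 * m + 4 + rs.length) (cW m rs w) := by
  intro M _ β
  let V : ℕ → M := fun i => (β (m + 2 + i))⁻¹
  let x : ℕ → M := fun i => V (i + 1) * (V 0)⁻¹
  let q0 : ℕ → M := fun i => if i < m then x i else if i = m then V 0 else if i = m + 1 then
    V (m + 1) else (β (i - (m + 2)))⁻¹
  let q : ℕ → M := fun i => if i < 2 * m + 4 then q0 i else
    β i * wv q0 (rs.getD (i - (2 * m + 4)) [])
  have qx : ∀ i < m, q i = x i := fun i hi => by
    simp only [q, q0]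
    rw [if_pos (by omega), if_pos hi]
  have qm : q m = V 0 := by
    simp only [q, q0]
    rw [if_pos (by omega), if_neg (by omega), if_pos trivial]
  have qm1 : q (m + 1) = V (m + 1) := by
    simp only [q, q0]
    rw [if_pos (by omega), if_neg (by omega), if_neg (by omega), if_pos trivial]
  have qz : ∀ i < m + 2, q (m + 2 + i) = (β i)⁻¹ := fun i hi => by
    simp only [q, q0]
    rw [if_pos (by omega), if_neg (by omega), if_neg (by omega), if_neg (by omega),
      Nat.add_sub_cancel_left]
  have qg : ∀ s, q (2 * m + 4 + s) = β (2 * m + 4 + s) * wv q0 (rs.getD s []) := fun s => by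
    simp only [q]
    rw [if_neg (by omega), Nat.add_sub_cancel_left]
  refine ⟨q, (rel_iff q m w rs β).2 ⟨fun i hi => ?_, fun i hi => ?_, fun s hs => ?_⟩⟩
  · rw [wv_AW, wv_uW_comm, qz i hi]
    simp
  · rw [wv_BW, wv_VW]
    have : (if i = 0 then q m else if i = m + 1 then q (m + 1) else q (i - 1) * q m) = V i := by
      split_ifs with h1 h2
      · rw [qm, h1]
      · rw [qm1, h2]
      · rw [qm, qx _ (by omega)]
        show V (i - 1 + 1) * (V 0)⁻¹ * V 0 = _
        rw [inv_mul_cancel_right]
        congr 1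
        omega
    rw [this, mul_comm (q (m + 2 + i)), mul_inv_cancel_right]
    show V i * (V i * V i)⁻¹ = _
    rw [mul_inv_rev, mul_inv_cancel_left]
    exact inv_inv _
  · rw [wv_CW, qg]
    have : wv q (rs.getD s []) = wv q0 (rs.getD s []) := by
      apply wv_congr
      intro l hl
      rw [List.getD_eq_getElem _ _ hs] at hl
      have := hrs _ (List.getElem_mem hs) l hl
      simp only [q]
      rw [if_pos (by omega)]
    rw [this, mul_inv_cancel_right]

theorem triv_of {Q : Type} [Group Q] {q : ℕ → Q} {m : ℕ} {rs : List (List (ℕ × Bool))}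
    {w : List (ℕ × Bool)} (h : ∀ j < 2 * m + 4 + rs.length, wv q (cW m rs w j) = 1)
    (hu : wv q (uW m w) = 1) : ∀ i < 2 * m + 4, q i = 1 := by
  obtain ⟨h1, h2, h3⟩ := (rel_iff q m w rs (fun _ => 1)).1 h
  have hz : ∀ i < m + 2, q (m + 2 + i) = 1 := by
    intro i hi
    have := h1 i hi
    rw [wv_AW, hu, one_mul, inv_one, mul_one, mul_inv_rev, mul_inv_cancel_left] at this
    exact inv_eq_one.1 this
  have hV : ∀ i < m + 2, wv q (VW m i) = 1 := by
    intro i hi
    have := h2 i hi
    rw [wv_BW, hz i hi, one_mul, inv_one, mul_one, mul_inv_rev, mul_inv_cancel_left] at this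
    exact inv_eq_one.1 this
  have hm : q m = 1 := by
    have := hV 0 (by omega)
    rw [wv_VW, if_pos rfl] at this
    exact this
  have hm1 : q (m + 1) = 1 := by
    have := hV (m + 1) (by omega)
    rw [wv_VW, if_neg (by omega), if_pos rfl] at this
    exact this
  intro i hi
  by_cases a : i < m
  · have := hV (i + 1) (by omega)
    rw [wv_VW, if_neg (by omega), if_neg (by omega), hm, mul_one, Nat.add_sub_cancel] at this
    exact this
  · by_cases b : i = m
    · rw [b, hm]
    · by_cases c : i = m + 1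
      · rw [c, hm1]
      · have := hz (i - (m + 2)) (by omega)
        have e : m + 2 + (i - (m + 2)) = i := by omega
        rw [e] at this
        exact this

theorem wv_one {Q : Type} [Group Q] {q : ℕ → Q} {c : List (ℕ × Bool)} (h : ∀ l ∈ c, q l.1 = 1) :
    wv q c = 1 := by
  induction c with
  | nil => rfl
  | cons l c ih =>
    rw [wv_cons, ih fun l hl => h l (List.mem_cons_of_mem _ hl), h l List.mem_cons_self]
    simp

theorem triv_all {Q : Type} [Group Q] {q : ℕ → Q} {m : ℕ} {rs : List (List (ℕ × Bool))}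
    {w : List (ℕ × Bool)} (hrs : ∀ r ∈ rs, ∀ l ∈ r, l.1 < m)
    (h : ∀ j < 2 * m + 4 + rs.length, wv q (cW m rs w j) = 1)
    (hu : wv q (uW m w) = 1) : ∀ i < 2 * m + 4 + rs.length, q i = 1 := by
  intro i hi
  have h0 := triv_of h hu
  by_cases a : i < 2 * m + 4
  · exact h0 i a
  · obtain ⟨h1, h2, h3⟩ := (rel_iff q m w rs (fun _ => 1)).1 h
    have := h3 (i - (2 * m + 4)) (by omega)
    have hlt : i - (2 * m + 4) < rs.length := by omega
    rw [wv_CW, wv_one, inv_one, mul_one] at this
    · have e : 2 * m + 4 + (i - (2 * m + 4)) = i := by omega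
      rw [e] at this
      exact this
    · intro l hl
      rw [List.getD_eq_getElem _ _ hlt] at hl
      have := hrs _ (List.getElem_mem hlt) l hl
      exact h0 _ (by omega)

theorem cW_perf {m : ℕ} {rs : List (List (ℕ × Bool))} {w : List (ℕ × Bool)}
    (hrs : ∀ r ∈ rs, ∀ l ∈ r, l.1 < m) :
    Perf (2 * m + 4 + rs.length) (2 * m + 4 + rs.length) (cW m rs w) := by
  intro M _ q h
  exact triv_all hrs h (wv_uW_comm q m w)

/-- if the word is trivial modulo the relators `rs`, the presentation with central `g s` is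
trivial -/
theorem cW_hQ {m : ℕ} {rs : List (List (ℕ × Bool))} {w : List (ℕ × Bool)}
    (hw : ∀ l ∈ w, l.1 < m) (hrs : ∀ r ∈ rs, ∀ l ∈ r, l.1 < m)
    (hwt : ∀ (Q : Type) [Group Q] (q : ℕ → Q), (∀ r ∈ rs, wv q r = 1) → wv q w = 1)
    (Q : Type) [Group Q] (q : ℕ → Q)
    (h : ∀ j < 2 * m + 4 + rs.length, wv q (cW m rs w j) = 1)
    (hc : ∀ s < rs.length, ∀ i < 2 * m + 4 + rs.length,
      q (2 * m + 4 + s) * q i = q i * q (2 * m + 4 + s)) :
    ∀ i < 2 * m + 4 + rs.length, q i = 1 := by
  classical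
  set n := 2 * m + 4 + rs.length with hn
  let H : Subgroup Q := Subgroup.closure {x | ∃ i < n, q i = x}
  have hmem : ∀ i < n, q i ∈ H := fun i hi => Subgroup.subset_closure ⟨i, hi, rfl⟩
  let qH : ℕ → H := fun i => if hi : i < n then ⟨q i, hmem i hi⟩ else 1
  have hqH : ∀ i < n, (qH i : Q) = q i := fun i hi => by simp only [qH, dif_pos hi]
  have hidx := cW_idx hw hrs
  have hrelH : ∀ j < n, wv qH (cW m rs w j) = 1 := by
    intro j hj
    apply Subtype.ext
    have e := wv_map H.subtype qH (cW m rs w j)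
    rw [Subgroup.coe_subtype] at e
    rw [e]
    rw [OneMemClass.coe_one, ← h j hj]
    apply wv_congr
    intro l hl
    exact hqH _ (hidx j hj l hl)
  have hcen : ∀ s < rs.length, qH (2 * m + 4 + s) ∈ Subgroup.center H := by
    intro s hs
    rw [Subgroup.mem_center_iff]
    rintro ⟨x, hx⟩
    apply Subtype.ext
    show x * (qH (2 * m + 4 + s) : Q) = (qH (2 * m + 4 + s) : Q) * x
    rw [hqH _ (by omega)]
    induction hx using Subgroup.closure_induction with
    | mem x hx =>
      obtain ⟨i, hi, rfl⟩ := hx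
      exact (hc s hs i hi).symm
    | one => rw [one_mul, mul_one]
    | mul a b _ _ ha hb => rw [mul_assoc, hb, ← mul_assoc, ha, mul_assoc]
    | inv a _ ha => rw [inv_mul_eq_iff_eq_mul, ← mul_assoc, ha, mul_inv_cancel_right]
  -- the quotient by the centre is trivial
  let Qb := H ⧸ Subgroup.center H
  let qb : ℕ → Qb := fun i => QuotientGroup.mk' (Subgroup.center H) (qH i)
  have hrelb : ∀ j < n, wv qb (cW m rs w j) = 1 := by
    intro j hj
    have e := wv_map (QuotientGroup.mk' (Subgroup.center H)) qH (cW m rs w j)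
    rw [hrelH j hj, map_one] at e
    exact e.symm
  have hgb : ∀ s < rs.length, qb (2 * m + 4 + s) = 1 := by
    intro s hs
    exact (QuotientGroup.eq_one_iff _).2 (hcen s hs)
  have hrb : ∀ r ∈ rs, wv qb r = 1 := by
    obtain ⟨h1, h2, h3⟩ := (rel_iff qb m w rs (fun _ => 1)).1 hrelb
    intro r hr
    obtain ⟨s, hs, rfl⟩ := List.getElem_of_mem hr
    have := h3 s hs
    rw [wv_CW, hgb s hs, one_mul, List.getD_eq_getElem _ _ hs] at this
    exact inv_eq_one.1 this
  have hub : wv qb (uW m w) = 1 := by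
    rw [wv_uW, hwt Qb qb hrb]
    simp
  have htb := triv_all hrs hrelb hub
  have hall : ∀ i < n, qH i ∈ Subgroup.center H := fun i hi =>
    (QuotientGroup.eq_one_iff _).1 (htb i hi)
  -- so everything is central
  let qc : ℕ → Subgroup.center H := fun i => if hi : i < n then ⟨qH i, hall i hi⟩ else 1
  have hqc : ∀ i < n, (qc i : H) = qH i := fun i hi => by simp only [qc, dif_pos hi]
  let _ : CommGroup (Subgroup.center H) :=
    { (inferInstance : Group (Subgroup.center H)) with
      mul_comm := fun a b => Subtype.ext (Subgroup.mem_center_iff.1 b.2 a.1) }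
  have hrelc : ∀ j < n, wv qc (cW m rs w j) = 1 := by
    intro j hj
    apply Subtype.ext
    have e := wv_map (Subgroup.center H).subtype qc (cW m rs w j)
    rw [Subgroup.coe_subtype] at e
    rw [e]
    rw [OneMemClass.coe_one, ← hrelH j hj]
    apply wv_congr
    intro l hl
    exact hqc _ (hidx j hj l hl)
  have hfin := cW_perf hrs (Subgroup.center H) qc hrelc
  intro i hi
  have e1 := hfin i hi
  rw [← hqH i hi, ← hqc i hi, e1]
  rfl

end Pool.Agent.W995.CC
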