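import Pool.Agent.W995.CC.GT3

/-!
The dichotomy.
-/

set_option autoImplicit false

noncomputable section

namespace Pool.Agent.W995.CC

theorem cW_model {m : ℕ} {rs : List (List (ℕ × Bool))} {w : List (ℕ × Bool)}
    (hw : ∀ l ∈ w, l.1 < m) (hrs : ∀ r ∈ rs, ∀ l ∈ r, l.1 < m) {G : Type} [Group G] (q0 : ℕ → G)
    (hq0 : ∀ r ∈ rs, wv q0 r = 1) (hne : wv q0 w ≠ 1) :
    ∃ (E : Type) (_ : Group E) (q : ℕ → E),
      (∀ j < 2 * m + 4 + rs.length, wv q (cW m rs w j) = 1) ∧
      (∀ s < rs.length, q (2 * m + 4 + s) = 1) ∧ q m ≠ 1 := by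
  obtain ⟨E, gE, j, b, b', z, hb, h⟩ := GT.model hne q0 m
  let q : ℕ → E := fun i => if i < m then j (q0 i) else if i = m then b else if i = m + 1 then b'
    else if i < 2 * m + 4 then z (i - (m + 2)) else 1
  have q1 : ∀ i < m, q i = j (q0 i) := fun i hi => if_pos hi
  have q2 : q m = b := by
    show (if m < m then j (q0 m) else if m = m then b else _) = b
    rw [if_neg (by omega), if_pos rfl]
  have q3 : q (m + 1) = b' := by
    show (if m + 1 < m then j (q0 (m + 1)) else if m + 1 = m then b else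
      if m + 1 = m + 1 then b' else _) = b'
    rw [if_neg (by omega), if_neg (by omega), if_pos rfl]
  have q4 : ∀ i < m + 2, q (m + 2 + i) = z i := fun i hi => by
    show (if m + 2 + i < m then j (q0 (m + 2 + i)) else if m + 2 + i = m then b else
      if m + 2 + i = m + 1 then b' else if m + 2 + i < 2 * m + 4 then z (m + 2 + i - (m + 2))
        else 1) = z i
    rw [if_neg (by omega), if_neg (by omega), if_neg (by omega), if_pos (by omega),
      Nat.add_sub_cancel_left]
  have q5 : ∀ s, q (2 * m + 4 + s) = 1 := fun s => by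
    show (if 2 * m + 4 + s < m then j (q0 (2 * m + 4 + s)) else if 2 * m + 4 + s = m then b else
      if 2 * m + 4 + s = m + 1 then b' else if 2 * m + 4 + s < 2 * m + 4 then
        z (2 * m + 4 + s - (m + 2)) else 1) = 1
    rw [if_neg (by omega), if_neg (by omega), if_neg (by omega), if_neg (by omega)]
  have key : ∀ c : List (ℕ × Bool), (∀ l ∈ c, l.1 < m) → wv q c = j (wv q0 c) := by
    intro c hc
    rw [wv_map]
    apply wv_congr
    intro l hl
    exact q1 _ (hc l hl)
  refine ⟨E, gE, q, (rel_iff q m w rs (fun _ => 1)).2 ⟨fun i hi => ?_, fun i hi => ?_,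
    fun s hs => ?_⟩, fun s _ => q5 s, by rw [q2]; exact hb⟩
  · obtain ⟨h1, -⟩ := h i hi
    rw [wv_AW, wv_uW, key w hw, q3, q4 i hi, h1, mul_inv_cancel]
  · obtain ⟨-, h1⟩ := h i hi
    have e : wv q (VW m i) = (if i = 0 then b else if i = m + 1 then b' else j (q0 (i - 1)) * b) := by
      rw [wv_VW, q2, q3]
      split_ifs with a1 a2
      · rfl
      · rfl
      · rw [q1 _ (by omega)]
    rw [wv_BW, q4 i hi, e, h1, mul_inv_cancel]
  · have hr : rs.getD s [] ∈ rs := by
      rw [List.getD_eq_getElem _ _ hs]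
      exact List.getElem_mem hs
    rw [wv_CW, q5, key _ (hrs _ hr), hq0 _ hr, map_one, inv_one, mul_one]

/-- the complex -/
def Ycx (m : ℕ) (rs : List (List (ℕ × Bool))) (w : List (ℕ × Bool)) : List (List ℕ) :=
  (Yc (2 * m + 4 + rs.length) (2 * m + 4 + rs.length) (cW m rs w) rs.length
    (fun s => 2 * m + 4 + s)).2

theorem Ycx_iff {m : ℕ} {rs : List (List (ℕ × Bool))} {w : List (ℕ × Bool)}
    (hw : ∀ l ∈ w, l.1 < m) (hrs : ∀ r ∈ rs, ∀ l ∈ r, l.1 < m) :
    ContractibleSpace (Re (Ycx m rs w)) ↔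
      ∀ (Q : Type) [Group Q] (q : ℕ → Q), (∀ r ∈ rs, wv q r = 1) → wv q w = 1 := by
  constructor
  · intro h Q _ q hq
    by_contra hne
    obtain ⟨E, gE, q', h1, h2, h3⟩ := cW_model hw hrs q hq hne
    exact Yc_not_contractible (cW_idx hw hrs) (fun s hs => by omega) q' h1 h2 (by omega) h3 h
  · intro h
    exact Yc_contractible (cW_idx hw hrs) (fun j _ => cW_ne m rs w j) (cW_solv hrs) (cW_perf hrs)
      (fun s hs => by omega) (fun Q _ q h1 h2 => cW_hQ hw hrs h Q q h1 h2)

/-- transfer of words -/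
def tw {m : ℕ} (c : List (Fin m × Bool)) : List (ℕ × Bool) := c.map fun l => ((l.1 : ℕ), l.2)

theorem tw_idx {m : ℕ} (c : List (Fin m × Bool)) : ∀ l ∈ tw c, l.1 < m := by
  intro l hl
  obtain ⟨l', -, rfl⟩ := List.mem_map.1 hl
  exact l'.1.2

theorem wv_tw {m : ℕ} {Q : Type} [Group Q] (q : ℕ → Q) (c : List (Fin m × Bool)) :
    wv q (tw c) = FreeGroup.lift (fun i : Fin m => q i) (FreeGroup.mk c) := by
  rw [FreeGroup.lift_mk, wv, tw, List.map_map]
  congr 1
  apply List.map_congr_left
  intro l _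
  obtain ⟨i, b⟩ := l
  cases b <;> simp

theorem Ycx_free {m : ℕ} (R : Finset (FreeGroup (Fin m))) (c : List (Fin m × Bool)) :
    ContractibleSpace (Re (Ycx m (R.toList.map fun r => tw r.toWord) (tw c))) ↔
      FreeGroup.mk c ∈ Subgroup.normalClosure (R : Set (FreeGroup (Fin m))) := by
  rw [Ycx_iff (tw_idx c) (by
    intro r hr
    obtain ⟨r', -, rfl⟩ := List.mem_map.1 hr
    exact tw_idx _)]
  constructor
  · intro h
    let N := Subgroup.normalClosure (R : Set (FreeGroup (Fin m)))
    let q : ℕ → FreeGroup (Fin m) ⧸ N := fun i =>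
      if hi : i < m then QuotientGroup.mk' N (FreeGroup.of ⟨i, hi⟩) else 1
    have key : ∀ x : FreeGroup (Fin m), FreeGroup.lift (fun i : Fin m => q i) x =
        QuotientGroup.mk' N x := by
      intro x
      have e : FreeGroup.lift (fun i : Fin m => q i) = QuotientGroup.mk' N := by
        ext i
        simp [q]
      rw [e]
    have h1 := h (FreeGroup (Fin m) ⧸ N) q (by
      intro r hr
      obtain ⟨r', hr', rfl⟩ := List.mem_map.1 hr
      rw [wv_tw, FreeGroup.mk_toWord, key]
      exact (QuotientGroup.eq_one_iff _).2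
        (Subgroup.subset_normalClosure (by simpa using hr')))
    rw [wv_tw, key] at h1
    exact (QuotientGroup.eq_one_iff _).1 h1
  · intro h Q _ q hq
    rw [wv_tw]
    have hker : Subgroup.normalClosure (R : Set (FreeGroup (Fin m))) ≤
        (FreeGroup.lift (fun i : Fin m => q i)).ker := by
      apply Subgroup.normalClosure_le_normal
      intro r hr
      have := hq (tw r.toWord) (List.mem_map.2 ⟨r, by simpa using hr, rfl⟩)
      rw [wv_tw, FreeGroup.mk_toWord] at this
      exact this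
    exact hker h

end Pool.Agent.W995.CC
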