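import Pool.Agent.W995.CC.Asm
import Pool.Agent.H289R3.Tri.Cover

/-!
Edge labellings and non-contractibility.
-/

set_option autoImplicit false

noncomputable section

namespace Pool.Agent.W995.CC

open unitInterval Filter Topology Pool.Agent.H289R3.Tri

variable {E : Type} [Group E]

/-- `f` is a labelling of the edges which is multiplicative on simplices -/
def Lab (L : List (List ℕ)) (f : ℕ → ℕ → E) : Prop :=
  ∀ s ∈ L, ∀ a ∈ s, ∀ b ∈ s, ∀ c ∈ s, f a b * f b c = f a c

theorem Lab.self {L : List (List ℕ)} {f : ℕ → ℕ → E} (h : Lab L f) {a : ℕ} (ha : adj L a a) :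
    f a a = 1 := by
  obtain ⟨s, hs, h1, -⟩ := ha
  have := h s hs a h1 a h1 a h1
  simpa using this

theorem Lab.symm {L : List (List ℕ)} {f : ℕ → ℕ → E} (h : Lab L f) {a b : ℕ} (ha : adj L a b) :
    f b a = (f a b)⁻¹ := by
  have h1 := h.self ha.left
  obtain ⟨s, hs, ha, hb⟩ := ha
  have := h s hs a ha b hb a ha
  rw [h1] at this
  exact (inv_eq_of_mul_eq_one_right this).symm

section

variable {L : List (List ℕ)}

theorem ex_vert (x : Re L) : ∃ v, (x : ℕ → ℝ) v ≠ 0 := by
  obtain ⟨s, hs, h1, h2, h3⟩ := x.2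
  by_contra h
  push Not at h
  rw [Finset.sum_eq_zero fun v _ => h v] at h3
  exact zero_ne_one h3

/-- a vertex of the support -/
def vt (x : Re L) : ℕ := (ex_vert x).choose

theorem vt_spec (x : Re L) : (x : ℕ → ℝ) (vt x) ≠ 0 := (ex_vert x).choose_spec

theorem vt_pt {a : ℕ} (h : adj L a a) : vt (pt L a h) = a := by
  by_contra hne
  exact vt_spec (pt L a h) (dl_ne hne)

theorem supp_facet (y : Re L) : ∃ s ∈ L, ∀ v, (y : ℕ → ℝ) v ≠ 0 → v ∈ s := by
  obtain ⟨s, hs, h1, h2, h3⟩ := y.2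
  exact ⟨s, hs, fun v hv => by_contra fun h => hv (h2 v h)⟩

theorem ev_vert (x : Re L) {v : ℕ} (hv : (x : ℕ → ℝ) v ≠ 0) :
    ∀ᶠ y in 𝓝 x, ((y : Re L) : ℕ → ℝ) v ≠ 0 := by
  have h : Continuous fun y : Re L => (y : ℕ → ℝ) v :=
    (continuous_apply v).comp continuous_subtype_val
  exact h.continuousAt.eventually_ne hv

theorem Lab.coc {f : ℕ → ℕ → E} (h : Lab L f) : Coc fun x y : Re L => f (vt x) (vt y) := by
  intro p
  filter_upwards [ev_vert p (vt_spec p)] with x hx
  filter_upwards [ev_vert x hx, ev_vert x (vt_spec x)] with y hy1 hy2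
  obtain ⟨s, hs, hy⟩ := supp_facet y
  rw [← h s hs _ (hy _ hy1) _ (hy _ hy2) _ (hy _ (vt_spec y))]
  group

theorem Lab.hol {f : ℕ → ℕ → E} (h : Lab L f) {a b : ℕ} (hab : adj L a b) :
    IsHol (fun x y : Re L => f (vt x) (vt y)) (sg L a b hab) (f a b) := by
  obtain ⟨s, hs, ha, hb⟩ := id hab
  have key : ∀ t : I, vt (sg L a b hab t) ∈ s := by
    intro t
    have h1 := vt_spec (sg L a b hab t)
    by_contra h2
    exact h1 ((sg_mem hab ha hb t).2.1 _ h2)
  refine ⟨fun t => f a (vt (sg L a b hab t)), fun u => Eventually.of_forall fun t => ?_, ?_⟩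
  · show f (vt (sg L a b hab u)) (vt (sg L a b hab t)) =
      (f a (vt (sg L a b hab u)))⁻¹ * f a (vt (sg L a b hab t))
    rw [← h s hs a ha _ (key u) _ (key t)]
    group
  · show f a b = (f a (vt (sg L a b hab 0)))⁻¹ * f a (vt (sg L a b hab 1))
    rw [Path.source, Path.target, vt_pt, vt_pt, h.self hab.left]
    group

theorem Lab.hol_refl {f : ℕ → ℕ → E} (h : Lab L f) {a : ℕ} (haa : adj L a a) :
    IsHol (fun x y : Re L => f (vt x) (vt y)) (Path.refl (pt L a haa)) 1 := by
  refine ⟨fun _ => 1, fun u => Eventually.of_forall fun t => ?_, by group⟩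
  show f (vt (pt L a haa)) (vt (pt L a haa)) = _
  rw [vt_pt, h.self haa]
  group

theorem Lab.not_contractible {f : ℕ → ℕ → E} (h : Lab L f) {a b c : ℕ} (hab : adj L a b)
    (hbc : adj L b c) (hca : adj L c a) (hne : f a b * (f b c * f c a) ≠ 1) :
    ¬ ContractibleSpace (Re L) := by
  intro hc
  have h1 : ((sg L a b hab).trans ((sg L b c hbc).trans (sg L c a hca))).Homotopic
    (Path.refl (pt L a hab.left)) := SimplyConnectedSpace.paths_homotopic _ _
  exact hne (IsHol.homotopic h.coc h1 (IsHol.trans h.coc (h.hol hab)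
    (IsHol.trans h.coc (h.hol hbc) (h.hol hca))) (h.hol_refl hab.left))

end

/-- extension of a labelling to a new vertex -/
def lext (f : ℕ → ℕ → E) (N : ℕ) (φ : ℕ → E) (x y : ℕ) : E :=
  if x = N then (if y = N then 1 else (φ y)⁻¹) else if y = N then φ x else f x y

theorem lext_old {f : ℕ → ℕ → E} {N : ℕ} {φ : ℕ → E} {x y : ℕ} (hx : x < N) (hy : y < N) :
    lext f N φ x y = f x y := by
  unfold lext
  rw [if_neg (by omega), if_neg (by omega)]

theorem lext_right {f : ℕ → ℕ → E} {N : ℕ} {φ : ℕ → E} {x : ℕ} (hx : x < N) :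
    lext f N φ x N = φ x := by
  unfold lext
  rw [if_neg (by omega), if_pos rfl]

theorem Lab.lext {L : List (List ℕ)} {f : ℕ → ℕ → E} (h : Lab L f) {N : ℕ} (hL : bdd N L)
    (φ : ℕ → E) : Lab L (lext f N φ) := by
  intro s hs a ha b hb c hc
  rw [lext_old (hL s hs a ha) (hL s hs b hb), lext_old (hL s hs b hb) (hL s hs c hc),
    lext_old (hL s hs a ha) (hL s hs c hc)]
  exact h s hs a ha b hb c hc

/-- adding a simplex over an edge -/
theorem Lab.tri {L K : List (List ℕ)} {f : ℕ → ℕ → E} (h : Lab L f) {N : ℕ} (hL : bdd N L)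
    {φ : ℕ → E} {p q : ℕ} (hpq : adj L p q) (h0 : f p q * φ q = φ p)
    (hK : Lab K (CC.lext f N φ)) : Lab ([p, q, N] :: K) (CC.lext f N φ) := by
  have hp : p < N := by obtain ⟨s, hs, h1, -⟩ := hpq; exact hL s hs p h1
  have hq : q < N := by obtain ⟨s, hs, -, h1⟩ := hpq; exact hL s hs q h1
  have epp := h.self hpq.left
  have eqq := h.self hpq.right
  have eqp := h.symm hpq
  have epN : CC.lext f N φ p N = φ p := lext_right hp
  have eqN : CC.lext f N φ q N = φ q := lext_right hq
  have eNN : CC.lext f N φ N N = 1 := by unfold CC.lext; simp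
  have eNp : CC.lext f N φ N p = (φ p)⁻¹ := by unfold CC.lext; rw [if_pos rfl, if_neg (by omega)]
  have eNq : CC.lext f N φ N q = (φ q)⁻¹ := by unfold CC.lext; rw [if_pos rfl, if_neg (by omega)]
  have e1 : CC.lext f N φ p q = f p q := lext_old hp hq
  have e2 : CC.lext f N φ q p = (f p q)⁻¹ := by rw [lext_old hq hp, eqp]
  have e3 : CC.lext f N φ p p = 1 := by rw [lext_old hp hp, epp]
  have e4 : CC.lext f N φ q q = 1 := by rw [lext_old hq hq, eqq]
  intro s hs
  rcases List.mem_cons.1 hs with rfl | hs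
  · have key : ∀ a ∈ [p, q, N], ∀ b ∈ [p, q, N],
        CC.lext f N φ a b = CC.lext f N φ a N * (CC.lext f N φ b N)⁻¹ := by
      intro a ha b hb
      simp only [List.mem_cons, List.not_mem_nil, or_false] at ha hb
      rcases ha with rfl | rfl | rfl <;> rcases hb with rfl | rfl | rfl
      · rw [e3, epN]; group
      · rw [e1, epN, eqN, ← h0]; group
      · rw [eNN]; group
      · rw [e2, epN, eqN, ← h0]; group
      · rw [e4, eqN]; group
      · rw [eNN]; group
      · rw [eNp, eNN, epN]; group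
      · rw [eNq, eNN, eqN]; group
      · rw [eNN]; group
    intro a ha b hb c hc
    rw [key a ha b hb, key b hb c hc, key a ha c hc]
    group
  · exact hK s hs

/-- the product of the labels along an edge path -/
def pl (f : ℕ → ℕ → E) : ℕ → List ℕ → E
  | _, [] => 1
  | v, v' :: vs => f v v' * pl f v' vs

theorem pl_congr {f f' : ℕ → ℕ → E} {N : ℕ} (h : ∀ x y, x < N → y < N → f' x y = f x y) {v : ℕ}
    {vs : List ℕ} (hv : v < N) (hvs : proper N v vs) : pl f' v vs = pl f v vs := by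
  induction vs generalizing v with
  | nil => rfl
  | cons v' vs ih =>
    unfold pl
    rw [h v v' hv hvs.2.1, ih hvs.2.1 hvs.2.2]

theorem chain_lt {L : List (List ℕ)} {N : ℕ} (hL : bdd N L) {a b : ℕ} (h : adj L a b) :
    a < N ∧ b < N := by
  obtain ⟨s, hs, h1, h2⟩ := h
  exact ⟨hL s hs _ h1, hL s hs _ h2⟩

theorem collar_lab {z : ℕ} (vs : List ℕ) {v w : ℕ} {L : List (List ℕ)} {f : ℕ → ℕ → E}
    (h : Lab L f) (hzw : z < w)
    (hvz : v < z) (hp : proper z v vs) (h1 : adj L z w) (h2 : adj L v w) (hb : bdd (w + 1) L)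
    (hc : chain L v vs 0) (hvw : f v w = 1) :
    ∃ f' : ℕ → ℕ → E, Lab (collar z v w vs L) f' ∧
      (∀ x y, x < w + 1 → y < w + 1 → f' x y = f x y) ∧ f' 0 (w + vs.length) = 1 ∧
      f' z (w + vs.length) = f z w * pl f v vs := by
  induction vs generalizing v w L f with
  | nil =>
    obtain ⟨rfl, hv⟩ := hc
    exact ⟨f, h, fun _ _ _ _ => rfl, hvw, (mul_one _).symm⟩
  | cons v' vs ih =>
    obtain ⟨hvv, hv'z, hp'⟩ := hp
    classical
    let φ : ℕ → E := fun x => if x = v' then 1 else if x = z then f z w * f v v' else f v v'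
    have φv' : φ v' = 1 := by simp [φ]
    have φz : φ z = f z w * f v v' := by
      have : z ≠ v' := by omega
      simp [φ, this]
    have φv : φ v = f v v' := by
      have : v ≠ z := by omega
      simp [φ, this, hvv]
    have φw : φ w = f v v' := by
      have h1 : w ≠ z := by omega
      have h2 : w ≠ v' := by omega
      simp [φ, h1, h2]
    set L' := [z, w, w + 1] :: [v, v', w + 1] :: [v, w, w + 1] :: L with hL'
    have hsub : ∀ s ∈ L, s ∈ L' := fun s hs => by rw [hL']; simp [hs]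
    have m1 : [z, w, w + 1] ∈ L' := by rw [hL']; simp
    have m2 : [v, v', w + 1] ∈ L' := by rw [hL']; simp
    have m3 : [v, w, w + 1] ∈ L' := by rw [hL']; simp
    have hb' : bdd (w + 1 + 1) L' := by
      rw [hL', bdd_cons, bdd_cons, bdd_cons]
      refine ⟨?_, ?_, ?_, hb.mono (by omega)⟩
      · intro x hx; simp at hx; omega
      · intro x hx; simp at hx; omega
      · intro x hx; simp at hx; omega
    have hlab : Lab L' (lext f (w + 1) φ) := by
      refine h.tri hb h1 (by rw [φw, φz]) (h.tri hb hc.1 (by rw [φv', φv, mul_one])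
        (h.tri hb h2 (by rw [φw, φv, hvw, one_mul]) (h.lext hb φ)))
    obtain ⟨f', g1, g2, g3, g4⟩ := ih (v := v') (w := w + 1) (L := L') (f := lext f (w + 1) φ)
      hlab (by omega) hv'z hp'
      ⟨_, m1, by simp, by simp⟩ ⟨_, m2, by simp, by simp⟩ hb' (hc.2.mono hsub)
      (by rw [lext_right (by omega), φv'])
    have e2 : w + (v' :: vs).length = w + 1 + vs.length := by
      rw [List.length_cons]; omega
    refine ⟨f', g1, fun x y hx hy => ?_, ?_, ?_⟩
    · rw [g2 x y (by omega) (by omega), lext_old hx hy]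
    · rw [e2]; exact g3
    · rw [e2, g4, lext_right (by omega), φz]
      have : pl (lext f (w + 1) φ) v' vs = pl f v' vs :=
        pl_congr (N := w + 1) (fun x y hx hy => lext_old hx hy) (by omega)
          (hp'.mono (by omega))
      rw [this, mul_assoc]
      rfl

theorem disc_lab {N : ℕ} {vs : List ℕ} {L : List (List ℕ)} {f : ℕ → ℕ → E} (h : Lab L f)
    (hN : 0 < N) (hL : bdd N L)
    (hc : chain L 0 vs 0) (hp : proper N 0 vs) (hpl : pl f 0 vs = 1) :
    ∃ f' : ℕ → ℕ → E, Lab (disc N vs L) f' ∧ ∀ x y, x < N → y < N → f' x y = f x y := by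
  have h00 : adj L 0 0 := hc.start
  have hb1 : bdd (N + 1) ([0, N] :: L) := by
    rw [bdd_cons]
    refine ⟨?_, hL.mono (by omega)⟩
    intro x hx; simp at hx; omega
  let f1 := lext f N (fun _ => (1 : E))
  have l1 : Lab ([0, N] :: L) f1 := by
    have := h.tri (K := L) hL (φ := fun _ => (1 : E)) h00 (by rw [h.self h00]; simp) (h.lext hL _)
    intro s hs
    rcases List.mem_cons.1 hs with rfl | hs
    · intro a ha b hb c hc
      refine this _ List.mem_cons_self a ?_ b ?_ c ?_
      · simp at ha ⊢; tauto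
      · simp at hb ⊢; tauto
      · simp at hc ⊢; tauto
    · exact this s (List.mem_cons_of_mem _ hs)
  let f2 := lext f1 (N + 1) (fun _ => (1 : E))
  have a1 : adj ([0, N] :: L) 0 N := ⟨[0, N], by simp, by simp, by simp⟩
  have e1 : f1 0 N = 1 := lext_right hN
  have l2 : Lab ([0, N, N + 1] :: [0, N] :: L) f2 :=
    l1.tri hb1 (φ := fun _ => (1 : E)) a1 (by rw [e1, mul_one]) (l1.lext hb1 _)
  set L0 := [0, N, N + 1] :: [0, N] :: L with hL0
  have m1 : [0, N, N + 1] ∈ L0 := by rw [hL0]; simp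
  have hsub : ∀ s ∈ L, s ∈ L0 := fun s hs => by rw [hL0]; simp [hs]
  have hb0 : bdd (N + 1 + 1) L0 := by
    rw [hL0, bdd_cons, bdd_cons]
    refine ⟨?_, ?_, hL.mono (by omega)⟩
    · intro x hx; simp at hx; omega
    · intro x hx; simp at hx; omega
  have e2 : f2 0 (N + 1) = 1 := lext_right (by omega)
  have e3 : f2 N (N + 1) = 1 := lext_right (by omega)
  have e4 : f2 0 N = 1 := by
    show lext f1 (N + 1) _ 0 N = 1
    rw [lext_old (by omega) (by omega), e1]
  have hold : ∀ x y, x < N → y < N → f2 x y = f x y := by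
    intro x y hx hy
    show lext f1 (N + 1) _ x y = _
    rw [lext_old (by omega) (by omega)]
    exact lext_old hx hy
  obtain ⟨c1, c2, c3, c4, c5⟩ := collar_spec (z := N) vs (v := 0) (w := N + 1) (L := L0)
    (by omega) hN hp ⟨_, m1, by simp, by simp⟩ ⟨_, m1, by simp, by simp⟩ hb0 (hc.mono hsub)
  have t0 : adj3 (collar N 0 (N + 1) vs L0) 0 N (N + 1) := ⟨_, c2 _ m1, by simp, by simp, by simp⟩
  have t0' : adj3 (collar N 0 (N + 1) vs L0) 0 (N + 1) 0 :=
    ⟨_, c2 _ m1, by simp, by simp, by simp⟩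
  obtain ⟨h4, h5, -⟩ := c5 t0.bc t0'.bc (hc.mono fun s hs => c2 s (hsub s hs))
  obtain ⟨f', g1, g2, g3, g4⟩ := collar_lab (z := N) vs (v := 0) (w := N + 1) (L := L0) l2
    (by omega) hN hp ⟨_, m1, by simp, by simp⟩ ⟨_, m1, by simp, by simp⟩ hb0 (hc.mono hsub) e2
  have e5 : f' N (N + 1 + vs.length) = 1 := by
    rw [g4, e3, one_mul, pl_congr (N := N) hold hN hp, hpl]
  have e6 : f' 0 N = 1 := by rw [g2 0 N (by omega) (by omega), e4]
  refine ⟨f', ?_, fun x y hx hy => by rw [g2 x y (by omega) (by omega), hold x y hx hy]⟩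
  intro s hs
  rcases List.mem_cons.1 hs with rfl | hs
  · have hone : ∀ a ∈ [0, N, N + 1 + vs.length], ∀ b ∈ [0, N, N + 1 + vs.length], f' a b = 1 := by
      intro a ha b hb
      simp only [List.mem_cons, List.not_mem_nil, or_false] at ha hb
      rcases ha with rfl | rfl | rfl <;> rcases hb with rfl | rfl | rfl
      · exact g1.self t0.ab.left
      · exact e6
      · exact g3
      · rw [g1.symm t0.ab, e6, inv_one]
      · exact g1.self t0.ab.right
      · exact e5
      · rw [g1.symm h5.symm, g3, inv_one]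
      · rw [g1.symm h4, e5, inv_one]
      · exact g1.self h4.right
    intro a ha b hb c hc
    rw [hone a ha b hb, hone b hb c hc, hone a ha c hc, one_mul]
  · exact g1 s hs

theorem dall_lab {vss : ℕ → List ℕ} {N : ℕ} {L : List (List ℕ)} {f : ℕ → ℕ → E} (h : Lab L f)
    (hN : 0 < N) (hL : bdd N L) {J : ℕ}
    (hp : ∀ j < J, chain L 0 (vss j) 0 ∧ proper N 0 (vss j) ∧ pl f 0 (vss j) = 1) :
    ∃ f' : ℕ → ℕ → E, Lab (dall vss (N, L) J).2 f' ∧ ∀ x y, x < N → y < N → f' x y = f x y := by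
  induction J with
  | zero => exact ⟨f, h, fun _ _ _ _ => rfl⟩
  | succ J ih =>
    obtain ⟨f', g1, g2⟩ := ih fun j hj => hp j (by omega)
    have hle : N ≤ (dall vss (N, L) J).1 := dall_le vss (N, L) J
    obtain ⟨p1, p2, p3⟩ := hp J (by omega)
    obtain ⟨f'', k1, k2⟩ := disc_lab g1 (hN.trans_le hle)
      (dall_bdd hN hL fun j hj => (hp j (by omega)).2.1) (p1.mono (dall_mem vss (N, L) J))
      (p2.mono hle) (by rw [pl_congr g2 hN p2, p3])
    exact ⟨f'', k1, fun x y hx hy => by rw [k2 x y (by omega) (by omega), g2 x y hx hy]⟩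

end Pool.Agent.W995.CC
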