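import Pool.Agent.W995.CC.CP

/-!
Maps from an acyclic presentation complex which are trivial on the generators are null-homotopic.
-/

set_option autoImplicit false

noncomputable section

namespace Pool.Agent.W995.CC

open unitInterval

variable {P Γ K X' T : Type} [TopologicalSpace P] [TopologicalSpace Γ] [TopologicalSpace K]
  [TopologicalSpace X'] [TopologicalSpace T]

theorem wv_congr {G : Type} [Group G] {q q' : ℕ → G} {c : List (ℕ × Bool)}
    (h : ∀ l ∈ c, q l.1 = q' l.1) : wv q c = wv q' c := by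
  unfold wv
  congr 1
  apply List.map_congr_left
  intro l hl
  rw [h l hl]

/-- the word equations for the relators `c j`, `j < J` are solvable in all commutative groups -/
def Solv (J : ℕ) (c : ℕ → List (ℕ × Bool)) : Prop :=
  ∀ (M : Type) [CommGroup M] (β : ℕ → M), ∃ m : ℕ → M, ∀ j < J, wv m (c j) = β j

/-- the relators `c j`, `j < J` are satisfied only by the trivial elements in commutative groups -/
def Perf (n J : ℕ) (c : ℕ → List (ℕ × Bool)) : Prop :=
  ∀ (M : Type) [CommGroup M] (q : ℕ → M), (∀ j < J, wv q (c j) = 1) → ∀ i < n, q i = 1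

/-- the null-homotopy on a point -/
def NH.pt [Subsingleton P] (f : P → T) (p0 : P) : NH f p0 (f p0) where
  N b := ⟨⟨fun _ => f p0, continuous_const⟩, by rw [Subsingleton.elim b p0], rfl⟩
  cont := continuous_const
  base _ := rfl

theorem lemO [Subsingleton P] {κ : C(P, Γ)} {p0 : P} {n : ℕ} {ℓ : ℕ → Path (κ p0) (κ p0)}
    (h1 : CProp κ p0 n ℓ) {ι : C(Γ, K)} {J : ℕ} {c : ℕ → List (ℕ × Bool)}
    (h2 : DE ι J (fun j => ew ℓ (c j))) (hidx : ∀ j < J, ∀ l ∈ c j, l.1 < n) (hE : Solv J c)
    (f : K → T) (hf : Continuous f)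
    (hl : ∀ i < n, ((ℓ i).map (hf.comp ι.continuous)).Homotopic (Path.refl _)) :
    Nonempty (NH f (ι (κ p0)) (f (ι (κ p0)))) := by
  have hfi : Continuous fun x => f (ι x) := hf.comp ι.continuous
  obtain ⟨n0, -⟩ := h1.CA (fun x => f (ι x)) hfi hl (NH.pt _ p0)
  obtain ⟨E, hEE⟩ := h2 f hf
  let t0 := f (ι (κ p0))
  let P : ∀ j, Path t0 t0 := fun j => (ew ℓ (c j)).map hfi
  let A : ∀ j, Path (P j) (Path.refl t0) := fun j => n0.push (ew ℓ (c j)) (P j) (fun _ => rfl)
  classical
  obtain ⟨m, hm⟩ := hE (LG (Path.refl t0))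
    (fun j => if hj : j < J then LG.mk ((A j).symm.trans (E j hj)) else 1)
  choose β hβ using fun i => LG.mk_surj (m i)
  obtain ⟨b, hb0, hb⟩ := h1.CB t0 β
  have hb' : b (κ p0) = Path.refl t0 := hb0 p0
  obtain ⟨n', -⟩ := hEE (n0.mul b hb') (fun j hj => by
    have e0 := NH.push_mul n0 b hb' (ew ℓ (c j)) (P j) (fun _ => rfl)
    show ((n0.mul b hb').push (ew ℓ (c j)) (P j) (fun _ => rfl)).Homotopic (E j hj)
    rw [e0]
    have e1 : LG.mk (swl b hb' (ew ℓ (c j))) = LG.mk ((A j).symm.trans (E j hj)) := by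
      have e2 := hm j hj
      rw [dif_pos hj] at e2
      rw [mk_swl_ew, ← e2]
      apply wv_congr
      intro l hl
      rw [← hβ]
      congr 1
      exact Path.ext (funext fun t => Path.ext (funext fun u => hb _ (hidx j hj l hl) t u))
    rw [LG.mk_eq] at e1
    refine ((Path.Homotopic.refl (A j)).hcomp e1).trans ?_
    refine (Path.Homotopic.trans_assoc _ _ _).symm.trans ?_
    exact ((Path.Homotopic.trans_symm (A j)).hcomp (.refl _)).trans (Path.Homotopic.refl_trans _))
  exact ⟨n'⟩

/-- loop classes commute at a contractible loop -/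
theorem LG.comm' {t0 : T} {ω : Path t0 t0} (γ : Path ω (Path.refl t0)) (a b : LG ω) :
    a * b = b * a := by
  obtain ⟨A, rfl⟩ := LG.mk_surj a
  obtain ⟨B, rfl⟩ := LG.mk_surj b
  let q : Path.Homotopic.Quotient ω (Path.refl t0) := Path.Homotopic.Quotient.mk γ
  let A' : Path.Homotopic.Quotient ω ω := Path.Homotopic.Quotient.mk A
  let B' : Path.Homotopic.Quotient ω ω := Path.Homotopic.Quotient.mk B
  have h := LG.comm (x := t0) (q.symm.trans (A'.trans q)) (q.symm.trans (B'.trans q))
  have h2 : (q.symm.trans (A'.trans q)).trans (q.symm.trans (B'.trans q)) =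
      (q.symm.trans (B'.trans q)).trans (q.symm.trans (A'.trans q)) := h
  have e1 : ∀ C D : Path.Homotopic.Quotient ω ω,
      q.trans (((q.symm.trans (C.trans q)).trans (q.symm.trans (D.trans q))).trans q.symm) =
        C.trans D := by
    intro C D
    simp only [Path.Homotopic.Quotient.trans_assoc]
    rw [← Path.Homotopic.Quotient.trans_assoc q q.symm]
    simp only [Path.Homotopic.Quotient.trans_symm, Path.Homotopic.Quotient.refl_trans,
      Path.Homotopic.Quotient.trans_refl]
    rw [← Path.Homotopic.Quotient.trans_assoc q q.symm]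
    simp only [Path.Homotopic.Quotient.trans_symm, Path.Homotopic.Quotient.refl_trans]
  show A'.trans B' = B'.trans A'
  rw [← e1 A' B', h2, e1]

theorem GoodBase.of_lemO [Subsingleton P] {κ : C(P, Γ)} {p0 : P} {n : ℕ}
    {ℓ : ℕ → Path (κ p0) (κ p0)}
    (h1 : CProp κ p0 n ℓ) {ι : C(Γ, K)} {J : ℕ} {c : ℕ → List (ℕ × Bool)}
    (h2 : DE ι J (fun j => ew ℓ (c j))) (hidx : ∀ j < J, ∀ l ∈ c j, l.1 < n) (hE : Solv J c)
    (hP : Perf n J c)
    (hrel : ∀ j < J, ((ew ℓ (c j)).map ι.continuous).Homotopic (Path.refl _)) :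
    GoodBase K (ι (κ p0)) := by
  intro T _ t0 W γ
  let _ : CommGroup (LG (W (ι (κ p0)))) := { (inferInstance : Group (LG (W (ι (κ p0))))) with
    mul_comm := LG.comm' γ }
  obtain ⟨nW⟩ := lemO h1 h2 hidx hE W W.continuous (fun i hi => by
    rw [← LG.mk_eq_one]
    refine hP (LG (W (ι (κ p0)))) (fun i => LG.mk ((ℓ i).map (W.continuous.comp ι.continuous)))
      (fun j hj => ?_) i hi
    have e1 := mk_ew (fun i => (ℓ i).map (W.continuous.comp ι.continuous)) (c j)
    have e2 := ew_map ℓ (W.comp ι) (c j)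
    have e3 : LG.mk ((ew ℓ (c j)).map (W.comp ι).continuous) = 1 := by
      rw [LG.mk_eq_one]
      exact (hrel j hj).map W
    rw [e2] at e3
    exact e1.symm.trans e3)
  refine ⟨⟨fun p => ((nW.N p.2).trans γ) p.1, ?_⟩, fun b => ?_, fun b => ?_⟩
  · have h := Path.trans_continuous_family (fun b => nW.N b) nW.cont (fun _ : K => γ)
      (γ.continuous.comp continuous_snd)
    exact h.comp (continuous_snd.prodMk continuous_fst)
  · show ((nW.N b).trans γ) 0 = W b
    rw [Path.source]
  · show ((nW.N b).trans γ) 1 = _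
    rw [Path.target]

end Pool.Agent.W995.CC
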