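import Pool.Agent.W995.CC.CylJ

/-!
The loop around an attached cylinder as an edge path; expansions.
-/

set_option autoImplicit false

noncomputable section

namespace Pool.Agent.W995.CC

open unitInterval

theorem three {X : Type} [TopologicalSpace X] (P : C(ℝ, X)) {x0 x1 x2 x3 : X} (p : Path x0 x3)
    (q0 : Path x0 x1) (q1 : Path x1 x2) (q2 : Path x2 x3) (hp : ∀ u : I, p u = P (3 * u))
    (h0 : ∀ u : I, q0 u = P u) (h1 : ∀ u : I, q1 u = P (1 + u)) (h2 : ∀ u : I, q2 u = P (2 + u)) :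
    p.Homotopic (q0.trans (q1.trans q2)) := by
  have e0 : x0 = P 0 := by rw [← q0.source, h0]; simp
  have e1 : x1 = P 1 := by rw [← q0.target, h0]; simp
  have e2 : x2 = P 2 := by rw [← q1.target, h1]; simp; norm_num
  have e3 : x3 = P 3 := by rw [← q2.target, h2]; simp; norm_num
  subst e0 e1 e2 e3
  let a : Path (0 : ℝ) 3 := ⟨⟨fun u => 3 * u, by fun_prop⟩, by simp, by simp⟩
  let b0 : Path (0 : ℝ) 1 := ⟨⟨fun u => u, by fun_prop⟩, by simp, by simp⟩
  let b1 : Path (1 : ℝ) 2 := ⟨⟨fun u => 1 + u, by fun_prop⟩, by simp, by simp; norm_num⟩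
  let b2 : Path (2 : ℝ) 3 := ⟨⟨fun u => 2 + u, by fun_prop⟩, by simp, by simp; norm_num⟩
  have h := (SimplyConnectedSpace.paths_homotopic a (b0.trans (b1.trans b2))).map P
  rw [Path.map_trans, Path.map_trans] at h
  have f0 : p = a.map P.continuous := by ext u; exact hp u
  have f1 : q0 = b0.map P.continuous := by ext u; exact h0 u
  have f2 : q1 = b1.map P.continuous := by ext u; exact h1 u
  have f3 : q2 = b2.map P.continuous := by ext u; exact h2 u
  rw [f0, f1, f2, f3]
  exact h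

theorem RR_dl {N : ℕ} (hN : 0 < N) : RR N (dl 0) 0 = 1 ∧ ∀ v, 0 < v → RR N (dl 0) v = 0 := by
  constructor
  · rw [RR_zero_eq]
    have : ∀ v ∈ Finset.range N, dl 0 v = if v = 0 then 1 else 0 := by
      intro v _
      by_cases hv : v = 0
      · subst hv; simp [dl]
      · simp [dl, hv]
    rw [Finset.sum_congr rfl this]
    simp [hN]
  · intro v hv
    unfold RR
    refine Finset.sum_eq_zero fun u hu => ?_
    rw [Finset.mem_Ico] at hu
    have : u ≠ 0 := by omega
    simp [dl, this]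

/-- the path over the vertex `0` -/
theorem can_dl {N : ℕ} (hN : 0 < N) (t : ℝ) :
    can N (dl 0) t = fun w => (1 - (min t 1 - min t 0) + (min (t - 2) 1 - min (t - 2) 0)) * dl 0 w +
      ((min t 1 - min t 0) - (min (t - 1) 1 - min (t - 1) 0)) * dl N w +
      ((min (t - 1) 1 - min (t - 1) 0) - (min (t - 2) 1 - min (t - 2) 0)) * dl (N + N) w := by
  obtain ⟨r0, r1⟩ := RR_dl hN
  have hh0 : ∀ τ : ℝ, hi N (dl 0) τ 0 = min τ 1 - min τ 0 := by
    intro τ
    unfold hi
    rw [r0, r1 _ (by omega)]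
  have hhv : ∀ (τ : ℝ) v, 0 < v → hi N (dl 0) τ v = 0 := by
    intro τ v hv
    unfold hi
    rw [r1 _ hv, r1 _ (by omega), sub_self]
  have hd : ∀ a w : ℕ, w ≠ a → dl a w = 0 := fun a w h => by simp [dl, h]
  have hd1 : ∀ a : ℕ, dl a a = 1 := fun a => by simp [dl]
  refine ext3 (N := N) (can_big N _ _) (fun w hw => ?_) fun v hv => ?_
  · rw [hd 0 w (by omega), hd N w (by omega), hd (N + N) w (by omega)]; ring
  · obtain ⟨c1, c2, c3⟩ := can_blocks N (dl 0) t hv
    rw [c1, c2, c3]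
    rcases Nat.eq_zero_or_pos v with rfl | hv0
    · rw [hh0, hh0, hh0, hd1]
      simp only [add_zero]
      rw [hd N 0 (by omega), hd (N + N) 0 (by omega), hd 0 N (by omega), hd1,
        hd (N + N) N (by omega), hd 0 (N + N) (by omega), hd N (N + N) (by omega), hd1]
      refine ⟨by ring, by ring, by ring⟩
    · rw [hhv _ v hv0, hhv _ v hv0, hhv _ v hv0, hd 0 v (by omega), hd N v (by omega),
        hd (N + N) v (by omega), hd 0 (N + v) (by omega), hd N (N + v) (by omega),
        hd (N + N) (N + v) (by omega), hd 0 (N + N + v) (by omega), hd N (N + N + v) (by omega),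
        hd (N + N) (N + N + v) (by omega)]
      refine ⟨by ring, by ring, by ring⟩

section lp

variable {N : ℕ} {L B : List (List ℕ)}

theorem chain_cyl (hN : 0 < N) (hB0 : adj B 0 0) :
    chain (cyl N B ++ L) 0 [N, N + N, 0] 0 := by
  obtain ⟨s, hs, h0, -⟩ := hB0
  have h : ∀ k < 3, stair N k 0 s ∈ cyl N B ++ L := fun k hk =>
    List.mem_append_left _ (mem_cyl.2 ⟨s, hs, k, hk, 0, hN, rfl⟩)
  refine ⟨⟨_, h 0 (by norm_num), ?_, ?_⟩, ⟨_, h 1 (by norm_num), ?_, ?_⟩,
    ⟨_, h 2 (by norm_num), ?_, ?_⟩, rfl, ⟨_, h 0 (by norm_num), ?_, ?_⟩⟩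
  · exact mem_stair.2 (Or.inl ⟨0, h0, le_rfl, by simp [bs]⟩)
  · exact mem_stair.2 (Or.inr ⟨0, h0, le_rfl, by simp [bs]⟩)
  · exact mem_stair.2 (Or.inl ⟨0, h0, le_rfl, by simp [bs]⟩)
  · exact mem_stair.2 (Or.inr ⟨0, h0, le_rfl, by simp [bs]⟩)
  · exact mem_stair.2 (Or.inl ⟨0, h0, le_rfl, by simp [bs]⟩)
  · exact mem_stair.2 (Or.inr ⟨0, h0, le_rfl, by simp [bs]⟩)
  · exact mem_stair.2 (Or.inl ⟨0, h0, le_rfl, by simp [bs]⟩)
  · exact mem_stair.2 (Or.inl ⟨0, h0, le_rfl, by simp [bs]⟩)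

theorem lp_eq (hN : 0 < N) (hL : bdd N L) (hB : bdd N B) (hBL : Re B ⊆ Re L) (hB0 : adj B 0 0)
    (h : chain (cyl N B ++ L) 0 [N, N + N, 0] 0) :
    Path.Homotopic.Quotient.mk ((cylS hN hL hB hBL).lp (pt B 0 hB0)) =
      ep (cyl N B ++ L) 0 [N, N + N, 0] 0 h := by
  let P : C(ℝ, Re (cyl N B ++ L)) := ⟨fun t => ⟨can N (dl 0) (max 0 (min t 3)), by
    rw [Re_append]
    refine Or.inl (can_Re hN hB ?_ (le_max_left _ _) (max_le (by norm_num) (min_le_right _ _)))
    exact (pt B 0 hB0).2⟩, by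
    have hc : Continuous fun t : ℝ => (dl 0, max 0 (min t 3)) := by fun_prop
    exact Continuous.subtype_mk ((can_cont N).comp hc) _⟩
  have hP : ∀ t : ℝ, 0 ≤ t → t ≤ 3 → (P t : ℕ → ℝ) = can N (dl 0) t := by
    intro t h0 h3
    show can N (dl 0) (max 0 (min t 3)) = _
    rw [min_eq_left h3, max_eq_right h0]
  obtain ⟨h1, h2, h3, -, h4⟩ := id h
  have key := three P ((cylS hN hL hB hBL).lp (pt B 0 hB0)) (sg _ 0 N h1) (sg _ N (N + N) h2)
    (sg _ (N + N) 0 h3) (fun u => ?_) (fun u => ?_) (fun u => ?_) (fun u => ?_)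
  · have e := Path.Homotopic.Quotient.eq.2 key
    have e2 : (sq _ (N + N) 0 h3).trans (.refl (pt (cyl N B ++ L) 0 h3.right)) =
      sq _ (N + N) 0 h3 := Path.Homotopic.Quotient.trans_refl _
    have e3 : ep (cyl N B ++ L) 0 [N, N + N, 0] 0 h =
      (sq _ 0 N h1).trans ((sq _ N (N + N) h2).trans (sq _ (N + N) 0 h3)) :=
      congrArg (fun z => (sq _ 0 N h1).trans ((sq _ N (N + N) h2).trans z)) e2
    exact e.trans e3.symm
  · apply Subtype.ext
    rw [hP _ (by linarith [u.2.1]) (by linarith [u.2.2])]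
    rfl
  · apply Subtype.ext
    have u0 := u.2.1
    have u1 := u.2.2
    rw [hP _ (by linarith) (by linarith), can_dl hN]
    funext w
    rw [min_eq_left (show (u : ℝ) ≤ 1 by linarith), min_eq_right u0,
      min_eq_left (show (u : ℝ) - 1 ≤ 1 by linarith), min_eq_left (show (u : ℝ) - 1 ≤ 0 by linarith),
      min_eq_left (show (u : ℝ) - 2 ≤ 1 by linarith), min_eq_left (show (u : ℝ) - 2 ≤ 0 by linarith)]
    show (1 - (u : ℝ)) * dl 0 w + u * dl N w = _
    ring
  · apply Subtype.ext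
    have u0 := u.2.1
    have u1 := u.2.2
    rw [hP _ (by linarith) (by linarith), can_dl hN]
    funext w
    rw [min_eq_right (show (1 : ℝ) ≤ 1 + u by linarith), min_eq_right (show 0 ≤ 1 + (u : ℝ) by linarith),
      min_eq_left (show 1 + (u : ℝ) - 1 ≤ 1 by linarith),
      min_eq_right (show 0 ≤ 1 + (u : ℝ) - 1 by linarith),
      min_eq_left (show 1 + (u : ℝ) - 2 ≤ 1 by linarith),
      min_eq_left (show 1 + (u : ℝ) - 2 ≤ 0 by linarith)]
    show (1 - (u : ℝ)) * dl N w + u * dl (N + N) w = _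
    ring
  · apply Subtype.ext
    have u0 := u.2.1
    have u1 := u.2.2
    rw [hP _ (by linarith) (by linarith), can_dl hN]
    funext w
    rw [min_eq_right (show (1 : ℝ) ≤ 2 + u by linarith), min_eq_right (show 0 ≤ 2 + (u : ℝ) by linarith),
      min_eq_right (show 1 ≤ 2 + (u : ℝ) - 1 by linarith),
      min_eq_right (show 0 ≤ 2 + (u : ℝ) - 1 by linarith),
      min_eq_left (show 2 + (u : ℝ) - 2 ≤ 1 by linarith),
      min_eq_right (show 0 ≤ 2 + (u : ℝ) - 2 by linarith)]
    show (1 - (u : ℝ)) * dl (N + N) w + u * dl 0 w = _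
    ring

end lp

section SD

/-- `A` is a strong deformation retract of `B` through a globally defined homotopy -/
def SD (A B : Set (ℕ → ℝ)) : Prop :=
  A ⊆ B ∧ ∃ H : C((ℕ → ℝ) × I, ℕ → ℝ), (∀ y, H (y, 0) = y) ∧ (∀ y ∈ B, ∀ t, H (y, t) ∈ B) ∧
    (∀ y ∈ B, H (y, 1) ∈ A) ∧ ∀ x ∈ A, ∀ t, H (x, t) = x

theorem SD.refl (A : Set (ℕ → ℝ)) : SD A A :=
  ⟨subset_rfl, ⟨⟨fun p => p.1, continuous_fst⟩, fun _ => rfl, fun _ hy _ => hy, fun _ hy => hy,
    fun _ _ _ => rfl⟩⟩

theorem SD.trans {A B C : Set (ℕ → ℝ)} (h1 : SD A B) (h2 : SD B C) : SD A C := by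
  obtain ⟨s1, H, a1, a2, a3, a4⟩ := h1
  obtain ⟨s2, G, b1, b2, b3, b4⟩ := h2
  let fa : I → I := fun t => Set.projIcc 0 1 zero_le_one (2 * (t : ℝ))
  let fb : I → I := fun t => Set.projIcc 0 1 zero_le_one (2 * (t : ℝ) - 1)
  have ha : Continuous fa := continuous_projIcc.comp (by fun_prop)
  have hb : Continuous fb := continuous_projIcc.comp (by fun_prop)
  refine ⟨s1.trans s2, ⟨fun p => if (p.2 : ℝ) ≤ 1 / 2 then G (p.1, fa p.2) else
    H (G (p.1, 1), fb p.2), ?_⟩, ?_, ?_, ?_, ?_⟩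
  · refine Continuous.if_le (by fun_prop) (by fun_prop) (by fun_prop) (by fun_prop) ?_
    intro p hp
    have e1 : fa p.2 = 1 := by
      simp only [fa]
      rw [hp]
      exact Set.projIcc_of_right_le _ (by norm_num)
    have e2 : fb p.2 = 0 := by
      simp only [fb]
      rw [hp]
      exact Set.projIcc_of_le_left _ (by norm_num)
    rw [e1, e2, a1]
  · intro y
    have e1 : fa 0 = 0 := by
      simp only [fa]
      exact Set.projIcc_of_le_left _ (by simp)
    show (if ((0 : I) : ℝ) ≤ 1 / 2 then _ else _) = y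
    rw [if_pos (by norm_num), e1, b1]
  · intro y hy t
    show (if (t : ℝ) ≤ 1 / 2 then _ else _) ∈ C
    split_ifs
    · exact b2 y hy _
    · exact s2 (a2 _ (b3 y hy) _)
  · intro y hy
    have e1 : fb 1 = 1 := by
      simp only [fb]
      exact Set.projIcc_of_right_le _ (by norm_num)
    show (if ((1 : I) : ℝ) ≤ 1 / 2 then _ else _) ∈ A
    rw [if_neg (by norm_num), e1]
    exact a3 _ (b3 y hy)
  · intro x hx t
    show (if (t : ℝ) ≤ 1 / 2 then _ else _) = x
    split_ifs
    · exact b4 x (s1 hx) _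
    · rw [b4 x (s1 hx)]
      exact a4 x hx _

/-- deformation retracts of realisations -/
def SD.sdr {L L' : List (List ℕ)} (h : SD (Re L) (Re L')) : SDR (inc h.1) where
  G := ⟨fun p => ⟨h.2.choose (p.1, p.2), h.2.choose_spec.2.1 _ p.1.2 _⟩, by
    refine Continuous.subtype_mk (h.2.choose.continuous.comp ?_) _
    fun_prop⟩
  R := ⟨fun p => ⟨h.2.choose (p, 1), h.2.choose_spec.2.2.1 _ p.2⟩, by
    refine Continuous.subtype_mk (h.2.choose.continuous.comp ?_) _
    fun_prop⟩
  G0 y := Subtype.ext (h.2.choose_spec.1 _)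
  G1 y := rfl
  Gi x t := Subtype.ext (h.2.choose_spec.2.2.2 _ x.2 _)
  Ri x := Subtype.ext (h.2.choose_spec.2.2.2 _ x.2 _)

theorem mem_Sx3 {a b c : ℕ} (hab : a ≠ b) (hac : a ≠ c) (hbc : b ≠ c) {x : ℕ → ℝ} :
    x ∈ Sx [a, b, c] ↔ (∀ v, 0 ≤ x v) ∧ (∀ v, v ≠ a → v ≠ b → v ≠ c → x v = 0) ∧
      x a + x b + x c = 1 := by
  unfold Sx
  have h : ∑ v ∈ [a, b, c].toFinset, x v = x a + x b + x c := by
    simp [hab, hac, hbc, add_assoc]
  rw [Set.mem_ofPred_eq, h]
  simp

theorem mem_Sx2 {a b : ℕ} (hab : a ≠ b) {x : ℕ → ℝ} :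
    x ∈ Sx [a, b] ↔ (∀ v, 0 ≤ x v) ∧ (∀ v, v ≠ a → v ≠ b → x v = 0) ∧ x a + x b = 1 := by
  unfold Sx
  have h : ∑ v ∈ [a, b].toFinset, x v = x a + x b := by
    simp [hab]
  rw [Set.mem_ofPred_eq, h]
  simp

/-- the point of a complex with two vertices in its support -/
theorem supp_adj {L : List (List ℕ)} {x : ℕ → ℝ} (hx : x ∈ Re L) {a b : ℕ} (ha : x a ≠ 0)
    (hb : x b ≠ 0) : adj L a b := by
  obtain ⟨s, hs, hx⟩ := hx
  refine ⟨s, hs, ?_, ?_⟩
  · by_contra h
    exact ha (hx.2.1 a h)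
  · by_contra h
    exact hb (hx.2.1 b h)

theorem Sx2_mem {L : List (List ℕ)} {a b : ℕ} (h : adj L a b) : Sx [a, b] ⊆ Re L := by
  obtain ⟨s, hs, ha, hb⟩ := h
  intro x hx
  refine ⟨s, hs, Sx_mono ?_ hx⟩
  intro v hv
  simp at hv
  rcases hv with rfl | rfl
  · exact ha
  · exact hb

/-- expansion with a new vertex `c` -/
theorem SD_new {L : List (List ℕ)} {a b c : ℕ} (hab : a ≠ b) (hac : a ≠ c) (hbc : b ≠ c)
    (h : adj L a b) (hc : ¬ adj L c c) : SD (Re L) (Re ([a, b, c] :: L)) := by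
  have hmem : ∀ y ∈ Re ([a, b, c] :: L), y ∈ Sx [a, b, c] ∨ y ∈ Re L := by
    intro y hy
    rw [Re_cons] at hy
    exact hy
  have hzero : ∀ y ∈ Re L, y c = 0 := by
    intro y hy
    by_contra h
    exact hc (supp_adj hy h h)
  refine ⟨fun x hx => by rw [Re_cons]; exact Or.inr hx,
    ⟨fun p v => p.1 v + p.2 * (p.1 c * (dl a v - dl c v)), ?_⟩, ?_, ?_, ?_, ?_⟩
  · refine continuous_pi fun v => ?_
    fun_prop
  · intro y
    funext v
    simp
  · intro y hy t
    rcases hmem y hy with h1 | h1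
    · rw [Re_cons]
      left
      rw [mem_Sx3 hab hac hbc] at h1 ⊢
      obtain ⟨p1, p2, p3⟩ := h1
      have ht0 := t.2.1
      have ht1 := t.2.2
      have hyc := p1 c
      refine ⟨fun v => ?_, fun v hva hvb hvc => ?_, ?_⟩
      · show 0 ≤ y v + t * (y c * (dl a v - dl c v))
        by_cases hv : v = c
        · subst hv
          have : dl a v = 0 := by simp [dl, hac.symm]
          rw [this]
          simp only [dl, Pi.single_eq_same]
          nlinarith
        · have e1 : dl c v = 0 := by simp [dl, hv]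
          rw [e1, sub_zero]
          have e2 : 0 ≤ dl a v := by
            by_cases hv2 : v = a
            · subst hv2; simp [dl]
            · simp [dl, hv2]
          have := p1 v
          positivity
      · show y v + t * (y c * (dl a v - dl c v)) = 0
        rw [p2 v hva hvb hvc]
        simp [dl, hva, hvc]
      · show (y a + t * (y c * (dl a a - dl c a))) + (y b + t * (y c * (dl a b - dl c b))) +
          (y c + t * (y c * (dl a c - dl c c))) = 1
        have e1 : dl a a = 1 := by simp [dl]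
        have e2 : dl c a = 0 := by simp [dl, hac]
        have e3 : dl a b = 0 := by simp [dl, hab.symm]
        have e4 : dl c b = 0 := by simp [dl, hbc]
        have e5 : dl a c = 0 := by simp [dl, hac.symm]
        have e6 : dl c c = 1 := by simp [dl]
        rw [e1, e2, e3, e4, e5, e6]
        linarith
    · have : (fun v => y v + t * (y c * (dl a v - dl c v))) = y := by
        funext v
        rw [hzero y h1]; ring
      show (fun v => y v + t * (y c * (dl a v - dl c v))) ∈ _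
      rw [this]
      exact hy
  · intro y hy
    rcases hmem y hy with h1 | h1
    · apply Sx2_mem h
      rw [mem_Sx3 hab hac hbc] at h1
      obtain ⟨p1, p2, p3⟩ := h1
      rw [mem_Sx2 hab]
      have e1 : dl a a = 1 := by simp [dl]
      have e2 : dl c a = 0 := by simp [dl, hac]
      have e3 : dl a b = 0 := by simp [dl, hab.symm]
      have e4 : dl c b = 0 := by simp [dl, hbc]
      have e5 : dl a c = 0 := by simp [dl, hac.symm]
      have e6 : dl c c = 1 := by simp [dl]
      refine ⟨fun v => ?_, fun v hva hvb => ?_, ?_⟩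
      · show 0 ≤ y v + ((1 : I) : ℝ) * (y c * (dl a v - dl c v))
        by_cases hv : v = c
        · subst hv
          rw [e5, e6, Set.Icc.coe_one]
          ring_nf
          exact le_rfl
        · have e1 : dl c v = 0 := by simp [dl, hv]
          rw [e1, sub_zero]
          have e2 : 0 ≤ dl a v := by
            by_cases hv2 : v = a
            · subst hv2; simp [dl]
            · simp [dl, hv2]
          have := p1 v
          have := p1 c
          simp only [Set.Icc.coe_one]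
          positivity
      · show y v + ((1 : I) : ℝ) * (y c * (dl a v - dl c v)) = 0
        by_cases hv : v = c
        · subst hv
          rw [e5, e6, Set.Icc.coe_one]
          ring
        · rw [p2 v hva hvb hv]
          simp [dl, hva, hv]
      · show (y a + ((1 : I) : ℝ) * (y c * (dl a a - dl c a))) +
          (y b + ((1 : I) : ℝ) * (y c * (dl a b - dl c b))) = 1
        rw [e1, e2, e3, e4, Set.Icc.coe_one]
        linarith
    · have : (fun v => y v + ((1 : I) : ℝ) * (y c * (dl a v - dl c v))) = y := by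
        funext v
        rw [hzero y h1]; ring
      show (fun v => y v + ((1 : I) : ℝ) * (y c * (dl a v - dl c v))) ∈ _
      rw [this]
      exact h1
  · intro x hx t
    funext v
    show x v + t * (x c * (dl a v - dl c v)) = x v
    rw [hzero x hx]; ring

end SD

end Pool.Agent.W995.CC
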