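import Pool.Agent.W995.CC.PQ

/-!
Null-homotopies and the loops they induce in path spaces.
-/

set_option autoImplicit false

noncomputable section

namespace Pool.Agent.W995.CC

open unitInterval

variable {X X' T : Type} [TopologicalSpace X] [TopologicalSpace X'] [TopologicalSpace T]

/-- A null-homotopy of `f`, constant at the point `x0`. -/
structure NH (f : X → T) (x0 : X) (t0 : T) where
  /-- the trace of a point -/
  N : ∀ x, Path (f x) t0
  cont : Continuous fun p : X × I => N p.1 p.2
  base : ∀ t, N x0 t = t0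

/-- The path in the loop space at `t0` given by the images of the loop `φ` under a family
of maps which sends the base point to `t0`. -/
def sw (F : X → I → T) (hF : Continuous fun p : X × I => F p.1 p.2) {x0 : X} {t0 : T}
    (h0 : ∀ t, F x0 t = t0) (φ : Path x0 x0) {P Q : Path t0 t0}
    (hP : ∀ u, F (φ u) 0 = P u) (hQ : ∀ u, F (φ u) 1 = Q u) : Path P Q where
  toFun t := ⟨⟨fun u => F (φ u) t, by
    exact hF.comp (φ.continuous.prodMk continuous_const)⟩,
    by simpa using h0 t, by simpa using h0 t⟩
  continuous_toFun := by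
    rw [← Path.continuous_uncurry_iff]
    exact hF.comp ((φ.continuous.comp continuous_snd).prodMk continuous_fst)
  source' := by ext u; exact hP u
  target' := by ext u; exact hQ u

@[simp] theorem sw_apply (F : X → I → T) (hF : Continuous fun p : X × I => F p.1 p.2) {x0 : X}
    {t0 : T} (h0 : ∀ t, F x0 t = t0) (φ : Path x0 x0) {P Q : Path t0 t0}
    (hP : ∀ u, F (φ u) 0 = P u) (hQ : ∀ u, F (φ u) 1 = Q u) (t u : I) :
    sw F hF h0 φ hP hQ t u = F (φ u) t := rfl

/-- the image of a loop `φ` under a null-homotopy of `f`: a path in the loop space from `f ∘ φ`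
to the constant loop -/
def NH.push {f : X → T} {x0 : X} {t0 : T} (n : NH f x0 t0) (φ : Path x0 x0) (P : Path t0 t0)
    (hP : ∀ u, P u = f (φ u)) : Path P (Path.refl t0) :=
  sw (fun x => n.N x) n.cont n.base φ (fun u => by rw [hP]; exact (n.N (φ u)).source)
    (fun u => (n.N (φ u)).target)

/-- path homotopies as paths in path spaces -/
def toPP {a b : X} {p q : Path a b} (H : p.Homotopy q) : Path p q where
  toFun t := H.eval t
  continuous_toFun := by
    rw [← Path.continuous_uncurry_iff]
    exact H.continuous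
  source' := by ext u; simp
  target' := by ext u; simp

/-- the image of a path in a path space under a map -/
def mapPP {a b : X} {f : X → T} (hf : Continuous f) {p q : Path a b} (E : Path p q) {a' b' : T}
    {P Q : Path a' b'} (hP : ∀ u, P u = f (p u)) (hQ : ∀ u, Q u = f (q u))
    (ha : a' = f a) (hb : b' = f b) : Path P Q where
  toFun t := ⟨⟨fun u => f (E t u), by fun_prop⟩, by simp [ha], by simp [hb]⟩
  continuous_toFun := by
    rw [← Path.continuous_uncurry_iff]
    have h : Continuous fun p : Path a b × I => p.1 p.2 := by fun_prop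
    exact hf.comp (h.comp ((E.continuous.comp continuous_fst).prodMk continuous_snd))
  source' := by ext u; simp [hP]
  target' := by ext u; simp [hQ]

@[simp] theorem mapPP_apply {a b : X} {f : X → T} (hf : Continuous f) {p q : Path a b}
    (E : Path p q) {a' b' : T} {P Q : Path a' b'} (hP : ∀ u, P u = f (p u))
    (hQ : ∀ u, Q u = f (q u)) (ha : a' = f a) (hb : b' = f b) (t u : I) :
    mapPP hf E hP hQ ha hb t u = f (E t u) := rfl

theorem mapPP_homotopic {a b : X} {f : X → T} (hf : Continuous f) {p q : Path a b}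
    {E E' : Path p q} (h : E.Homotopic E') {a' b' : T} {P Q : Path a' b'} (hP : ∀ u, P u = f (p u))
    (hQ : ∀ u, Q u = f (q u)) (ha : a' = f a) (hb : b' = f b) :
    (mapPP hf E hP hQ ha hb).Homotopic (mapPP hf E' hP hQ ha hb) := by
  obtain ⟨F⟩ := h
  refine ⟨⟨⟨⟨fun x => ⟨⟨fun u => f (F x u), by fun_prop⟩, by simp [ha], by simp [hb]⟩, ?_⟩,
    ?_, ?_⟩, ?_⟩⟩
  · rw [← Path.continuous_uncurry_iff]
    have h : Continuous fun p : Path a b × I => p.1 p.2 := by fun_prop
    exact hf.comp (h.comp ((F.continuous.comp continuous_fst).prodMk continuous_snd))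
  · intro t; ext u; simp
  · intro t; ext u; simp
  · intro t s hs
    rcases hs with rfl | hs
    · ext u; simp [hP]
    · rw [Set.mem_singleton_iff] at hs
      subst hs
      ext u; simp [hQ]

/-- `push` and homotopies of loops -/
theorem NH.push_homotopy {f : X → T} (hf : Continuous f) {x0 : X} {t0 : T} (ht : t0 = f x0)
    (n : NH f x0 t0) {φ ψ : Path x0 x0} (Ψ : Path φ ψ) (P Q : Path t0 t0)
    (hP : ∀ u, P u = f (φ u)) (hQ : ∀ u, Q u = f (ψ u)) :
    (n.push φ P hP).Homotopic ((mapPP hf Ψ hP hQ ht ht).trans (n.push ψ Q hQ)) := by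
  have h := square (Z := Path t0 t0)
    ⟨fun p : I × I => (⟨⟨fun u => n.N (Ψ p.1 u) p.2, by
      exact n.cont.comp ((Ψ p.1).continuous.prodMk continuous_const)⟩,
      by show n.N (Ψ p.1 0) p.2 = t0; rw [(Ψ p.1).source]; exact n.base p.2,
      by show n.N (Ψ p.1 1) p.2 = t0; rw [(Ψ p.1).target]; exact n.base p.2⟩ : Path t0 t0), by
      rw [← Path.continuous_uncurry_iff]
      have h : Continuous fun p : Path x0 x0 × I => p.1 p.2 := by fun_prop
      exact n.cont.comp ((h.comp ((Ψ.continuous.comp (continuous_fst.comp continuous_fst)).prodMk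
        continuous_snd)).prodMk (continuous_snd.comp continuous_fst))⟩
    (mapPP hf Ψ hP hQ ht ht) (n.push ψ Q hQ) (n.push φ P hP) (Path.refl _)
    (fun t => by ext u; simp [mapPP])
    (fun t => by ext u; show n.N (Ψ 1 u) t = n.N (ψ u) t; rw [Ψ.target])
    (fun t => by ext u; show n.N (Ψ 0 u) t = n.N (φ u) t; rw [Ψ.source])
    (fun t => by ext u; simp)
  exact ((Path.Homotopic.trans_refl _).symm).trans h.symm

/-- the image of a loop under a family of loops -/
def swl {t0 : T} (b : C(X, Path t0 t0)) {x0 : X} (hb : b x0 = Path.refl t0) (φ : Path x0 x0) :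
    Path (Path.refl t0) (Path.refl t0) :=
  sw (fun x t => b x t) (by
    have h : Continuous fun p : Path t0 t0 × I => p.1 p.2 := by fun_prop
    exact h.comp ((b.continuous.comp continuous_fst).prodMk continuous_snd))
    (fun t => by rw [hb]; rfl) φ (fun u => by simp) (fun u => by simp)

@[simp] theorem swl_apply {t0 : T} (b : C(X, Path t0 t0)) {x0 : X} (hb : b x0 = Path.refl t0)
    (φ : Path x0 x0) (t u : I) : swl b hb φ t u = b (φ u) t := rfl

theorem swl_homotopic {t0 : T} (b : C(X, Path t0 t0)) {x0 : X} (hb : b x0 = Path.refl t0)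
    {φ ψ : Path x0 x0} (h : φ.Homotopic ψ) : (swl b hb φ).Homotopic (swl b hb ψ) := by
  obtain ⟨H⟩ := h
  have hc : Continuous fun p : X × I => b p.1 p.2 := by
    have h : Continuous fun p : Path t0 t0 × I => p.1 p.2 := by fun_prop
    exact h.comp ((b.continuous.comp continuous_fst).prodMk continuous_snd)
  refine ⟨⟨⟨⟨fun p => ⟨⟨fun u => b (H (p.1, u)) p.2, by fun_prop⟩, ?_, ?_⟩, ?_⟩, ?_, ?_⟩, ?_⟩⟩
  · show b (H (p.1, 0)) p.2 = t0
    rw [H.source, hb]; rfl
  · show b (H (p.1, 1)) p.2 = t0
    rw [H.target, hb]; rfl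
  · rw [← Path.continuous_uncurry_iff]
    exact hc.comp ((H.continuous.comp ((continuous_fst.comp continuous_fst).prodMk
      continuous_snd)).prodMk (continuous_snd.comp continuous_fst))
  · intro t; ext u; simp
  · intro t; ext u; simp
  · intro t s hs
    rcases hs with rfl | hs
    · ext u; simp
    · rw [Set.mem_singleton_iff] at hs
      subst hs
      ext u; simp

theorem ew_pt {Y : Type} [TopologicalSpace Y] {x0 : X} {y0 : Y} (F : X → Y)
    (ℓ : ℕ → Path x0 x0) (P : ℕ → Path y0 y0) (h0 : F x0 = y0) (h : ∀ i u, P i u = F (ℓ i u))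
    (c : List (ℕ × Bool)) : ∀ u, ew P c u = F (ew ℓ c u) := by
  induction c with
  | nil => intro u; simp [ew, h0]
  | cons l c ih =>
    intro u
    rw [ew, ew, Path.trans_apply, Path.trans_apply]
    split_ifs with h1 h2
    · exact h _ _
    · show (P l.1).symm _ = F ((ℓ l.1).symm _)
      rw [Path.symm_apply, Path.symm_apply]
      exact h _ _
    · exact ih _

theorem swl_ew {t0 : T} (b : C(X, Path t0 t0)) {x0 : X} (hb : b x0 = Path.refl t0)
    (ℓ : ℕ → Path x0 x0) (c : List (ℕ × Bool)) :
    swl b hb (ew ℓ c) = ewf (fun i => swl b hb (ℓ i)) c := by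
  refine Path.ext (funext fun t => Path.ext (funext fun u => ?_))
  rw [ewf_apply]
  exact (ew_pt (fun x => b x t) ℓ (fun i => swl b hb (ℓ i) t) (by simp [hb])
    (fun i u => rfl) c u).symm

theorem mk_swl_ew {t0 : T} (b : C(X, Path t0 t0)) {x0 : X} (hb : b x0 = Path.refl t0)
    (ℓ : ℕ → Path x0 x0) (c : List (ℕ × Bool)) :
    LG.mk (swl b hb (ew ℓ c)) = wv (fun i => LG.mk (swl b hb (ℓ i))) c := by
  rw [swl_ew, mk_ewf]

/-- changing a null-homotopy by a family of loops -/
def NH.mul {f : X → T} {x0 : X} {t0 : T} (n : NH f x0 t0) (b : C(X, Path t0 t0))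
    (hb : b x0 = Path.refl t0) : NH f x0 t0 where
  N x := (n.N x).trans (b x)
  cont := by
    refine Path.trans_continuous_family (fun x => n.N x) ?_ (fun x => b x) ?_
    · exact n.cont
    · have h : Continuous fun p : Path t0 t0 × I => p.1 p.2 := by fun_prop
      exact h.comp ((b.continuous.comp continuous_fst).prodMk continuous_snd)
  base t := by
    rw [Path.trans_apply]
    split_ifs
    · exact n.base _
    · rw [hb]; rfl

theorem NH.push_mul {f : X → T} {x0 : X} {t0 : T} (n : NH f x0 t0) (b : C(X, Path t0 t0))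
    (hb : b x0 = Path.refl t0) (φ : Path x0 x0) (P : Path t0 t0) (hP : ∀ u, P u = f (φ u)) :
    (n.mul b hb).push φ P hP = (n.push φ P hP).trans (swl b hb φ) := by
  refine Path.ext (funext fun t => Path.ext (funext fun u => ?_))
  show ((n.N (φ u)).trans (b (φ u))) t = _
  rw [Path.trans_apply, Path.trans_apply]
  split_ifs
  · rfl
  · rfl

end Pool.Agent.W995.CC
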