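import Mathlib

/-!
Loop classes, path spaces and the Eckmann-Hilton argument.
-/

set_option autoImplicit false

noncomputable section

namespace Pool.Agent.W995.CC

open unitInterval Path.Homotopic

section LG

variable {X : Type} [TopologicalSpace X] {x : X}

/-- homotopy classes of loops, the product being the class of the concatenation -/
def LG (x : X) : Type := Path.Homotopic.Quotient x x

/-- the class of a loop -/
def LG.mk (p : Path x x) : LG x := Path.Homotopic.Quotient.mk p

instance (x : X) : Group (LG x) where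
  mul p q := Path.Homotopic.Quotient.trans p q
  one := Path.Homotopic.Quotient.refl x
  inv p := Path.Homotopic.Quotient.symm p
  mul_assoc p q r := Path.Homotopic.Quotient.trans_assoc p q r
  one_mul p := Path.Homotopic.Quotient.refl_trans p
  mul_one p := Path.Homotopic.Quotient.trans_refl p
  inv_mul_cancel p := Path.Homotopic.Quotient.symm_trans p

theorem LG.mk_trans (p q : Path x x) : LG.mk (p.trans q) = LG.mk p * LG.mk q := rfl
theorem LG.mk_symm (p : Path x x) : LG.mk p.symm = (LG.mk p)⁻¹ := rfl
theorem LG.mk_refl : LG.mk (Path.refl x) = 1 := rfl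
theorem LG.mk_eq {p q : Path x x} : LG.mk p = LG.mk q ↔ p.Homotopic q := Path.Homotopic.Quotient.eq
theorem LG.mk_surj (a : LG x) : ∃ p : Path x x, LG.mk p = a := Path.Homotopic.Quotient.mk_surjective a
theorem LG.mk_eq_one {p : Path x x} : LG.mk p = 1 ↔ p.Homotopic (Path.refl x) := by
  rw [← LG.mk_refl, LG.mk_eq]

end LG

/-- the value of a word in a group -/
def wv {G : Type} [Group G] (q : ℕ → G) (c : List (ℕ × Bool)) : G :=
  (c.map fun l => if l.2 then q l.1 else (q l.1)⁻¹).prod

@[simp] theorem wv_nil {G : Type} [Group G] (q : ℕ → G) : wv q [] = 1 := rfl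
@[simp] theorem wv_cons {G : Type} [Group G] (q : ℕ → G) (l : ℕ × Bool) (c : List (ℕ × Bool)) :
    wv q (l :: c) = (if l.2 then q l.1 else (q l.1)⁻¹) * wv q c := by
  simp [wv]
theorem wv_append {G : Type} [Group G] (q : ℕ → G) (c d : List (ℕ × Bool)) :
    wv q (c ++ d) = wv q c * wv q d := by
  simp [wv]
theorem wv_map {G H : Type} [Group G] [Group H] (f : G →* H) (q : ℕ → G) (c : List (ℕ × Bool)) :
    f (wv q c) = wv (fun i => f (q i)) c := by
  induction c with
  | nil => simp
  | cons l c ih => rw [wv_cons, wv_cons, map_mul, ih]; split_ifs <;> simp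

section square

variable {Z : Type} [TopologicalSpace Z]

instance instContrI : ContractibleSpace I := (convex_Icc (0:ℝ) 1).contractibleSpace ⟨0, by simp⟩

/-- the two ways around a square are homotopic -/
theorem square {a b c d : Z} (F : C(I × I, Z)) (p : Path a b) (q : Path b d) (r : Path a c)
    (s : Path c d) (hp : ∀ t, F (t, 0) = p t) (hq : ∀ t, F (1, t) = q t) (hr : ∀ t, F (0, t) = r t)
    (hs : ∀ t, F (t, 1) = s t) : (p.trans q).Homotopic (r.trans s) := by
  have ha : a = F (0, 0) := by rw [hp, p.source]
  have hb : b = F (1, 0) := by rw [hq, q.source]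
  have hc : c = F (0, 1) := by rw [hs, s.source]
  have hd : d = F (1, 1) := by rw [hq, q.target]
  subst ha hb hc hd
  let p' : Path ((0, 0) : I × I) (1, 0) := ⟨⟨fun t => (t, 0), by fun_prop⟩, rfl, rfl⟩
  let q' : Path ((1, 0) : I × I) (1, 1) := ⟨⟨fun t => (1, t), by fun_prop⟩, rfl, rfl⟩
  let r' : Path ((0, 0) : I × I) (0, 1) := ⟨⟨fun t => (0, t), by fun_prop⟩, rfl, rfl⟩
  let s' : Path ((0, 1) : I × I) (1, 1) := ⟨⟨fun t => (t, 1), by fun_prop⟩, rfl, rfl⟩
  have h := (SimplyConnectedSpace.paths_homotopic (p'.trans q') (r'.trans s')).map F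
  rw [Path.map_trans, Path.map_trans] at h
  have e1 : p = p'.map F.continuous := by ext t; exact (hp t).symm
  have e2 : q = q'.map F.continuous := by ext t; exact (hq t).symm
  have e3 : r = r'.map F.continuous := by ext t; exact (hr t).symm
  have e4 : s = s'.map F.continuous := by ext t; exact (hs t).symm
  rw [e1, e2, e3, e4]
  exact h

end square

section EH

variable {X : Type} [TopologicalSpace X] {x : X}

/-- pointwise concatenation of two loops in the loop space -/
def pmc (A B : Path (Path.refl x) (Path.refl x)) : Path (Path.refl x) (Path.refl x) where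
  toFun t := (A t).trans (B t)
  continuous_toFun := by
    have h : Continuous fun p : Path x x × Path x x => p.1.trans p.2 := Path.continuous_trans
    exact h.comp (A.continuous.prodMk B.continuous)
  source' := by simp
  target' := by simp

/-- pointwise inverse of a loop in the loop space -/
def smc (A : Path (Path.refl x) (Path.refl x)) : Path (Path.refl x) (Path.refl x) where
  toFun t := (A t).symm
  continuous_toFun := Path.continuous_symm.comp A.continuous
  source' := by simp
  target' := by simp

theorem pmc_homotopic {A A' B B' : Path (Path.refl x) (Path.refl x)} (hA : A.Homotopic A')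
    (hB : B.Homotopic B') : (pmc A B).Homotopic (pmc A' B') := by
  obtain ⟨F⟩ := hA
  obtain ⟨G⟩ := hB
  refine ⟨⟨⟨⟨fun p => (F p).trans (G p), ?_⟩, ?_, ?_⟩, ?_⟩⟩
  · have h : Continuous fun p : Path x x × Path x x => p.1.trans p.2 := Path.continuous_trans
    exact h.comp (F.continuous.prodMk G.continuous)
  · intro t; simp [pmc]
  · intro t; simp [pmc]
  · intro t s hs
    rcases hs with rfl | hs
    · simp [pmc]
    · rw [Set.mem_singleton_iff] at hs
      subst hs
      simp [pmc]

theorem pmc_trans (A A' B B' : Path (Path.refl x) (Path.refl x)) :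
    pmc (A.trans A') (B.trans B') = (pmc A B).trans (pmc A' B') := by
  refine Path.ext (funext fun t => ?_)
  show ((A.trans A') t).trans ((B.trans B') t) = ((pmc A B).trans (pmc A' B')) t
  rw [Path.trans_apply A A', Path.trans_apply B B', Path.trans_apply (pmc A B)]
  split_ifs <;> rfl

theorem pmc_refl (A : Path (Path.refl x) (Path.refl x)) :
    (pmc A (Path.refl _)).Homotopic A := by
  refine ⟨⟨⟨⟨fun p => Path.delayReflRight p.1 (A p.2), ?_⟩, ?_, ?_⟩, ?_⟩⟩
  · exact Path.continuous_delayReflRight.comp (continuous_fst.prodMk (A.continuous.comp continuous_snd))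
  · intro t
    simp [pmc, Path.delayReflRight_zero]
  · intro t
    simp [Path.delayReflRight_one]
  · intro t s hs
    rcases hs with rfl | hs
    · simp [pmc]; ext u; rfl
    · rw [Set.mem_singleton_iff] at hs
      subst hs
      simp [pmc]; ext u; rfl

theorem refl_pmc (A : Path (Path.refl x) (Path.refl x)) :
    (pmc (Path.refl _) A).Homotopic A := by
  refine ⟨⟨⟨⟨fun p => Path.delayReflLeft p.1 (A p.2), ?_⟩, ?_, ?_⟩, ?_⟩⟩
  · exact Path.continuous_delayReflLeft.comp (continuous_fst.prodMk (A.continuous.comp continuous_snd))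
  · intro t
    simp [pmc, Path.delayReflLeft_zero]
  · intro t
    simp [Path.delayReflLeft_one]
  · intro t s hs
    rcases hs with rfl | hs
    · simp [pmc]; ext u; rfl
    · rw [Set.mem_singleton_iff] at hs
      subst hs
      simp [pmc]; ext u; rfl

theorem pmc_eq (A B : Path (Path.refl x) (Path.refl x)) : (pmc A B).Homotopic (A.trans B) := by
  have h1 : (pmc A B).Homotopic (pmc (A.trans (Path.refl _)) ((Path.refl _).trans B)) :=
    pmc_homotopic (Path.Homotopic.trans_refl A).symm (Path.Homotopic.refl_trans B).symm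
  rw [pmc_trans] at h1
  exact h1.trans ((pmc_refl A).hcomp (refl_pmc B))

theorem pmc_eq' (A B : Path (Path.refl x) (Path.refl x)) : (pmc A B).Homotopic (B.trans A) := by
  have h1 : (pmc A B).Homotopic (pmc ((Path.refl _).trans A) (B.trans (Path.refl _))) :=
    pmc_homotopic (Path.Homotopic.refl_trans A).symm (Path.Homotopic.trans_refl B).symm
  rw [pmc_trans] at h1
  exact h1.trans ((refl_pmc B).hcomp (pmc_refl A))

/-- the loop classes of a loop space commute -/
theorem LG.comm (a b : LG (Path.refl x)) : a * b = b * a := by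
  obtain ⟨A, rfl⟩ := LG.mk_surj a
  obtain ⟨B, rfl⟩ := LG.mk_surj b
  rw [← LG.mk_trans, ← LG.mk_trans, LG.mk_eq]
  exact (pmc_eq A B).symm.trans (pmc_eq' A B)

instance : CommGroup (LG (Path.refl x)) := { (inferInstance : Group (LG (Path.refl x))) with
  mul_comm := LG.comm }

theorem mk_pmc (A B : Path (Path.refl x) (Path.refl x)) :
    LG.mk (pmc A B) = LG.mk A * LG.mk B := by
  rw [← LG.mk_trans, LG.mk_eq]
  exact pmc_eq A B

theorem mk_smc (A : Path (Path.refl x) (Path.refl x)) : LG.mk (smc A) = (LG.mk A)⁻¹ := by
  rw [eq_inv_iff_mul_eq_one, LG.comm, ← mk_pmc, LG.mk_eq_one]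
  symm
  refine ⟨⟨⟨⟨fun p => ⟨⟨fun u => A p.2 ⟨Path.Homotopy.reflTransSymmAux (p.1, u),
    Path.Homotopy.reflTransSymmAux_mem_I _⟩, ?_⟩, ?_, ?_⟩, ?_⟩, ?_, ?_⟩, ?_⟩⟩
  · fun_prop
  · simp [Path.Homotopy.reflTransSymmAux]
  · simp [Path.Homotopy.reflTransSymmAux]; norm_num
  · rw [← Path.continuous_uncurry_iff]
    have h : Continuous fun p : Path x x × I => p.1 p.2 := by fun_prop
    refine h.comp ((A.continuous.comp (continuous_snd.comp continuous_fst)).prodMk ?_)
    refine Continuous.subtype_mk ?_ _
    exact Path.Homotopy.continuous_reflTransSymmAux.comp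
      ((continuous_fst.comp continuous_fst).prodMk continuous_snd)
  · intro t
    ext u
    simp [Path.Homotopy.reflTransSymmAux]
  · intro t
    ext u
    have := (Path.Homotopy.reflTransSymm (A t)).map_one_left u
    exact this
  · intro t s hs
    rcases hs with rfl | hs
    · ext u; simp
    · rw [Set.mem_singleton_iff] at hs
      subst hs
      ext u; simp

end EH

section words

variable {X : Type} [TopologicalSpace X] {x : X}

/-- the loop given by a word in loops -/
def ew (a : ℕ → Path x x) : List (ℕ × Bool) → Path x x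
  | [] => Path.refl x
  | l :: c => (if l.2 then a l.1 else (a l.1).symm).trans (ew a c)

theorem mk_ew (a : ℕ → Path x x) (c : List (ℕ × Bool)) :
    LG.mk (ew a c) = wv (fun i => LG.mk (a i)) c := by
  induction c with
  | nil => rfl
  | cons l c ih =>
    rw [ew, LG.mk_trans, ih, wv_cons]
    congr 1
    split_ifs
    · rfl
    · exact LG.mk_symm _

theorem ew_map {Y : Type} [TopologicalSpace Y] (a : ℕ → Path x x) (f : C(X, Y))
    (c : List (ℕ × Bool)) :
    (ew a c).map f.continuous = ew (fun i => (a i).map f.continuous) c := by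
  induction c with
  | nil => rfl
  | cons l c ih =>
    rw [ew, Path.map_trans, ih, ew]
    congr 1
    split_ifs
    · rfl
    · rfl

/-- the family of words in families of loops -/
def ewf (a : ℕ → Path (Path.refl x) (Path.refl x)) :
    List (ℕ × Bool) → Path (Path.refl x) (Path.refl x)
  | [] => Path.refl _
  | l :: c => pmc (if l.2 then a l.1 else smc (a l.1)) (ewf a c)

theorem ewf_apply (a : ℕ → Path (Path.refl x) (Path.refl x)) (c : List (ℕ × Bool)) (t : I) :
    ewf a c t = ew (fun i => a i t) c := by
  induction c with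
  | nil => rfl
  | cons l c ih =>
    rw [ewf, ew, ← ih]
    show Path.trans _ _ = _
    congr 1
    split_ifs
    · rfl
    · rfl

theorem mk_ewf (a : ℕ → Path (Path.refl x) (Path.refl x)) (c : List (ℕ × Bool)) :
    LG.mk (ewf a c) = wv (fun i => LG.mk (a i)) c := by
  induction c with
  | nil => rfl
  | cons l c ih =>
    rw [ewf, mk_pmc, ih, wv_cons]
    congr 1
    split_ifs
    · rfl
    · exact mk_smc _

end words

end Pool.Agent.W995.CC
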