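import Pool.Agent.W995.CC.TopMain

/-!
Geometric realisations of finite simplicial complexes given by lists of simplices.
-/

set_option autoImplicit false

noncomputable section

namespace Pool.Agent.W995.CC

open unitInterval

/-- the closed simplex with the vertices `s` -/
def Sx (s : List ℕ) : Set (ℕ → ℝ) :=
  {x | (∀ v, 0 ≤ x v) ∧ (∀ v, v ∉ s → x v = 0) ∧ ∑ v ∈ s.toFinset, x v = 1}

/-- the realisation of the simplicial complex generated by the simplices in `L` -/
def Re (L : List (List ℕ)) : Set (ℕ → ℝ) := {x | ∃ s ∈ L, x ∈ Sx s}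

theorem isClosed_Sx (s : List ℕ) : IsClosed (Sx s) := by
  have h : Sx s = (⋂ v, {x : ℕ → ℝ | 0 ≤ x v}) ∩ ((⋂ v, ⋂ (_ : v ∉ s), {x : ℕ → ℝ | x v = 0}) ∩
      {x : ℕ → ℝ | ∑ v ∈ s.toFinset, x v = 1}) := by
    ext x
    simp [Sx]
  rw [h]
  refine IsClosed.inter ?_ (IsClosed.inter ?_ ?_)
  · exact isClosed_iInter fun v => isClosed_le continuous_const (continuous_apply v)
  · exact isClosed_iInter fun v => isClosed_iInter fun _ =>
      isClosed_eq (continuous_apply v) continuous_const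
  · exact isClosed_eq (by fun_prop) continuous_const

theorem Re_cons (s : List ℕ) (L : List (List ℕ)) : Re (s :: L) = Sx s ∪ Re L := by
  ext x
  simp [Re]

theorem Re_append (L L' : List (List ℕ)) : Re (L ++ L') = Re L ∪ Re L' := by
  ext x
  simp only [Re, List.mem_append, Set.mem_ofPred_eq, Set.mem_union]
  constructor
  · rintro ⟨s, hs | hs, hx⟩
    · exact Or.inl ⟨s, hs, hx⟩
    · exact Or.inr ⟨s, hs, hx⟩
  · rintro (⟨s, hs, hx⟩ | ⟨s, hs, hx⟩)
    · exact ⟨s, Or.inl hs, hx⟩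
    · exact ⟨s, Or.inr hs, hx⟩

theorem isClosed_Re (L : List (List ℕ)) : IsClosed (Re L) := by
  induction L with
  | nil => simp [Re]
  | cons s L ih => rw [Re_cons]; exact (isClosed_Sx s).union ih

theorem sum_eq {x : ℕ → ℝ} {s : List ℕ} (h : ∀ v, v ∉ s → x v = 0) (F : Finset ℕ)
    (hF : ∀ v, v ∉ F → x v = 0) : ∑ v ∈ F, x v = ∑ v ∈ s.toFinset, x v := by
  have h1 : ∑ v ∈ F, x v = ∑ v ∈ F ∪ s.toFinset, x v :=
    Finset.sum_subset Finset.subset_union_left fun v _ hv => hF v hv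
  have h2 : ∑ v ∈ s.toFinset, x v = ∑ v ∈ F ∪ s.toFinset, x v :=
    Finset.sum_subset Finset.subset_union_right fun v _ hv => h v (by simpa using hv)
  rw [h1, h2]

theorem mem_Sx_iff {x : ℕ → ℝ} {s : List ℕ} (F : Finset ℕ) (hF : ∀ v, v ∉ F → x v = 0) :
    x ∈ Sx s ↔ (∀ v, 0 ≤ x v) ∧ (∀ v, v ∉ s → x v = 0) ∧ ∑ v ∈ F, x v = 1 := by
  constructor
  · rintro ⟨h1, h2, h3⟩
    exact ⟨h1, h2, by rw [sum_eq h2 F hF, h3]⟩
  · rintro ⟨h1, h2, h3⟩
    exact ⟨h1, h2, by rw [← sum_eq h2 F hF, h3]⟩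

theorem Sx_mono {s t : List ℕ} (h : ∀ v ∈ s, v ∈ t) : Sx s ⊆ Sx t := by
  rintro x ⟨h1, h2, h3⟩
  have h4 : ∀ v, v ∉ t → x v = 0 := fun v hv => h2 v fun hs => hv (h v hs)
  exact ⟨h1, h4, by rw [← h3]; exact sum_eq h2 _ (fun v hv => h4 v (by simpa using hv))⟩

theorem Re_mono {L L' : List (List ℕ)} (h : ∀ s ∈ L, s ∈ L') : Re L ⊆ Re L' := by
  rintro x ⟨s, hs, hx⟩
  exact ⟨s, h s hs, hx⟩

theorem convex_Sx (s : List ℕ) : Convex ℝ (Sx s) := by
  rintro x ⟨h1, h2, h3⟩ y ⟨k1, k2, k3⟩ a b ha hb hab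
  refine ⟨fun v => ?_, fun v hv => ?_, ?_⟩
  · simp only [Pi.add_apply, Pi.smul_apply, smul_eq_mul]
    have := h1 v
    have := k1 v
    positivity
  · simp [h2 v hv, k2 v hv]
  · simp only [Pi.add_apply, Pi.smul_apply, smul_eq_mul, Finset.sum_add_distrib,
      ← Finset.mul_sum, h3, k3]
    linarith

/-- the vertex `a` -/
def dl (a : ℕ) : ℕ → ℝ := Pi.single a 1

theorem dl_mem {a : ℕ} {s : List ℕ} (h : a ∈ s) : dl a ∈ Sx s := by
  refine ⟨fun v => ?_, fun v hv => ?_, ?_⟩
  · unfold dl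
    by_cases hv : v = a
    · subst hv; simp
    · simp [Pi.single_eq_of_ne hv]
  · have : v ≠ a := fun e => hv (e ▸ h)
    simp [dl, Pi.single_eq_of_ne this]
  · have h1 : ∀ v ∈ s.toFinset, dl a v = if v = a then 1 else 0 := by
      intro v _
      by_cases hv : v = a
      · subst hv; simp [dl]
      · simp [dl, hv]
    rw [Finset.sum_congr rfl h1]
    simp [h]

/-- `a` and `b` are in a common simplex -/
def adj (L : List (List ℕ)) (a b : ℕ) : Prop := ∃ s ∈ L, a ∈ s ∧ b ∈ s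
/-- three vertices of a common simplex -/
def adj3 (L : List (List ℕ)) (a b c : ℕ) : Prop := ∃ s ∈ L, a ∈ s ∧ b ∈ s ∧ c ∈ s

theorem adj.left {L : List (List ℕ)} {a b : ℕ} (h : adj L a b) : adj L a a := by
  obtain ⟨s, hs, ha, _⟩ := h
  exact ⟨s, hs, ha, ha⟩
theorem adj.symm {L : List (List ℕ)} {a b : ℕ} (h : adj L a b) : adj L b a := by
  obtain ⟨s, hs, ha, hb⟩ := h
  exact ⟨s, hs, hb, ha⟩
theorem adj.right {L : List (List ℕ)} {a b : ℕ} (h : adj L a b) : adj L b b := h.symm.left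
theorem adj.mono {L L' : List (List ℕ)} (hL : ∀ s ∈ L, s ∈ L') {a b : ℕ} (h : adj L a b) :
    adj L' a b := by
  obtain ⟨s, hs, ha, hb⟩ := h
  exact ⟨s, hL s hs, ha, hb⟩
theorem adj3.mono {L L' : List (List ℕ)} (hL : ∀ s ∈ L, s ∈ L') {a b c : ℕ} (h : adj3 L a b c) :
    adj3 L' a b c := by
  obtain ⟨s, hs, h⟩ := h
  exact ⟨s, hL s hs, h⟩
theorem adj3.ab {L : List (List ℕ)} {a b c : ℕ} (h : adj3 L a b c) : adj L a b := by
  obtain ⟨s, hs, ha, hb, hc⟩ := h
  exact ⟨s, hs, ha, hb⟩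
theorem adj3.bc {L : List (List ℕ)} {a b c : ℕ} (h : adj3 L a b c) : adj L b c := by
  obtain ⟨s, hs, ha, hb, hc⟩ := h
  exact ⟨s, hs, hb, hc⟩
theorem adj3.ac {L : List (List ℕ)} {a b c : ℕ} (h : adj3 L a b c) : adj L a c := by
  obtain ⟨s, hs, ha, hb, hc⟩ := h
  exact ⟨s, hs, ha, hc⟩

/-- a vertex as a point of the realisation -/
def pt (L : List (List ℕ)) (a : ℕ) (h : adj L a a) : Re L :=
  ⟨dl a, by obtain ⟨s, hs, ha, _⟩ := h; exact ⟨s, hs, dl_mem ha⟩⟩

theorem pt_congr {L : List (List ℕ)} {a b : ℕ} (h : a = b) (ha : adj L a a) (hb : adj L b b) :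
    pt L a ha = pt L b hb := by subst h; rfl

theorem seg_mem {s : List ℕ} {x y : ℕ → ℝ} (hx : x ∈ Sx s) (hy : y ∈ Sx s) (t : I) :
    (fun v => (1 - (t : ℝ)) * x v + t * y v) ∈ Sx s := by
  have := convex_Sx s hx hy (sub_nonneg.2 t.2.2) t.2.1 (by ring)
  exact this

/-- the edge from `a` to `b` as a path -/
def sg (L : List (List ℕ)) (a b : ℕ) (h : adj L a b) : Path (pt L a h.left) (pt L b h.right) where
  toFun t := ⟨fun v => (1 - (t : ℝ)) * dl a v + t * dl b v, by
    obtain ⟨s, hs, ha, hb⟩ := h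
    exact ⟨s, hs, seg_mem (dl_mem ha) (dl_mem hb) t⟩⟩
  continuous_toFun := by
    refine Continuous.subtype_mk ?_ _
    refine continuous_pi fun v => ?_
    fun_prop
  source' := by
    apply Subtype.ext
    funext v
    simp [pt]
  target' := by
    apply Subtype.ext
    funext v
    simp [pt]

/-- two paths in the same simplex are homotopic -/
theorem hom_of_Sx {L : List (List ℕ)} {s : List ℕ} (hs : s ∈ L) {x y : Re L} (p q : Path x y)
    (hp : ∀ t, (p t : ℕ → ℝ) ∈ Sx s) (hq : ∀ t, (q t : ℕ → ℝ) ∈ Sx s) : p.Homotopic q := by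
  refine ⟨⟨⟨⟨fun z => ⟨fun v => (1 - (z.1 : ℝ)) * (p z.2 : ℕ → ℝ) v + z.1 * (q z.2 : ℕ → ℝ) v,
    ⟨s, hs, seg_mem (hp _) (hq _) _⟩⟩, ?_⟩, ?_, ?_⟩, ?_⟩⟩
  · refine Continuous.subtype_mk (continuous_pi fun v => ?_) _
    have h1 : Continuous fun z : I × I => (p z.2 : ℕ → ℝ) v :=
      (continuous_apply v).comp (continuous_subtype_val.comp (p.continuous.comp continuous_snd))
    have h2 : Continuous fun z : I × I => (q z.2 : ℕ → ℝ) v :=
      (continuous_apply v).comp (continuous_subtype_val.comp (q.continuous.comp continuous_snd))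
    have h3 : Continuous fun z : I × I => (z.1 : ℝ) := by fun_prop
    exact ((continuous_const.sub h3).mul h1).add (h3.mul h2)
  · intro t
    apply Subtype.ext
    funext v
    simp
  · intro t
    apply Subtype.ext
    funext v
    simp
  · intro t u hu
    rcases hu with rfl | hu
    · apply Subtype.ext
      funext v
      simp
      ring
    · rw [Set.mem_singleton_iff] at hu
      subst hu
      apply Subtype.ext
      funext v
      simp
      ring

theorem sg_mem {L : List (List ℕ)} {a b : ℕ} (h : adj L a b) {s : List ℕ} (ha : a ∈ s) (hb : b ∈ s)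
    (t : I) : (sg L a b h t : ℕ → ℝ) ∈ Sx s := seg_mem (dl_mem ha) (dl_mem hb) t

theorem trans_mem {L : List (List ℕ)} {x y z : Re L} {p : Path x y} {q : Path y z} {A : Set (ℕ → ℝ)}
    (hp : ∀ t, (p t : ℕ → ℝ) ∈ A) (hq : ∀ t, (q t : ℕ → ℝ) ∈ A) (t : I) :
    ((p.trans q) t : ℕ → ℝ) ∈ A := by
  rw [Path.trans_apply]
  split_ifs
  · exact hp _
  · exact hq _

/-- the class of an edge -/
def sq (L : List (List ℕ)) (a b : ℕ) (h : adj L a b) :
    Path.Homotopic.Quotient (pt L a h.left) (pt L b h.right) := .mk (sg L a b h)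

theorem sq_tri {L : List (List ℕ)} {a b c : ℕ} (h : adj3 L a b c) :
    (sq L a b h.ab).trans (sq L b c h.bc) = sq L a c h.ac := by
  obtain ⟨s, hs, ha, hb, hc⟩ := h
  refine Path.Homotopic.Quotient.eq.2 (hom_of_Sx hs _ _ ?_ ?_)
  · exact trans_mem (sg_mem _ ha hb) (sg_mem _ hb hc)
  · exact sg_mem _ ha hc

theorem sq_self {L : List (List ℕ)} {a : ℕ} (h : adj L a a) :
    sq L a a h = .refl _ := by
  obtain ⟨s, hs, ha, -⟩ := id h
  refine Path.Homotopic.Quotient.eq.2 (hom_of_Sx hs _ _ (sg_mem _ ha ha) ?_)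
  intro t
  exact dl_mem ha

theorem sq_symm {L : List (List ℕ)} {a b : ℕ} (h : adj L a b) :
    (sq L a b h).symm = sq L b a h.symm := by
  refine Path.Homotopic.Quotient.eq.2 ?_
  have : (sg L a b h).symm = sg L b a h.symm := by
    refine Path.ext (funext fun t => Subtype.ext (funext fun v => ?_))
    show (1 - ((σ t : I) : ℝ)) * dl a v + ((σ t : I) : ℝ) * dl b v =
      (1 - (t : ℝ)) * dl b v + t * dl a v
    rw [coe_symm_eq]
    ring
  rw [this]

/-- `vs` is an edge path from `a` to `b` (with `a` omitted) -/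
def chain (L : List (List ℕ)) : ℕ → List ℕ → ℕ → Prop
  | a, [], b => a = b ∧ adj L a a
  | a, c :: vs, b => adj L a c ∧ chain L c vs b

theorem chain.start {L : List (List ℕ)} {a b : ℕ} {vs : List ℕ} (h : chain L a vs b) :
    adj L a a := by
  cases vs with
  | nil => exact h.2
  | cons b vs => exact h.1.left

theorem chain.last {L : List (List ℕ)} {a b : ℕ} {vs : List ℕ} (h : chain L a vs b) :
    adj L b b := by
  induction vs generalizing a with
  | nil => exact h.1 ▸ h.2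
  | cons b vs ih => exact ih h.2

theorem chain.mono {L L' : List (List ℕ)} (hL : ∀ s ∈ L, s ∈ L') {a b : ℕ} {vs : List ℕ}
    (h : chain L a vs b) : chain L' a vs b := by
  induction vs generalizing a with
  | nil => exact ⟨h.1, adj.mono hL h.2⟩
  | cons b vs ih => exact ⟨h.1.mono hL, ih h.2⟩

/-- the class of an edge path -/
def ep (L : List (List ℕ)) : ∀ (a : ℕ) (vs : List ℕ) (b : ℕ) (h : chain L a vs b),
    Path.Homotopic.Quotient (pt L a h.start) (pt L b h.last)
  | _, [], _, h => (Path.Homotopic.Quotient.refl _).cast rfl (pt_congr h.1.symm _ _)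
  | a, c :: vs, b, h => (sq L a c h.1).trans (ep L c vs b h.2)

theorem chain.append {L : List (List ℕ)} {a b c : ℕ} {vs ws : List ℕ} (h : chain L a vs b)
    (h' : chain L b ws c) : chain L a (vs ++ ws) c := by
  induction vs generalizing a with
  | nil => obtain ⟨rfl, -⟩ := h; exact h'
  | cons b vs ih => exact ⟨h.1, ih h.2⟩

theorem ep_nil {L : List (List ℕ)} {a : ℕ} (h : chain L a [] a) : ep L a [] a h = .refl _ := rfl

theorem ep_append {L : List (List ℕ)} {a b c : ℕ} {vs ws : List ℕ} (h : chain L a vs b)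
    (h' : chain L b ws c) :
    ep L a (vs ++ ws) c (h.append h') = (ep L a vs b h).trans (ep L b ws c h') := by
  induction vs generalizing a with
  | nil =>
    obtain ⟨rfl, h0⟩ := id h
    rw [ep_nil, Path.Homotopic.Quotient.refl_trans]
    rfl
  | cons d vs ih =>
    show (sq L a d h.1).trans (ep L d (vs ++ ws) c (h.append h').2) = _
    rw [ih h.2]
    exact (Path.Homotopic.Quotient.trans_assoc _ _ _).symm

/-- the inclusion of realisations -/
def inc {L L' : List (List ℕ)} (h : Re L ⊆ Re L') : C(Re L, Re L') :=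
  ⟨Set.inclusion h, continuous_inclusion h⟩

theorem sq_map {L L' : List (List ℕ)} (hL : ∀ s ∈ L, s ∈ L') {a b : ℕ} (h : adj L a b) :
    (sq L a b h).map (inc (Re_mono hL)) = sq L' a b (h.mono hL) := rfl

theorem ep_map {L L' : List (List ℕ)} (hL : ∀ s ∈ L, s ∈ L') {a b : ℕ} {vs : List ℕ}
    (h : chain L a vs b) :
    (ep L a vs b h).map (inc (Re_mono hL)) = ep L' a vs b (h.mono hL) := by
  induction vs generalizing a with
  | nil =>
    obtain ⟨rfl, h0⟩ := id h
    rfl
  | cons d vs ih =>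
    have h1 := ih h.2
    show ((sq L a d h.1).trans (ep L d vs b h.2)).map (inc (Re_mono hL)) =
      (sq L' a d (h.1.mono hL)).trans (ep L' d vs b (h.2.mono hL))
    rw [← h1, ← sq_map hL h.1]
    generalize sq L a d h.1 = x
    generalize ep L d vs b h.2 = y
    induction x using Path.Homotopic.Quotient.ind with | mk x =>
    induction y using Path.Homotopic.Quotient.ind with | mk y =>
    rw [← Path.Homotopic.Quotient.mk_trans, ← Path.Homotopic.Quotient.mk_map, Path.map_trans]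
    rfl

end Pool.Agent.W995.CC
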