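import Pool.Agent.W995.CC.Simp

/-!
Splitting a point of a simplex at a given height (the staircase triangulation of a product).
-/

set_option autoImplicit false

noncomputable section

namespace Pool.Agent.W995.CC

open unitInterval

/-- partial sums from above -/
def RR (N : ℕ) (a : ℕ → ℝ) (v : ℕ) : ℝ := ∑ u ∈ Finset.Ico v N, a u

/-- the upper part, of mass `τ` -/
def hi (N : ℕ) (a : ℕ → ℝ) (τ : ℝ) (v : ℕ) : ℝ := min τ (RR N a v) - min τ (RR N a (v + 1))

theorem RR_succ {N : ℕ} {a : ℕ → ℝ} {v : ℕ} (hv : v < N) : RR N a v = a v + RR N a (v + 1) := by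
  unfold RR
  rw [Finset.sum_eq_sum_Ico_succ_bot hv]

theorem RR_of_le {N : ℕ} {a : ℕ → ℝ} {v : ℕ} (hv : N ≤ v) : RR N a v = 0 := by
  unfold RR
  rw [Finset.Ico_eq_empty (by omega), Finset.sum_empty]

theorem hi_of_le {N : ℕ} {a : ℕ → ℝ} {τ : ℝ} {v : ℕ} (hv : N ≤ v) : hi N a τ v = 0 := by
  unfold hi
  rw [RR_of_le hv, RR_of_le (by omega), sub_self]

theorem RR_nonneg {N : ℕ} {a : ℕ → ℝ} (ha : ∀ v, 0 ≤ a v) (v : ℕ) : 0 ≤ RR N a v :=
  Finset.sum_nonneg fun u _ => ha u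

theorem RR_anti {N : ℕ} {a : ℕ → ℝ} (ha : ∀ v, 0 ≤ a v) {v w : ℕ} (h : v ≤ w) :
    RR N a w ≤ RR N a v :=
  Finset.sum_le_sum_of_subset_of_nonneg (Finset.Ico_subset_Ico_left h) fun u _ _ => ha u

theorem hi_nonneg {N : ℕ} {a : ℕ → ℝ} (ha : ∀ v, 0 ≤ a v) (τ : ℝ) (v : ℕ) : 0 ≤ hi N a τ v := by
  unfold hi
  have := RR_anti (N := N) ha (Nat.le_succ v)
  have := min_le_min_left τ this
  linarith

theorem hi_le {N : ℕ} {a : ℕ → ℝ} (ha : ∀ v, 0 ≤ a v) (τ : ℝ) (v : ℕ) :
    hi N a τ v ≤ a v := by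
  by_cases hv : v < N
  · unfold hi
    rw [RR_succ hv]
    have h1 := ha v
    rcases le_total τ (RR N a (v + 1)) with h | h
    · rw [min_eq_left h, min_eq_left (by linarith)]; linarith
    · rw [min_eq_right h]
      have := min_le_right τ (a v + RR N a (v + 1))
      linarith
  · rw [hi_of_le (by omega)]
    exact ha v

theorem hi_sum {N : ℕ} {a : ℕ → ℝ} {τ : ℝ} (h0 : 0 ≤ τ)
    (h1 : τ ≤ RR N a 0) : ∑ v ∈ Finset.range N, hi N a τ v = τ := by
  have h : ∀ n, ∑ v ∈ Finset.range n, hi N a τ v = min τ (RR N a 0) - min τ (RR N a n) := by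
    intro n
    induction n with
    | zero => simp
    | succ n ih => rw [Finset.sum_range_succ, ih]; unfold hi; ring
  rw [h, RR_of_le le_rfl, min_eq_left h1, min_eq_right h0, sub_zero]

theorem hi_zero {N : ℕ} {a : ℕ → ℝ} (ha : ∀ v, 0 ≤ a v) {τ : ℝ} (hτ : τ ≤ 0) (v : ℕ) :
    hi N a τ v = 0 := by
  unfold hi
  rw [min_eq_left (hτ.trans (RR_nonneg ha _)), min_eq_left (hτ.trans (RR_nonneg ha _)), sub_self]

theorem hi_one {N : ℕ} {a : ℕ → ℝ} (ha : ∀ v, 0 ≤ a v) {τ : ℝ}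
    (hτ : RR N a 0 ≤ τ) {v : ℕ} (hv : v < N) : hi N a τ v = a v := by
  unfold hi
  rw [min_eq_right ((RR_anti ha (Nat.zero_le _)).trans hτ),
    min_eq_right ((RR_anti ha (Nat.zero_le _)).trans hτ), RR_succ hv]
  ring

theorem hi_cont (N : ℕ) (v : ℕ) : Continuous fun p : (ℕ → ℝ) × ℝ => hi N p.1 p.2 v := by
  unfold hi RR
  fun_prop

/-- the splitting is determined by the supports -/
theorem hi_unique {N : ℕ} {lo h : ℕ → ℝ} (hlo : ∀ v, 0 ≤ lo v) (hh : ∀ v, 0 ≤ h v) {c : ℕ}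
    (h1 : ∀ v, c < v → lo v = 0) (h2 : ∀ v, v < c → h v = 0) {v : ℕ} (hv : v < N) :
    hi N (fun u => lo u + h u) (∑ u ∈ Finset.range N, h u) v = h v := by
  have key : ∀ w, min (∑ u ∈ Finset.range N, h u) (RR N (fun u => lo u + h u) w) = RR N h w := by
    intro w
    have e0 : RR N (fun u => lo u + h u) w = RR N lo w + RR N h w := by
      unfold RR; rw [Finset.sum_add_distrib]
    have e1 : RR N h w ≤ ∑ u ∈ Finset.range N, h u := by
      have := RR_anti (N := N) hh (Nat.zero_le w)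
      rwa [show RR N h 0 = ∑ u ∈ Finset.range N, h u by unfold RR; rw [Finset.range_eq_Ico]] at this
    rcases lt_or_ge c w with hw | hw
    · have e2 : RR N lo w = 0 := by
        unfold RR
        refine Finset.sum_eq_zero fun u hu => h1 u ?_
        rw [Finset.mem_Ico] at hu
        omega
      rw [e0, e2, zero_add, min_eq_right e1]
    · have e2 : RR N h w = ∑ u ∈ Finset.range N, h u := by
        unfold RR
        rw [Finset.range_eq_Ico]
        refine Finset.sum_subset (Finset.Ico_subset_Ico_left (Nat.zero_le _)) fun u hu hu2 => h2 u ?_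
        rw [Finset.mem_Ico] at hu hu2
        omega
      rw [e0, e2, min_eq_left]
      have := RR_nonneg (N := N) hlo w
      linarith
  unfold hi
  rw [key, key, RR_succ hv]
  ring

/-- existence of a cut -/
theorem exists_cut {N : ℕ} (hN : 0 < N) {a : ℕ → ℝ} (ha : ∀ v, 0 ≤ a v) (τ : ℝ)
    (hτ : τ ≤ RR N a 0) : ∃ c < N, (∀ v, c < v → v < N → hi N a τ v = a v) ∧
      ∀ v, v < c → hi N a τ v = 0 := by
  classical
  let Pr : ℕ → Prop := fun v => τ ≤ RR N a v
  let c := Nat.findGreatest Pr (N - 1)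
  have hc : Pr c := Nat.findGreatest_spec (Nat.zero_le _) hτ
  refine ⟨c, ?_, fun v hv hvN => ?_, fun v hv => ?_⟩
  · have := Nat.findGreatest_le (P := Pr) (N - 1)
    omega
  · have h1 : ¬ Pr v := Nat.findGreatest_is_greatest hv (by omega)
    have h2 : RR N a v < τ := not_le.1 h1
    have h3 : RR N a (v + 1) ≤ RR N a v := RR_anti ha (Nat.le_succ v)
    unfold hi
    rw [min_eq_right h2.le, min_eq_right (h3.trans h2.le), RR_succ hvN]
    ring
  · have h1 : τ ≤ RR N a (v + 1) := le_trans hc (RR_anti ha hv)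
    have h2 : τ ≤ RR N a v := le_trans h1 (RR_anti ha (Nat.le_succ v))
    unfold hi
    rw [min_eq_left h1, min_eq_left h2, sub_self]

end Pool.Agent.W995.CC
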