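import Pool.Agent.W995.CC.LemO

/-!
The contractibility theorem in abstract form.
-/

set_option autoImplicit false

noncomputable section

namespace Pool.Agent.W995.CC

open unitInterval

variable {P Γ K Z Y X T : Type} [TopologicalSpace P] [TopologicalSpace Γ] [TopologicalSpace K]
  [TopologicalSpace Z] [TopologicalSpace Y] [TopologicalSpace X] [TopologicalSpace T]

theorem swl_trans {t0 : T} (b : C(X, Path t0 t0)) {x0 : X} (hb : b x0 = Path.refl t0)
    (φ ψ : Path x0 x0) : swl b hb (φ.trans ψ) = pmc (swl b hb φ) (swl b hb ψ) := by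
  refine Path.ext (funext fun t => Path.ext (funext fun u => ?_))
  show b ((φ.trans ψ) u) t = ((swl b hb φ t).trans (swl b hb ψ t)) u
  rw [Path.trans_apply, Path.trans_apply]
  split_ifs <;> rfl

theorem swl_symm {t0 : T} (b : C(X, Path t0 t0)) {x0 : X} (hb : b x0 = Path.refl t0)
    (φ : Path x0 x0) : swl b hb φ.symm = smc (swl b hb φ) := rfl

theorem topMain [Subsingleton P] {κ : C(P, Γ)} {p0 : P} {n : ℕ}
    {ℓ : ℕ → Path (κ p0) (κ p0)}
    (h1 : CProp κ p0 n ℓ) {ι : C(Γ, K)} {J : ℕ} {c : ℕ → List (ℕ × Bool)}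
    (h2 : DE ι J (fun j => ew ℓ (c j))) (hidx : ∀ j < J, ∀ l ∈ c j, l.1 < n) (hE : Solv J c)
    (hrel : ∀ j < J, ((ew ℓ (c j)).map ι.continuous).Homotopic (Path.refl _))
    {κ' : C(K, Z)} {k : ℕ} {tt : ℕ → Path (κ' (ι (κ p0))) (κ' (ι (κ p0)))}
    (h3 : CProp κ' (ι (κ p0)) k tt) {ι' : C(Z, Y)} {g : ℕ → ℕ} (hg : ∀ s < k, g s < n)
    (h4 : DE ι' k (fun s => (tt s).trans
      (((ℓ (g s)).map ι.continuous).map κ'.continuous).symm))
    (hrel' : ∀ s < k, (((tt s).trans (((ℓ (g s)).map ι.continuous).map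
      κ'.continuous).symm).map ι'.continuous).Homotopic (Path.refl _))
    (hQ : ∀ (Q : Type) [Group Q] (q : ℕ → Q), (∀ j < J, wv q (c j) = 1) →
      (∀ s < k, ∀ i < n, q (g s) * q i = q i * q (g s)) → ∀ i < n, q i = 1) :
    Nonempty (NH (fun y : Y => y) (ι' (κ' (ι (κ p0)))) (ι' (κ' (ι (κ p0))))) := by
  let y0 : Y := ι' (κ' (ι (κ p0)))
  let ll : ℕ → Path y0 y0 := fun i => (((ℓ i).map ι.continuous).map κ'.continuous).map
    ι'.continuous
  let tl : ℕ → Path y0 y0 := fun s => (tt s).map ι'.continuous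
  have htl : ∀ s < k, LG.mk (tl s) = LG.mk (ll (g s)) := by
    intro s hs
    have h := hrel' s hs
    rw [Path.map_trans] at h
    have h' : LG.mk (tl s) * (LG.mk (ll (g s)))⁻¹ = 1 := by
      rw [← LG.mk_symm, ← LG.mk_trans, LG.mk_eq_one]
      exact h
    exact mul_inv_eq_one.1 h'
  have hll : ∀ i < n, LG.mk (ll i) = 1 := by
    refine hQ (LG y0) (fun i => LG.mk (ll i)) (fun j hj => ?_) (fun s hs i hi => ?_)
    · rw [← mk_ew, LG.mk_eq_one]
      have e2 := ew_map ℓ (ι'.comp (κ'.comp ι)) (c j)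
      have e3 := (hrel j hj).map (ι'.comp κ')
      have e4 : ((ew ℓ (c j)).map (ι'.comp (κ'.comp ι)).continuous).Homotopic (Path.refl _) := e3
      rw [e2] at e4
      exact e4
    · have e1 := (h3.comm s hs ((ℓ i).map ι.continuous)).map ι'
      rw [Path.map_trans, Path.map_trans] at e1
      have e2 : LG.mk (tl s) * LG.mk (ll i) = LG.mk (ll i) * LG.mk (tl s) := by
        rw [← LG.mk_trans, ← LG.mk_trans, LG.mk_eq]
        exact e1
      rw [htl s hs] at e2
      exact e2
  obtain ⟨nK⟩ := lemO h1 h2 hidx hE (fun x => ι' (κ' x)) (ι'.continuous.comp κ'.continuous)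
    (fun i hi => LG.mk_eq_one.1 (hll i hi))
  obtain ⟨nZ, -⟩ := h3.CA (fun z => ι' z) ι'.continuous
    (fun s hs => by
      rw [← LG.mk_eq_one]
      exact (htl s hs).trans (hll _ (hg s hs))) nK
  obtain ⟨E, hEE⟩ := h4 (fun y : Y => y) continuous_id
  let ps : ℕ → Path (κ' (ι (κ p0))) (κ' (ι (κ p0))) := fun s => (tt s).trans
      (((ℓ (g s)).map ι.continuous).map κ'.continuous).symm
  let Pp : ∀ _ : ℕ, Path y0 y0 := fun s => (ps s).map ι'.continuous
  let A : ∀ s, Path (Pp s) (Path.refl y0) := fun s => nZ.push (ps s) (Pp s) (fun _ => rfl)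
  classical
  obtain ⟨b, hb0, hb⟩ := h3.CB y0 (fun s => if hs : s < k then (A s).symm.trans (E s hs) else
    Path.refl _)
  have hb' : b (κ' (ι (κ p0))) = Path.refl y0 := hb0 _
  obtain ⟨n', -⟩ := hEE (nZ.mul b hb') (fun s hs => by
    have e0 := NH.push_mul nZ b hb' (ps s) (Pp s) (fun _ => rfl)
    show ((nZ.mul b hb').push (ps s) (Pp s) (fun _ => rfl)).Homotopic (E s hs)
    rw [e0]
    have e1 : swl b hb' (ps s) = pmc ((A s).symm.trans (E s hs)) (smc (Path.refl _)) := by
      show swl b hb' ((tt s).trans _) = _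
      rw [swl_trans, swl_symm]
      congr 1
      · refine Path.ext (funext fun t => Path.ext (funext fun u => ?_))
        have := hb s hs t u
        rw [dif_pos hs] at this
        exact this
      · congr 1
        refine Path.ext (funext fun t => Path.ext (funext fun u => ?_))
        show b (κ' _) t = y0
        rw [hb0]; rfl
    have e2 : LG.mk (swl b hb' (ps s)) = LG.mk ((A s).symm.trans (E s hs)) := by
      rw [e1, mk_pmc, mk_smc, LG.mk_refl, inv_one, mul_one]
    rw [LG.mk_eq] at e2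
    refine ((Path.Homotopic.refl (A s)).hcomp e2).trans ?_
    refine (Path.Homotopic.trans_assoc _ _ _).symm.trans ?_
    exact ((Path.Homotopic.trans_symm (A s)).hcomp (.refl _)).trans (Path.Homotopic.refl_trans _))
  exact ⟨n'⟩

theorem NH.contractible {y0 : Y} (n : NH (fun y : Y => y) y0 y0) : ContractibleSpace Y := by
  rw [contractible_iff_id_nullhomotopic]
  refine ⟨y0, ⟨⟨⟨fun p => n.N p.2 p.1, ?_⟩, fun y => ?_, fun y => ?_⟩⟩⟩
  · exact n.cont.comp (continuous_snd.prodMk continuous_fst)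
  · show n.N y 0 = y
    exact (n.N y).source
  · show n.N y 1 = y0
    exact (n.N y).target

end Pool.Agent.W995.CC
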