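import Pool.Agent.W995.CC.Exp

/-!
Attaching a triangle.
-/

set_option autoImplicit false

noncomputable section

namespace Pool.Agent.W995.CC

open unitInterval

theorem isCompact_Re (L : List (List ℕ)) : IsCompact (Re L) := by
  refine IsCompact.of_isClosed_subset (isCompact_univ_pi fun _ : ℕ => isCompact_Icc (a := (0 : ℝ))
    (b := 1)) (isClosed_Re L) ?_
  rintro x ⟨s, -, h1, h2, h3⟩ v -
  refine ⟨h1 v, ?_⟩
  by_cases hv : v ∈ s
  · rw [← h3]
    exact Finset.single_le_sum (f := fun v => x v) (fun w _ => h1 w) (by simpa using hv)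
  · rw [h2 v hv]
    norm_num

instance (L : List (List ℕ)) : CompactSpace (Re L) := isCompact_iff_compactSpace.1 (isCompact_Re L)

def tA (s : ℝ) : ℝ := min s 1 - min s 0

theorem tA_neg {s : ℝ} (h : s ≤ 0) : tA s = 0 := by
  unfold tA
  rw [min_eq_left h, min_eq_left (h.trans zero_le_one), sub_self]

theorem tA_mid {s : ℝ} (h : 0 ≤ s) (h1 : s ≤ 1) : tA s = s := by
  unfold tA
  rw [min_eq_right h, min_eq_left h1, sub_zero]

theorem tA_big {s : ℝ} (h : 1 ≤ s) : tA s = 1 := by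
  unfold tA
  rw [min_eq_right h, min_eq_right (zero_le_one.trans h), sub_zero]

theorem tA_cont : Continuous tA := by
  unfold tA
  fun_prop

/-- barycentric coordinates of the boundary of a triangle -/
def ta (s : ℝ) : ℝ := 1 - tA s + tA (s - 2)
def tb (s : ℝ) : ℝ := tA s - tA (s - 1)
def tc (s : ℝ) : ℝ := tA (s - 1) - tA (s - 2)

theorem t01 {s : ℝ} (h : 0 ≤ s) (h1 : s ≤ 1) : ta s = 1 - s ∧ tb s = s ∧ tc s = 0 := by
  unfold ta tb tc
  rw [tA_mid h h1, tA_neg (by linarith : s - 2 ≤ 0), tA_neg (by linarith : s - 1 ≤ 0)]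
  refine ⟨by ring, by ring, by ring⟩

theorem t12 {s : ℝ} (h : 1 ≤ s) (h1 : s ≤ 2) : ta s = 0 ∧ tb s = 2 - s ∧ tc s = s - 1 := by
  unfold ta tb tc
  rw [tA_big h, tA_neg (by linarith : s - 2 ≤ 0), tA_mid (by linarith : 0 ≤ s - 1) (by linarith)]
  refine ⟨by ring, by ring, by ring⟩

theorem t23 {s : ℝ} (h : 2 ≤ s) (h1 : s ≤ 3) : ta s = s - 2 ∧ tb s = 0 ∧ tc s = 3 - s := by
  unfold ta tb tc
  rw [tA_big (by linarith), tA_mid (by linarith : 0 ≤ s - 2) (by linarith),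
    tA_big (by linarith : 1 ≤ s - 1)]
  refine ⟨by ring, by ring, by ring⟩

theorem t_cases {s : ℝ} (h : 0 ≤ s) (h1 : s ≤ 3) :
    (ta s = 1 - s ∧ tb s = s ∧ tc s = 0 ∧ s ≤ 1) ∨
    (ta s = 0 ∧ tb s = 2 - s ∧ tc s = s - 1 ∧ 1 ≤ s ∧ s ≤ 2) ∨
    (ta s = s - 2 ∧ tb s = 0 ∧ tc s = 3 - s ∧ 2 ≤ s) := by
  rcases le_total s 1 with h2 | h2
  · obtain ⟨a, b, c⟩ := t01 h h2
    exact Or.inl ⟨a, b, c, h2⟩
  · rcases le_total s 2 with h3 | h3
    · obtain ⟨a, b, c⟩ := t12 h2 h3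
      exact Or.inr (Or.inl ⟨a, b, c, h2, h3⟩)
    · obtain ⟨a, b, c⟩ := t23 h3 h1
      exact Or.inr (Or.inr ⟨a, b, c, h3⟩)

theorem t_inj {s s' : ℝ} (h : 0 ≤ s) (h1 : s ≤ 3) (h' : 0 ≤ s') (h1' : s' ≤ 3)
    (ea : ta s = ta s') (eb : tb s = tb s') (ec : tc s = tc s') :
    s = s' ∨ (s = 0 ∧ s' = 3) ∨ (s = 3 ∧ s' = 0) := by
  rcases t_cases h h1 with ⟨a, b, c, d⟩ | ⟨a, b, c, d, e⟩ | ⟨a, b, c, d⟩ <;>
  rcases t_cases h' h1' with ⟨a', b', c', d'⟩ | ⟨a', b', c', d', e'⟩ | ⟨a', b', c', d'⟩ <;>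
  rw [a, a'] at ea <;> rw [b, b'] at eb <;> rw [c, c'] at ec
  · left; linarith
  · left; linarith
  · right; left; constructor <;> linarith
  · left; linarith
  · left; linarith
  · left; linarith
  · right; right; constructor <;> linarith
  · left; linarith
  · left; linarith

theorem t_nonneg {s : ℝ} (h : 0 ≤ s) (h1 : s ≤ 3) : 0 ≤ ta s ∧ 0 ≤ tb s ∧ 0 ≤ tc s := by
  rcases t_cases h h1 with ⟨a, b, c, d⟩ | ⟨a, b, c, d, e⟩ | ⟨a, b, c, d⟩ <;> rw [a, b, c] <;>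
  refine ⟨?_, ?_, ?_⟩ <;> linarith

theorem t_min {s : ℝ} (h : 0 ≤ s) (h1 : s ≤ 3) : ta s = 0 ∨ tb s = 0 ∨ tc s = 0 := by
  rcases t_cases h h1 with ⟨a, b, c, d⟩ | ⟨a, b, c, d, e⟩ | ⟨a, b, c, d⟩
  · exact Or.inr (Or.inr c)
  · exact Or.inl a
  · exact Or.inr (Or.inl b)

theorem t_sum (s : ℝ) : ta s + tb s + tc s = 1 := by
  unfold ta tb tc; ring

theorem t_surj {x y z : ℝ} (hx : 0 ≤ x) (hy : 0 ≤ y) (hz : 0 ≤ z) (h : x + y + z = 1)
    (h0 : x = 0 ∨ y = 0 ∨ z = 0) :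
    ∃ s : ℝ, 0 ≤ s ∧ s ≤ 3 ∧ ta s = x ∧ tb s = y ∧ tc s = z := by
  rcases h0 with h0 | h0 | h0
  · refine ⟨1 + z, by linarith, by linarith, ?_⟩
    obtain ⟨a, b, c⟩ := t12 (s := 1 + z) (by linarith) (by linarith)
    refine ⟨by linarith, by linarith, by linarith⟩
  · refine ⟨2 + x, by linarith, by linarith, ?_⟩
    obtain ⟨a, b, c⟩ := t23 (s := 2 + x) (by linarith) (by linarith)
    refine ⟨by linarith, by linarith, by linarith⟩
  · refine ⟨y, by linarith, by linarith, ?_⟩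
    obtain ⟨a, b, c⟩ := t01 (s := y) (by linarith) (by linarith)
    refine ⟨by linarith, by linarith, by linarith⟩

theorem ta_cont : Continuous ta := by
  unfold ta
  exact (continuous_const.sub tA_cont).add (tA_cont.comp (by fun_prop))
theorem tb_cont : Continuous tb := by
  unfold tb
  exact tA_cont.sub (tA_cont.comp (by fun_prop))
theorem tc_cont : Continuous tc := by
  unfold tc
  exact (tA_cont.comp (by fun_prop)).sub (tA_cont.comp (by fun_prop))

/-- the point with three barycentric coordinates -/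
def bc (a b c : ℕ) (x y z : ℝ) : ℕ → ℝ := fun w => x * dl a w + y * dl b w + z * dl c w

variable {a b c : ℕ}

theorem bc_a (hab : a ≠ b) (hac : a ≠ c) (x y z : ℝ) : bc a b c x y z a = x := by
  simp [bc, dl_same, dl_ne hab, dl_ne hac]
theorem bc_b (hab : a ≠ b) (hbc : b ≠ c) (x y z : ℝ) : bc a b c x y z b = y := by
  simp [bc, dl_same, dl_ne hab.symm, dl_ne hbc]
theorem bc_c (hac : a ≠ c) (hbc : b ≠ c) (x y z : ℝ) : bc a b c x y z c = z := by
  simp [bc, dl_same, dl_ne hac.symm, dl_ne hbc.symm]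
theorem bc_ne {w : ℕ} (ha : w ≠ a) (hb : w ≠ b) (hc : w ≠ c) (x y z : ℝ) :
    bc a b c x y z w = 0 := by
  simp [bc, dl_ne ha, dl_ne hb, dl_ne hc]

theorem bc_mem (hab : a ≠ b) (hac : a ≠ c) (hbc : b ≠ c) {x y z : ℝ} (hx : 0 ≤ x) (hy : 0 ≤ y)
    (hz : 0 ≤ z) (h : x + y + z = 1) : bc a b c x y z ∈ Sx [a, b, c] := by
  rw [mem_Sx3 hab hac hbc, bc_a hab hac, bc_b hab hbc, bc_c hac hbc]
  refine ⟨fun v => ?_, fun v h1 h2 h3 => bc_ne h1 h2 h3 _ _ _, h⟩
  by_cases ha : v = a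
  · subst ha; rw [bc_a hab hac]; exact hx
  by_cases hb : v = b
  · subst hb; rw [bc_b hab hbc]; exact hy
  by_cases hc : v = c
  · subst hc; rw [bc_c hac hbc]; exact hz
  rw [bc_ne ha hb hc]

theorem bc_eq (hab : a ≠ b) (hac : a ≠ c) (hbc : b ≠ c) {y : ℕ → ℝ} (hy : y ∈ Sx [a, b, c]) :
    y = bc a b c (y a) (y b) (y c) := by
  rw [mem_Sx3 hab hac hbc] at hy
  funext v
  by_cases ha : v = a
  · subst ha; rw [bc_a hab hac]
  by_cases hb : v = b
  · subst hb; rw [bc_b hab hbc]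
  by_cases hc : v = c
  · subst hc; rw [bc_c hac hbc]
  rw [bc_ne ha hb hc, hy.2.1 v ha hb hc]

theorem bc_cont (a b c : ℕ) {X : Type} [TopologicalSpace X] {f g h : X → ℝ} (hf : Continuous f)
    (hg : Continuous g) (hh : Continuous h) : Continuous fun x => bc a b c (f x) (g x) (h x) := by
  refine continuous_pi fun v => ?_
  unfold bc
  fun_prop

theorem bc_comb (a b c : ℕ) (x y z : ℝ) (x' y' z' : ℝ) (r : ℝ) :
    (fun v => (1 - r) * bc a b c x y z v + r * bc a b c x' y' z' v) =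
      bc a b c ((1 - r) * x + r * x') ((1 - r) * y + r * y') ((1 - r) * z + r * z') := by
  funext v
  unfold bc
  ring

/-- membership of boundary points -/
theorem bd_mem {L : List (List ℕ)} (hab : a ≠ b) (hac : a ≠ c) (hbc : b ≠ c) (h1 : adj L a b)
    (h2 : adj L b c) (h3 : adj L c a) {s : ℝ} (h : 0 ≤ s) (h' : s ≤ 3) :
    bc a b c (ta s) (tb s) (tc s) ∈ Re L := by
  have hm := bc_mem hab hac hbc (t_nonneg h h').1 (t_nonneg h h').2.1 (t_nonneg h h').2.2 (t_sum s)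
  rw [mem_Sx3 hab hac hbc] at hm
  obtain ⟨m1, m2, m3⟩ := hm
  have ea := bc_a hab hac (ta s) (tb s) (tc s)
  have eb := bc_b hab hbc (ta s) (tb s) (tc s)
  have ec := bc_c hac hbc (ta s) (tb s) (tc s)
  rcases t_min h h' with h0 | h0 | h0
  · apply Sx2_mem h2
    rw [mem_Sx2 hbc]
    refine ⟨m1, fun v hvb hvc => ?_, by linarith⟩
    by_cases hva : v = a
    · rw [hva, ea, h0]
    · exact m2 v hva hvb hvc
  · apply Sx2_mem h3
    rw [mem_Sx2 hac.symm]
    refine ⟨m1, fun v hvc hva => ?_, by linarith⟩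
    by_cases hvb : v = b
    · rw [hvb, eb, h0]
    · exact m2 v hva hvb hvc
  · apply Sx2_mem h1
    rw [mem_Sx2 hab]
    refine ⟨m1, fun v hva hvb => ?_, by linarith⟩
    by_cases hvc : v = c
    · rw [hvc, ec, h0]
    · exact m2 v hva hvb hvc

/-- the boundary loop of a triangle -/
def bl {L : List (List ℕ)} (hab : a ≠ b) (hac : a ≠ c) (hbc : b ≠ c) (h1 : adj L a b)
    (h2 : adj L b c) (h3 : adj L c a) : Path (pt L a h1.left) (pt L a h3.right) where
  toFun u := ⟨bc a b c (ta (3 * u)) (tb (3 * u)) (tc (3 * u)),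
    bd_mem hab hac hbc h1 h2 h3 (by have := u.2.1; linarith) (by have := u.2.2; linarith)⟩
  continuous_toFun := Continuous.subtype_mk (bc_cont a b c (ta_cont.comp (by fun_prop))
    (tb_cont.comp (by fun_prop)) (tc_cont.comp (by fun_prop))) _
  source' := by
    apply Subtype.ext
    show bc a b c (ta (3 * (0 : I))) (tb (3 * (0 : I))) (tc (3 * (0 : I))) = dl a
    obtain ⟨e1, e2, e3⟩ := t01 (s := 0) le_rfl zero_le_one
    rw [Set.Icc.coe_zero, mul_zero, e1, e2, e3]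
    funext v
    simp [bc]
  target' := by
    apply Subtype.ext
    show bc a b c (ta (3 * (1 : I))) (tb (3 * (1 : I))) (tc (3 * (1 : I))) = dl a
    obtain ⟨e1, e2, e3⟩ := t23 (s := 3) (by norm_num) le_rfl
    rw [Set.Icc.coe_one, mul_one, e1, e2, e3]
    funext v
    simp [bc]
    norm_num

theorem bl_eq {L : List (List ℕ)} (hab : a ≠ b) (hac : a ≠ c) (hbc : b ≠ c) (h1 : adj L a b)
    (h2 : adj L b c) (h3 : adj L c a) : (bl hab hac hbc h1 h2 h3).Homotopic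
      ((sg L a b h1).trans ((sg L b c h2).trans (sg L c a h3))) := by
  let P : C(ℝ, Re L) := ⟨fun t => ⟨bc a b c (ta (max 0 (min t 3))) (tb (max 0 (min t 3)))
    (tc (max 0 (min t 3))), bd_mem hab hac hbc h1 h2 h3 (le_max_left _ _)
      (max_le (by norm_num) (min_le_right _ _))⟩,
    Continuous.subtype_mk (bc_cont a b c (ta_cont.comp (by fun_prop))
    (tb_cont.comp (by fun_prop)) (tc_cont.comp (by fun_prop))) _⟩
  have hP : ∀ t : ℝ, 0 ≤ t → t ≤ 3 → (P t : ℕ → ℝ) = bc a b c (ta t) (tb t) (tc t) := by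
    intro t h0 h3
    show bc a b c (ta (max 0 (min t 3))) (tb (max 0 (min t 3))) (tc (max 0 (min t 3))) = _
    rw [min_eq_left h3, max_eq_right h0]
  refine three P _ _ _ _ (fun u => ?_) (fun u => ?_) (fun u => ?_) (fun u => ?_)
  · apply Subtype.ext
    rw [hP _ (by linarith [u.2.1]) (by linarith [u.2.2])]
    rfl
  · apply Subtype.ext
    have u0 := u.2.1
    have u1 := u.2.2
    rw [hP _ (by linarith) (by linarith)]
    obtain ⟨e1, e2, e3⟩ := t01 (s := (u : ℝ)) u0 u1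
    rw [e1, e2, e3]
    funext v
    show (1 - (u : ℝ)) * dl a v + u * dl b v = _
    unfold bc
    ring
  · apply Subtype.ext
    have u0 := u.2.1
    have u1 := u.2.2
    rw [hP _ (by linarith) (by linarith)]
    obtain ⟨e1, e2, e3⟩ := t12 (s := 1 + (u : ℝ)) (by linarith) (by linarith)
    rw [e1, e2, e3]
    funext v
    show (1 - (u : ℝ)) * dl b v + u * dl c v = _
    unfold bc
    ring
  · apply Subtype.ext
    have u0 := u.2.1
    have u1 := u.2.2
    rw [hP _ (by linarith) (by linarith)]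
    obtain ⟨e1, e2, e3⟩ := t23 (s := 2 + (u : ℝ)) (by linarith) (by linarith)
    rw [e1, e2, e3]
    funext v
    show (1 - (u : ℝ)) * dl c v + u * dl a v = _
    unfold bc
    ring

end Pool.Agent.W995.CC
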