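import Pool.Agent.W995.CC.TriS

/-!
The 2-cell structure of an attached triangle.
-/

set_option autoImplicit false

noncomputable section

namespace Pool.Agent.W995.CC

open unitInterval

variable {a b c : ℕ} {L : List (List ℕ)}

theorem t_zero : ta (3 * ((0 : I) : ℝ)) = 1 ∧ tb (3 * ((0 : I) : ℝ)) = 0 ∧
    tc (3 * ((0 : I) : ℝ)) = 0 := by
  obtain ⟨e1, e2, e3⟩ := t01 (s := 0) le_rfl zero_le_one
  rw [Set.Icc.coe_zero, mul_zero, e1, e2, e3]
  refine ⟨by norm_num, rfl, rfl⟩

theorem t_one : ta (3 * ((1 : I) : ℝ)) = 1 ∧ tb (3 * ((1 : I) : ℝ)) = 0 ∧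
    tc (3 * ((1 : I) : ℝ)) = 0 := by
  obtain ⟨e1, e2, e3⟩ := t23 (s := 3) (by norm_num) le_rfl
  rw [Set.Icc.coe_one, mul_one, e1, e2, e3]
  refine ⟨by norm_num, rfl, by norm_num⟩

/-- the polar coordinates with the contracting homotopy -/
def km (a b c : ℕ) (t u r : ℝ) : ℕ → ℝ :=
  bc a b c ((1 - r) * ta (3 * u) + r / 3 + t * (2 * r / 3)) ((1 - r) * tb (3 * u) + r / 3 - t * (r / 3))
    ((1 - r) * tc (3 * u) + r / 3 - t * (r / 3))

theorem km_mem (hab : a ≠ b) (hac : a ≠ c) (hbc : b ≠ c) (t u r : I) :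
    km a b c t u r ∈ Sx [a, b, c] := by
  have u0 := u.2.1
  have u1 := u.2.2
  have r0 := r.2.1
  have r1 := sub_nonneg.2 r.2.2
  have t0 := t.2.1
  have t1 := sub_nonneg.2 t.2.2
  obtain ⟨h1, h2, h3⟩ := t_nonneg (s := 3 * (u : ℝ)) (by linarith) (by linarith)
  have hs := t_sum (3 * (u : ℝ))
  refine bc_mem hab hac hbc ?_ ?_ ?_ ?_
  · have := mul_nonneg r1 h1
    have := mul_nonneg t0 r0
    linarith
  · have := mul_nonneg r1 h2
    have := mul_nonneg t1 r0
    linarith
  · have := mul_nonneg r1 h3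
    have := mul_nonneg t1 r0
    linarith
  · have : (1 - (r : ℝ)) * (ta (3 * u) + tb (3 * u) + tc (3 * u)) = 1 - r := by rw [hs, mul_one]
    linarith

theorem km_zero (a b c : ℕ) (t u : ℝ) :
    km a b c t u 0 = bc a b c (ta (3 * u)) (tb (3 * u)) (tc (3 * u)) := by
  unfold km
  congr 1 <;> ring

theorem km_surj (hab : a ≠ b) (hac : a ≠ c) (hbc : b ≠ c) {y : ℕ → ℝ} (hy : y ∈ Sx [a, b, c]) :
    ∃ u r : I, km a b c 0 u r = y := by
  have hy' := hy
  rw [mem_Sx3 hab hac hbc] at hy'
  obtain ⟨h1, -, h3⟩ := hy'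
  rw [bc_eq hab hac hbc hy]
  have ha := h1 a
  have hb := h1 b
  have hc := h1 c
  generalize y a = p at *
  generalize y b = q at *
  generalize y c = z at *
  obtain ⟨m, m1, m2, m3, m4⟩ : ∃ m : ℝ, m ≤ p ∧ m ≤ q ∧ m ≤ z ∧ (p = m ∨ q = m ∨ z = m) := by
    refine ⟨min p (min q z), min_le_left _ _, (min_le_right _ _).trans (min_le_left _ _),
      (min_le_right _ _).trans (min_le_right _ _), ?_⟩
    rcases le_total p (min q z) with h | h
    · left; rw [min_eq_left h]
    · rw [min_eq_right h]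
      rcases le_total q z with h' | h'
      · right; left; rw [min_eq_left h']
      · right; right; rw [min_eq_right h']
  have m0 : 0 ≤ m := by rcases m4 with h | h | h <;> linarith
  by_cases hm : m = 1 / 3
  · refine ⟨0, 1, ?_⟩
    unfold km
    have e1 : p = 1 / 3 := by linarith
    have e2 : q = 1 / 3 := by linarith
    have e3 : z = 1 / 3 := by linarith
    rw [e1, e2, e3, Set.Icc.coe_one]
    congr 1 <;> ring
  · have hm3 : 0 < 1 - 3 * m := by
      have : 3 * m ≤ 1 := by linarith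
      rcases this.lt_or_eq with h | h
      · linarith
      · exact absurd (by linarith) hm
    obtain ⟨s, s0, s3, ea, eb, ec⟩ := t_surj (x := (p - m) / (1 - 3 * m)) (y := (q - m) / (1 - 3 * m))
      (z := (z - m) / (1 - 3 * m)) (div_nonneg (by linarith) hm3.le)
      (div_nonneg (by linarith) hm3.le) (div_nonneg (by linarith) hm3.le) (by
        rw [← add_div, ← add_div, div_eq_one_iff_eq hm3.ne']
        linarith) (by
        rcases m4 with h | h | h
        · left; rw [h, sub_self, zero_div]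
        · right; left; rw [h, sub_self, zero_div]
        · right; right; rw [h, sub_self, zero_div])
    refine ⟨⟨s / 3, by positivity, by linarith⟩, ⟨3 * m, by positivity, by linarith⟩, ?_⟩
    unfold km
    simp only
    rw [mul_div_cancel₀ s (by norm_num : (3 : ℝ) ≠ 0), ea, eb, ec, mul_div_cancel₀ _ hm3.ne',
      mul_div_cancel₀ _ hm3.ne', mul_div_cancel₀ _ hm3.ne']
    congr 1 <;> ring

theorem km_inj (hab : a ≠ b) (hac : a ≠ c) (hbc : b ≠ c) {u r u' r' : I}
    (h : km a b c 0 u r = km a b c 0 u' r') :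
    r = r' ∧ (u = u' ∨ (u = 0 ∧ u' = 1) ∨ (u = 1 ∧ u' = 0) ∨ r = 1) := by
  have u0 := u.2.1
  have u1 := u.2.2
  have u0' := u'.2.1
  have u1' := u'.2.2
  have r0 := r.2.1
  have r1 := sub_nonneg.2 r.2.2
  have r0' := r'.2.1
  have r1' := sub_nonneg.2 r'.2.2
  have ea := congrFun h a
  have eb := congrFun h b
  have ec := congrFun h c
  unfold km at ea eb ec
  rw [bc_a hab hac, bc_a hab hac] at ea
  rw [bc_b hab hbc, bc_b hab hbc] at eb
  rw [bc_c hac hbc, bc_c hac hbc] at ec
  simp only [zero_mul, add_zero, sub_zero] at ea eb ec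
  obtain ⟨h1, h2, h3⟩ := t_nonneg (s := 3 * (u : ℝ)) (by linarith) (by linarith)
  obtain ⟨h1', h2', h3'⟩ := t_nonneg (s := 3 * (u' : ℝ)) (by linarith) (by linarith)
  have hm := t_min (s := 3 * (u : ℝ)) (by linarith) (by linarith)
  have hm' := t_min (s := 3 * (u' : ℝ)) (by linarith) (by linarith)
  have p1 := mul_nonneg r1 h1
  have p2 := mul_nonneg r1 h2
  have p3 := mul_nonneg r1 h3
  have p1' := mul_nonneg r1' h1'
  have p2' := mul_nonneg r1' h2'
  have p3' := mul_nonneg r1' h3'
  have hle : (r' : ℝ) ≤ r := by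
    rcases hm with h | h | h
    · rw [h] at ea; linarith
    · rw [h] at eb; linarith
    · rw [h] at ec; linarith
  have hge : (r : ℝ) ≤ r' := by
    rcases hm' with h | h | h
    · rw [h] at ea; linarith
    · rw [h] at eb; linarith
    · rw [h] at ec; linarith
  have hr : (r : ℝ) = r' := le_antisymm hge hle
  have hr' : r = r' := Subtype.ext hr
  refine ⟨hr', ?_⟩
  by_cases hr1 : (r : ℝ) = 1
  · right; right; right; exact Subtype.ext hr1
  · have hne : (1 : ℝ) - r ≠ 0 := fun h => hr1 (by linarith)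
    rw [← hr] at ea eb ec
    have fa : ta (3 * (u : ℝ)) = ta (3 * (u' : ℝ)) := mul_left_cancel₀ hne (by linarith)
    have fb : tb (3 * (u : ℝ)) = tb (3 * (u' : ℝ)) := mul_left_cancel₀ hne (by linarith)
    have fc : tc (3 * (u : ℝ)) = tc (3 * (u' : ℝ)) := mul_left_cancel₀ hne (by linarith)
    rcases t_inj (by linarith) (by linarith) (by linarith) (by linarith) fa fb fc with
      h | ⟨h, h'⟩ | ⟨h, h'⟩
    · left; exact Subtype.ext (by linarith)
    · right; left
      refine ⟨Subtype.ext ?_, Subtype.ext ?_⟩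
      · show (u : ℝ) = 0
        linarith
      · show (u' : ℝ) = 1
        linarith
    · right; right; left
      refine ⟨Subtype.ext ?_, Subtype.ext ?_⟩
      · show (u : ℝ) = 1
        linarith
      · show (u' : ℝ) = 0
        linarith

/-- if a cell point is in `Re L`, it is on the boundary -/
theorem km_Re (hab : a ≠ b) (hac : a ≠ c) (hbc : b ≠ c) (hn : ¬ adj3 L a b c) {u r : I}
    (h : km a b c 0 u r ∈ Re L) : r = 0 := by
  obtain ⟨s, hs, h1, h2, h3⟩ := h
  by_contra hr
  have hr0 : (0 : ℝ) < r := lt_of_le_of_ne r.2.1 fun h => hr (Subtype.ext h.symm)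
  have u0 := u.2.1
  have u1 := u.2.2
  have r1 := sub_nonneg.2 r.2.2
  obtain ⟨k1, k2, k3⟩ := t_nonneg (s := 3 * (u : ℝ)) (by linarith) (by linarith)
  have p1 := mul_nonneg r1 k1
  have p2 := mul_nonneg r1 k2
  have p3 := mul_nonneg r1 k3
  refine hn ⟨s, hs, ?_, ?_, ?_⟩
  · by_contra hv
    have := h2 a hv
    unfold km at this
    rw [bc_a hab hac] at this
    linarith
  · by_contra hv
    have := h2 b hv
    unfold km at this
    rw [bc_b hab hbc] at this
    linarith
  · by_contra hv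
    have := h2 c hv
    unfold km at this
    rw [bc_c hac hbc] at this
    linarith

theorem km_cont {X : Type} [TopologicalSpace X] {f g h : X → ℝ} (hf : Continuous f)
    (hg : Continuous g) (hh : Continuous h) : Continuous fun x => km a b c (f x) (g x) (h x) := by
  unfold km
  refine bc_cont a b c ?_ ?_ ?_
  · have := ta_cont.comp (continuous_const.mul hg : Continuous fun x => (3 : ℝ) * g x)
    exact (((continuous_const.sub hh).mul this).add (hh.div_const _)).add
      (hf.mul ((continuous_const.mul hh).div_const _))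
  · have := tb_cont.comp (continuous_const.mul hg : Continuous fun x => (3 : ℝ) * g x)
    exact (((continuous_const.sub hh).mul this).add (hh.div_const _)).sub
      (hf.mul (hh.div_const _))
  · have := tc_cont.comp (continuous_const.mul hg : Continuous fun x => (3 : ℝ) * g x)
    exact (((continuous_const.sub hh).mul this).add (hh.div_const _)).sub
      (hf.mul (hh.div_const _))

theorem Re_sub (s : List ℕ) (L : List (List ℕ)) : Re L ⊆ Re (s :: L) := by
  rw [Re_cons]; exact Set.subset_union_right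

/-- the cell map -/
def cellK (hab : a ≠ b) (hac : a ≠ c) (hbc : b ≠ c) (L : List (List ℕ)) :
    C(I × I × I, Re ([a, b, c] :: L)) where
  toFun p := ⟨km a b c p.1 p.2.1 p.2.2, by
    rw [Re_cons]; exact Or.inl (km_mem hab hac hbc _ _ _)⟩
  continuous_toFun := by
    have h : Continuous fun p : I × I × I => km a b c (p.1 : ℝ) (p.2.1 : ℝ) (p.2.2 : ℝ) :=
      km_cont (by fun_prop) (by fun_prop) (by fun_prop)
    exact Continuous.subtype_mk h _

theorem cell_ext (hab : a ≠ b) (hac : a ≠ c) (hbc : b ≠ c) (h1 : adj L a b)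
    (h2 : adj L b c) (h3 : adj L c a) (hn : ¬ adj3 L a b c) {Z : Type} [TopologicalSpace Z]
    (g : C(Re L, Z)) (h : C(I × I, Z)) (hg : ∀ u, h (u, 0) = g (bl hab hac hbc h1 h2 h3 u))
    (hp : ∀ r, h (0, r) = h (1, r)) (hr : ∀ u, h (u, 1) = h (0, 1)) :
    ∃ g' : C(Re ([a, b, c] :: L), Z), (∀ x, g' (inc (Re_sub _ _) x) = g x) ∧
      ∀ u r, g' (cellK hab hac hbc L (0, u, r)) = h (u, r) := by
  let q : C(Re L ⊕ I × I, Re ([a, b, c] :: L)) :=
    ⟨Sum.elim (inc (Re_sub _ _)) fun p => cellK hab hac hbc L (0, p.1, p.2),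
      Continuous.sumElim (inc (Re_sub _ _)).continuous (by fun_prop)⟩
  have hq : Topology.IsQuotientMap q := by
    refine IsClosedMap.isQuotientMap q.continuous.isClosedMap q.continuous ?_
    rintro ⟨y, hy⟩
    rw [Re_cons] at hy
    rcases hy with hy | hy
    · obtain ⟨u, r, e⟩ := km_surj hab hac hbc hy
      exact ⟨Sum.inr (u, r), Subtype.ext e⟩
    · exact ⟨Sum.inl ⟨y, hy⟩, rfl⟩
  let G : C(Re L ⊕ I × I, Z) := ⟨Sum.elim g h, Continuous.sumElim g.continuous h.continuous⟩
  have key : ∀ (x : Re L) (u r : I), km a b c 0 u r = x → g x = h (u, r) := by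
    intro x u r e
    have hr0 : r = 0 := km_Re hab hac hbc hn (e ▸ x.2)
    subst hr0
    rw [hg]
    congr 1
    apply Subtype.ext
    rw [← e]
    exact km_zero a b c 0 u
  have hf : Function.FactorsThrough G q := by
    rintro (x | ⟨u, r⟩) (x' | ⟨u', r'⟩) e
    · show g x = g x'
      have e : inc (Re_sub _ _) x = inc (Re_sub [a, b, c] L) x' := e
      have : x = x' := Subtype.ext (congrArg (fun z : Re ([a, b, c] :: L) => (z : ℕ → ℝ)) e)
      rw [this]
    · exact key x u' r' (congrArg (fun z : Re ([a, b, c] :: L) => (z : ℕ → ℝ)) e).symm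
    · exact (key x' u r (congrArg (fun z : Re ([a, b, c] :: L) => (z : ℕ → ℝ)) e)).symm
    · show h (u, r) = h (u', r')
      obtain ⟨rfl, h4⟩ := km_inj hab hac hbc
        (congrArg (fun z : Re ([a, b, c] :: L) => (z : ℕ → ℝ)) e :
          km a b c 0 u r = km a b c 0 u' r')
      rcases h4 with rfl | ⟨rfl, rfl⟩ | ⟨rfl, rfl⟩ | rfl
      · rfl
      · exact hp r
      · exact (hp r).symm
      · rw [hr u, hr u']
  refine ⟨hq.lift G hf, fun x => ?_, fun u r => ?_⟩
  · have := congrArg (fun F : C(Re L ⊕ I × I, Z) => F (Sum.inl x)) (hq.lift_comp G hf)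
    exact this
  · have := congrArg (fun F : C(Re L ⊕ I × I, Z) => F (Sum.inr (u, r))) (hq.lift_comp G hf)
    exact this

/-- attaching a triangle -/
def triS (hab : a ≠ b) (hac : a ≠ c) (hbc : b ≠ c) (h1 : adj L a b)
    (h2 : adj L b c) (h3 : adj L c a) (hn : ¬ adj3 L a b c) :
    Tri (inc (Re_sub [a, b, c] L)) (bl hab hac hbc h1 h2 h3) where
  k := cellK hab hac hbc L
  k0 t u := Subtype.ext (km_zero a b c t u)
  kp t r := by
    apply Subtype.ext
    show km a b c t (0 : I) r = km a b c t (1 : I) r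
    unfold km
    rw [t_zero.1, t_zero.2.1, t_zero.2.2, t_one.1, t_one.2.1, t_one.2.2]
  k1 t u := by
    apply Subtype.ext
    show km a b c t u (1 : I) = km a b c t (0 : I) (1 : I)
    unfold km
    rw [Set.Icc.coe_one, sub_self, zero_mul, zero_mul, zero_mul, zero_mul, zero_mul, zero_mul]
  kb r := by
    apply Subtype.ext
    show km a b c (1 : I) (0 : I) r = dl a
    unfold km
    rw [t_zero.1, t_zero.2.1, t_zero.2.2, Set.Icc.coe_one]
    funext v
    unfold bc
    ring
  surj := by
    rintro ⟨y, hy⟩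
    rw [Re_cons] at hy
    rcases hy with hy | hy
    · obtain ⟨u, r, e⟩ := km_surj hab hac hbc hy
      exact Or.inr ⟨u, r, Subtype.ext e⟩
    · exact Or.inl ⟨⟨y, hy⟩, rfl⟩
  ext g h hg hp hr := cell_ext hab hac hbc h1 h2 h3 hn g h hg hp hr

end Pool.Agent.W995.CC
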